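import Mathlib

/-!
# Two lines of independent sets

`R`, `I` are disjoint finite sets, independent in two matroids `M₁`, `M₂`.  In the first line the
elements of `R` leave at (integer) times `ξ` and the elements of `I` enter at times `ξ`; in the
second line the elements of `I` leave at times `η` and the elements of `R` enter at times `η`.
A configuration is valid if the set present is independent at every time, in `M₁` for the first and
in `M₂` for the second line.  We study valid configurations which minimise the sum of the squares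
of the shortages `N - (ξ s - η s)` (`s ∈ R`) and `N - (η t - ξ t)` (`t ∈ I`).
-/

namespace Pool.Agent.Lib.MP_2c7063_coS

open Set

variable {α : Type*}

/-- The set present at time `x` if `P` leaves and `Q` enters at the times `τ`. -/
def L (P Q : Finset α) (τ : α → ℤ) (x : ℤ) : Set α :=
  {e | (e ∈ P ∧ x < τ e) ∨ (e ∈ Q ∧ τ e ≤ x)}

/-- A valid configuration. -/
structure Cfg (M₁ M₂ : Matroid α) (R I : Finset α) (ξ η : α → ℤ) : Prop where
  l1 : ∀ x, M₁.Indep (L R I ξ x)
  l2 : ∀ x, M₂.Indep (L I R η x)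

open Classical in
/-- The shortage. -/
noncomputable def df (N : ℤ) (R : Finset α) (ξ η : α → ℤ) (e : α) : ℕ :=
  (N - if e ∈ R then ξ e - η e else η e - ξ e).toNat

open Classical in
/-- The energy. -/
noncomputable def En (N : ℤ) (R I : Finset α) (ξ η : α → ℤ) : ℕ :=
  ∑ e ∈ R ∪ I, (df N R ξ η e) ^ 2

/-- A valid configuration of minimal energy. -/
structure Opt (N : ℤ) (M₁ M₂ : Matroid α) (R I : Finset α) (ξ η : α → ℤ) : Prop where
  cfg : Cfg M₁ M₂ R I ξ η
  dis : Disjoint R I
  min : ∀ ξ' η', Cfg M₁ M₂ R I ξ' η' → En N R I ξ η ≤ En N R I ξ' η'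

/-! ### Symmetries -/

theorem Cfg.swap {M₁ M₂ : Matroid α} {R I : Finset α} {ξ η : α → ℤ} (h : Cfg M₁ M₂ R I ξ η) :
    Cfg M₂ M₁ I R η ξ := ⟨h.l2, h.l1⟩

theorem L_neg (P Q : Finset α) (τ : α → ℤ) (x : ℤ) :
    L P Q (fun e => - τ e) x = L Q P τ (- x - 1) := by
  ext e
  simp only [L, mem_ofPred_eq]
  constructor
  · rintro (⟨h, h'⟩ | ⟨h, h'⟩)
    · exact Or.inr ⟨h, by omega⟩
    · exact Or.inl ⟨h, by omega⟩
  · rintro (⟨h, h'⟩ | ⟨h, h'⟩)
    · exact Or.inr ⟨h, by omega⟩
    · exact Or.inl ⟨h, by omega⟩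

theorem Cfg.rev {M₁ M₂ : Matroid α} {R I : Finset α} {ξ η : α → ℤ} (h : Cfg M₁ M₂ R I ξ η) :
    Cfg M₂ M₁ R I (fun e => - η e) (fun e => - ξ e) :=
  ⟨fun x => by rw [L_neg]; exact h.l2 _, fun x => by rw [L_neg]; exact h.l1 _⟩

theorem df_swap {N : ℤ} {R I : Finset α} (hd : Disjoint R I) {ξ η : α → ℤ} {e : α}
    (he : e ∈ R ∨ e ∈ I) : df N I η ξ e = df N R ξ η e := by
  classical
  unfold df
  rcases he with he | he
  · rw [if_neg (Finset.disjoint_left.1 hd he), if_pos he]
  · rw [if_pos he, if_neg (Finset.disjoint_right.1 hd he)]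

theorem En_swap {N : ℤ} {R I : Finset α} (hd : Disjoint R I) (ξ η : α → ℤ) :
    En N I R η ξ = En N R I ξ η := by
  classical
  unfold En
  rw [Finset.union_comm]
  refine Finset.sum_congr rfl fun e he => ?_
  rw [df_swap hd (Finset.mem_union.1 he)]

theorem df_rev {N : ℤ} {R : Finset α} {ξ η : α → ℤ} {e : α} :
    df N R (fun e => - η e) (fun e => - ξ e) e = df N R ξ η e := by
  classical
  unfold df
  split_ifs <;> congr 1 <;> ring

theorem En_rev {N : ℤ} {R I : Finset α} (ξ η : α → ℤ) :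
    En N R I (fun e => - η e) (fun e => - ξ e) = En N R I ξ η := by
  unfold En
  exact Finset.sum_congr rfl fun e _ => by rw [df_rev]

theorem Opt.swap {N : ℤ} {M₁ M₂ : Matroid α} {R I : Finset α} {ξ η : α → ℤ}
    (h : Opt N M₁ M₂ R I ξ η) : Opt N M₂ M₁ I R η ξ :=
  ⟨h.cfg.swap, h.dis.symm, fun ξ' η' h' => by
    rw [En_swap h.dis, En_swap h.dis]
    exact h.min _ _ h'.swap⟩

theorem Opt.rev {N : ℤ} {M₁ M₂ : Matroid α} {R I : Finset α} {ξ η : α → ℤ}
    (h : Opt N M₁ M₂ R I ξ η) : Opt N M₂ M₁ R I (fun e => - η e) (fun e => - ξ e) :=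
  ⟨h.cfg.rev, h.dis, fun ξ' η' h' => by
    rw [En_rev, ← En_rev ξ' η']
    exact h.min _ _ h'.rev⟩

/-! ### Ground set -/

theorem Cfg.indepR {M₁ M₂ : Matroid α} {R I : Finset α} {ξ η : α → ℤ} (h : Cfg M₁ M₂ R I ξ η) :
    M₁.Indep (R : Set α) := by
  obtain ⟨b, hb⟩ : ∃ b : ℤ, ∀ e ∈ R, b < ξ e := by
    obtain ⟨b, hb⟩ := (R.image ξ).bddBelow
    exact ⟨b - 1, fun e he => by
      have := hb (Finset.mem_coe.2 (Finset.mem_image_of_mem ξ he)); omega⟩
  exact (h.l1 b).subset fun e he => Or.inl ⟨he, hb e he⟩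

theorem Cfg.indepI {M₁ M₂ : Matroid α} {R I : Finset α} {ξ η : α → ℤ} (h : Cfg M₁ M₂ R I ξ η) :
    M₁.Indep (I : Set α) := by
  obtain ⟨b, hb⟩ : ∃ b : ℤ, ∀ e ∈ I, ξ e ≤ b := by
    obtain ⟨b, hb⟩ := (I.image ξ).bddAbove
    exact ⟨b, fun e he => hb (Finset.mem_coe.2 (Finset.mem_image_of_mem ξ he))⟩
  exact (h.l1 b).subset fun e he => Or.inr ⟨he, hb e he⟩

/-! ### Local optimality -/

open Classical in
theorem step1 {N : ℤ} {M₁ M₂ : Matroid α} {R I : Finset α} {ξ η : α → ℤ}
    (h : Opt N M₁ M₂ R I ξ η) {s : α} (hs : s ∈ R) (hd : 1 ≤ df N R ξ η s) :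
    s ∈ M₁.closure (L R I ξ (ξ s)) := by
  by_contra hcl
  have hsE : s ∈ M₁.E := h.cfg.indepR.subset_ground hs
  have hsI : s ∉ I := Finset.disjoint_left.1 h.dis hs
  have hsL : s ∉ L R I ξ (ξ s) := by
    rintro (⟨_, h'⟩ | ⟨h', _⟩)
    · omega
    · exact hsI h'
  have hins : M₁.Indep (insert s (L R I ξ (ξ s))) :=
    ((h.cfg.l1 _).insert_indep_iff_of_notMem hsL).2 ⟨hsE, hcl⟩
  set ξ' : α → ℤ := fun e => if e = s then ξ s + 1 else ξ e with hξ'
  have hcfg : Cfg M₁ M₂ R I ξ' η := by
    refine ⟨fun x => ?_, h.cfg.l2⟩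
    by_cases hx : x = ξ s
    · refine hins.subset ?_
      rintro e (⟨he, he'⟩ | ⟨he, he'⟩)
      · by_cases hes : e = s
        · exact Or.inl hes
        · refine Or.inr (Or.inl ⟨he, ?_⟩)
          simp only [hξ', if_neg hes] at he'
          omega
      · have hes : e ≠ s := fun h' => hsI (h' ▸ he)
        refine Or.inr (Or.inr ⟨he, ?_⟩)
        simp only [hξ', if_neg hes] at he'
        omega
    · refine (h.cfg.l1 x).subset ?_
      rintro e (⟨he, he'⟩ | ⟨he, he'⟩)
      · refine Or.inl ⟨he, ?_⟩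
        by_cases hes : e = s
        · subst hes
          simp only [hξ', if_true] at he'
          omega
        · simp only [hξ', if_neg hes] at he'
          exact he'
      · have hes : e ≠ s := fun h' => hsI (h' ▸ he)
        refine Or.inr ⟨he, ?_⟩
        simp only [hξ', if_neg hes] at he'
        exact he'
  have hlt : En N R I ξ' η < En N R I ξ η := by
    unfold En
    refine Finset.sum_lt_sum (fun e _ => ?_) ⟨s, Finset.mem_union_left _ hs, ?_⟩
    · refine Nat.pow_le_pow_left ?_ 2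
      by_cases hes : e = s
      · subst hes
        simp only [df, hξ', if_pos hs, if_true]
        omega
      · simp only [df, hξ', if_neg hes]
        exact le_rfl
    · refine Nat.pow_lt_pow_left ?_ two_ne_zero
      simp only [df, hξ', if_pos hs, if_true] at hd ⊢
      omega
  exact absurd (h.min _ _ hcfg) (not_le.2 hlt)

open Classical in
theorem step2 {N : ℤ} {M₁ M₂ : Matroid α} {R I : Finset α} {ξ η : α → ℤ}
    (h : Opt N M₁ M₂ R I ξ η) {s t : α} (hs : s ∈ R) (hd : 1 ≤ df N R ξ η s)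
    (ht : t ∈ I) (hst : ξ t = ξ s) (hcl : s ∉ M₁.closure (L R I ξ (ξ s) \ {t})) :
    df N R ξ η s ≤ df N R ξ η t + 1 := by
  have hsE : s ∈ M₁.E := h.cfg.indepR.subset_ground hs
  have hsI : s ∉ I := Finset.disjoint_left.1 h.dis hs
  have htR : t ∉ R := Finset.disjoint_right.1 h.dis ht
  have hts : t ≠ s := fun h' => hsI (h' ▸ ht)
  have hsL : s ∉ L R I ξ (ξ s) \ {t} := by
    rintro ⟨(⟨_, h'⟩ | ⟨h', _⟩), _⟩
    · omega
    · exact hsI h'
  have hins : M₁.Indep (insert s (L R I ξ (ξ s) \ {t})) :=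
    (((h.cfg.l1 _).subset sdiff_subset).insert_indep_iff_of_notMem hsL).2 ⟨hsE, hcl⟩
  set ξ' : α → ℤ := fun e => if e = s ∨ e = t then ξ s + 1 else ξ e with hξ'
  have hcfg : Cfg M₁ M₂ R I ξ' η := by
    refine ⟨fun x => ?_, h.cfg.l2⟩
    by_cases hx : x = ξ s
    · refine hins.subset ?_
      rintro e (⟨he, he'⟩ | ⟨he, he'⟩)
      · by_cases hes : e = s
        · exact Or.inl hes
        · have het : e ≠ t := fun h' => htR (h' ▸ he)
          refine Or.inr ⟨Or.inl ⟨he, ?_⟩, het⟩
          simp only [hξ', hes, het, or_self, if_false] at he'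
          omega
      · have hes : e ≠ s := fun h' => hsI (h' ▸ he)
        by_cases het : e = t
        · exfalso
          simp only [hξ', het, or_true, if_true] at he'
          omega
        · refine Or.inr ⟨Or.inr ⟨he, ?_⟩, het⟩
          simp only [hξ', hes, het, or_self, if_false] at he'
          omega
    · refine (h.cfg.l1 x).subset ?_
      rintro e (⟨he, he'⟩ | ⟨he, he'⟩)
      · refine Or.inl ⟨he, ?_⟩
        have het : e ≠ t := fun h' => htR (h' ▸ he)
        by_cases hes : e = s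
        · subst hes
          simp only [hξ', true_or, if_true] at he'
          omega
        · simp only [hξ', hes, het, or_self, if_false] at he'
          exact he'
      · have hes : e ≠ s := fun h' => hsI (h' ▸ he)
        refine Or.inr ⟨he, ?_⟩
        by_cases het : e = t
        · subst het
          simp only [hξ', or_true, if_true] at he'
          omega
        · simp only [hξ', hes, het, or_self, if_false] at he'
          exact he'
  have hle := h.min _ _ hcfg
  have hsU : s ∈ R ∪ I := Finset.mem_union_left _ hs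
  have htU : t ∈ (R ∪ I).erase s := Finset.mem_erase.2 ⟨hts, Finset.mem_union_right _ ht⟩
  unfold En at hle
  rw [← Finset.add_sum_erase _ _ hsU, ← Finset.add_sum_erase _ _ hsU,
    ← Finset.add_sum_erase _ _ htU, ← Finset.add_sum_erase _ _ htU] at hle
  have hrest : ∑ e ∈ ((R ∪ I).erase s).erase t, (df N R ξ' η e) ^ 2 =
      ∑ e ∈ ((R ∪ I).erase s).erase t, (df N R ξ η e) ^ 2 := by
    refine Finset.sum_congr rfl fun e he => ?_
    have het : e ≠ t := (Finset.mem_erase.1 he).1
    have hes : e ≠ s := (Finset.mem_erase.1 (Finset.mem_erase.1 he).2).1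
    simp only [df, hξ', hes, het, or_self, if_false]
  rw [hrest] at hle
  have h1 : df N R ξ' η s + 1 = df N R ξ η s := by
    simp only [df, hξ', if_pos hs, true_or, if_true] at hd ⊢
    omega
  have h2 : df N R ξ' η t ≤ df N R ξ η t + 1 := by
    simp only [df, hξ', if_neg htR, or_true, if_true]
    omega
  by_contra hlt
  push Not at hlt
  have h3 : (df N R ξ' η t) ^ 2 ≤ (df N R ξ η t + 1) ^ 2 := Nat.pow_le_pow_left h2 2
  rw [← h1] at hle hlt
  nlinarith

/-- Below a gap of the shortages the closure does not need the low elements entering at that time. -/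
theorem step3 {N : ℤ} {M₁ M₂ : Matroid α} {R I : Finset α} {ξ η : α → ℤ}
    (h : Opt N M₁ M₂ R I ξ η) {m : ℕ} (hm : 1 ≤ m)
    (hgap : ∀ e, e ∈ R ∨ e ∈ I → df N R ξ η e ≠ m - 1)
    {s : α} (hs : s ∈ R) (hd : m ≤ df N R ξ η s) :
    s ∈ M₁.closure (L R I ξ (ξ s) \ {t | t ∈ I ∧ df N R ξ η t < m ∧ ξ t = ξ s}) := by
  classical
  have key : ∀ T : Finset α, (∀ t ∈ T, t ∈ I ∧ df N R ξ η t < m ∧ ξ t = ξ s) →
      s ∈ M₁.closure (L R I ξ (ξ s) \ (T : Set α)) := by
    intro T
    induction T using Finset.induction_on with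
    | empty =>
      intro _
      simpa using step1 h hs (hm.trans hd)
    | insert t T htT ih =>
      intro hT
      have h1 := ih fun t' ht' => hT t' (Finset.mem_insert_of_mem ht')
      obtain ⟨htI, htd, htx⟩ := hT t (Finset.mem_insert_self _ _)
      have h2 : s ∈ M₁.closure (L R I ξ (ξ s) \ {t}) := by
        by_contra hcl
        have := step2 h hs (hm.trans hd) htI htx hcl
        have := hgap t (Or.inr htI)
        omega
      have h3 : M₁.Indep ((L R I ξ (ξ s) \ (T : Set α)) ∪ (L R I ξ (ξ s) \ {t})) :=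
        (h.cfg.l1 (ξ s)).subset (union_subset sdiff_subset sdiff_subset)
      have h4 : s ∈ M₁.closure ((L R I ξ (ξ s) \ (T : Set α)) ∩ (L R I ξ (ξ s) \ {t})) := by
        rw [h3.closure_inter_eq_inter_closure]
        exact ⟨h1, h2⟩
      refine M₁.closure_subset_closure ?_ h4
      rintro e ⟨⟨he, he1⟩, _, he2⟩
      refine ⟨he, ?_⟩
      rw [Finset.coe_insert]
      rintro (he3 | he3)
      · exact he2 he3
      · exact he1 he3
  have := key (I.filter fun t => df N R ξ η t < m ∧ ξ t = ξ s) fun t ht => by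
    simpa using ht
  refine M₁.closure_subset_closure ?_ this
  rintro e ⟨he, he1⟩
  refine ⟨he, fun he2 => he1 ?_⟩
  simpa using he2

end Pool.Agent.Lib.MP_2c7063_coS
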