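import Pool.Agent.Lib.MP_2c7063_coS.Trunc

/-!
# Extending a good order of the largest tight set
-/

namespace Pool.Agent.Lib.MP_2c7063_coS

open Set
open scoped Matroid

variable {α : Type*}

/-- If `J` is independent and spanned by `G`, `G ∪ T` is independent, `T` finite and disjoint from
`G`, then `J ∪ T` is independent. -/
theorem indep_union_of' {M : Matroid α} {J G T : Set α} (hJ : M.Indep J) (hJG : J ⊆ M.closure G)
    (hT : T.Finite) (hd : Disjoint G T) (hGT : M.Indep (G ∪ T)) : M.Indep (J ∪ T) := by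
  obtain ⟨T, rfl⟩ := hT.exists_finset_coe
  exact indep_union_of hJ hJG T hd hGT

/-- Glue two sequences. -/
def glue (k : ℕ) (x₀ x' : ℕ → α) (i : ℕ) : α := if i < k then x₀ i else x' (i - k)

theorem glue_low {k : ℕ} {x₀ x' : ℕ → α} {i : ℕ} (h : i ≤ k) :
    glue k x₀ x' '' Iio i = x₀ '' Iio i := by
  refine image_congr fun j hj => ?_
  exact if_pos (lt_of_lt_of_le hj h)

theorem glue_high {k : ℕ} {x₀ x' : ℕ → α} {j : ℕ} :
    glue k x₀ x' '' Iio (k + j) = x₀ '' Iio k ∪ x' '' Iio j := by
  ext e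
  constructor
  · rintro ⟨i, hi, rfl⟩
    by_cases hik : i < k
    · exact Or.inl ⟨i, hik, (if_pos hik).symm⟩
    · refine Or.inr ⟨i - k, ?_, (if_neg hik).symm⟩
      simp only [mem_Iio] at hi ⊢
      omega
  · rintro (⟨i, hi, rfl⟩ | ⟨i, hi, rfl⟩)
    · exact ⟨i, lt_of_lt_of_le hi (Nat.le_add_right k j), if_pos hi⟩
    · refine ⟨k + i, ?_, ?_⟩
      · simp only [mem_Iio] at hi ⊢
        omega
      · have h1 : ¬ (k + i < k) := by omega
        have h2 : k + i - k = i := by omega
        simp only [glue, if_neg h1, h2]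

theorem glue_injOn {k n r : ℕ} (hr : r = k + n) {x₀ x' : ℕ → α} (h0 : InjOn x₀ (Iio k))
    (h1 : InjOn x' (Iio n)) (hd : Disjoint (x₀ '' Iio k) (x' '' Iio n)) :
    InjOn (glue k x₀ x') (Iio r) := by
  intro i hi j hj hij
  simp only [mem_Iio] at hi hj
  unfold glue at hij
  by_cases hik : i < k
  · by_cases hjk : j < k
    · rw [if_pos hik, if_pos hjk] at hij
      exact h0 hik hjk hij
    · rw [if_pos hik, if_neg hjk] at hij
      exact absurd ⟨j - k, by simp only [mem_Iio]; omega, hij.symm⟩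
        (disjoint_left.1 hd ⟨i, hik, rfl⟩)
  · by_cases hjk : j < k
    · rw [if_neg hik, if_pos hjk] at hij
      exact absurd ⟨i - k, by simp only [mem_Iio]; omega, hij⟩
        (disjoint_left.1 hd ⟨j, hjk, rfl⟩)
    · rw [if_neg hik, if_neg hjk] at hij
      have := h1 (show i - k ∈ Iio n by simp only [mem_Iio]; omega)
        (show j - k ∈ Iio n by simp only [mem_Iio]; omega) hij
      omega

theorem eRk_contract {N : Matroid α} {P A : Set α} (hP : N.Indep P) (hA : A ⊆ (N ／ P).E) :
    N.eRk (A ∪ P) = (N ／ P).eRk A + P.encard := by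
  obtain ⟨D, hD⟩ := (N ／ P).exists_isBasis A
  have h1 := hP.union_isBasis_union_of_contract_isBasis hD
  rw [← h1.encard_eq_eRk, ← hD.encard_eq_eRk]
  exact encard_union_eq ((hP.contract_indep_iff.1 hD.indep).1)

theorem eRk_union_tight {N : Matroid α} {P Q A : Set α} (hPQ : Q ⊆ N.closure P) :
    N.eRk (A ∪ P ∪ Q) = N.eRk (A ∪ P) := by
  refine le_antisymm ?_ (N.eRk_mono subset_union_left)
  rw [← N.eRk_closure_eq (A ∪ P), ← N.eRk_inter_ground (A ∪ P ∪ Q)]
  refine N.eRk_mono ?_
  rintro e ⟨he | he, heE⟩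
  · exact N.mem_closure_of_mem' he heE
  · exact N.closure_subset_closure subset_union_right (hPQ he)

theorem closureThm [Nonempty α] {N M : Matroid α} {B B' P Q : Set α} {r k : ℕ}
    (hNM : ∀ J, N.Indep J → J.encard ≤ r → M.Indep J) (hMr : M.eRank ≤ r)
    (hB : N.Indep B) (hB' : N.Indep B') (hd : Disjoint B B') (hr : B.encard = r)
    (hr' : B'.encard = r) (hP : P ⊆ B) (hQ : Q ⊆ B') (hk : P.encard = k) (hk' : Q.encard = k)
    (hQP : Q ⊆ N.closure P) (hPQ : P ⊆ N.closure Q) (hQPM : Q ⊆ M.closure P)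
    (hmax : ∀ A ⊆ B ∪ B', A.encard = 2 * N.eRk A → A.encard = 2 * M.eRk A → A ⊆ P ∪ Q)
    (x₀ y₀ : ℕ → α) (hx₀ : InjOn x₀ (Iio k)) (hy₀ : InjOn y₀ (Iio k)) (hx₀P : x₀ '' Iio k = P)
    (hy₀Q : y₀ '' Iio k = Q)
    (hW₀ : ∀ i ≤ k, N.Indep ((P \ x₀ '' Iio i) ∪ y₀ '' Iio i) ∧
      N.Indep ((Q \ y₀ '' Iio i) ∪ x₀ '' Iio i)) :
    ∃ x y : ℕ → α, InjOn x (Iio r) ∧ x '' Iio r = B ∧ InjOn y (Iio r) ∧ y '' Iio r = B' ∧
      (∀ j < k, x j = x₀ j ∧ y j = y₀ j) ∧
      (∀ i ≤ r, N.Indep ((B \ x '' Iio i) ∪ y '' Iio i) ∧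
        M.Indep ((B' \ y '' Iio i) ∪ x '' Iio i)) ∧
      (∀ i, k ≤ i → i < r → N.Indep ((B \ x '' Iio i) ∪ y '' Iio (i + 1))) := by
  have hBf : B.Finite := finite_of_encard_eq_coe hr
  have hBf' : B'.Finite := finite_of_encard_eq_coe hr'
  have hPI : N.Indep P := hB.subset hP
  have hQI : N.Indep Q := hB'.subset hQ
  have hkr : k ≤ r := by
    have := encard_le_encard hP
    rw [hk, hr] at this
    exact_mod_cast this
  have hPIM : M.Indep P := hNM P hPI (by rw [hk]; exact_mod_cast hkr)
  have hBM : M.Indep B := hNM B hB hr.le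
  set X := B \ P with hX
  set Y := B' \ Q with hY
  obtain ⟨n, rfl⟩ : ∃ n, r = k + n := ⟨r - k, by omega⟩
  have hXn : X.encard = n := by
    have := encard_sdiff_add_encard_of_subset hP
    rw [hk, hr] at this
    obtain ⟨c, hc⟩ := ENat.ne_top_iff_exists.1 (hBf.subset (sdiff_subset (t := P))).encard_lt_top.ne
    rw [← hc] at this
    rw [hX, ← hc]
    have h2 : c + k = k + n := by exact_mod_cast this
    have h3 : c = n := by omega
    rw [h3]
  have hYn : Y.encard = n := by
    have := encard_sdiff_add_encard_of_subset hQ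
    rw [hk', hr'] at this
    obtain ⟨c, hc⟩ := ENat.ne_top_iff_exists.1 (hBf'.subset (sdiff_subset (t := Q))).encard_lt_top.ne
    rw [← hc] at this
    rw [hY, ← hc]
    have h2 : c + k = k + n := by exact_mod_cast this
    have h3 : c = n := by omega
    rw [h3]
  have hXf : X.Finite := finite_of_encard_eq_coe hXn
  have hYf : Y.Finite := finite_of_encard_eq_coe hYn
  have hdPY : Disjoint P Y := (hd.mono_left hP).mono_right sdiff_subset
  have hdXY : Disjoint X Y := (hd.mono_left sdiff_subset).mono_right sdiff_subset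
  have hXP : X ∪ P = B := sdiff_union_of_subset hP
  have hYQ : Y ∪ Q = B' := sdiff_union_of_subset hQ
  -- independence in the contractions
  have hPY : N.Indep (P ∪ Y) := indep_union_of' hPI hPQ hYf disjoint_sdiff_right (by
    rw [union_comm, hYQ]; exact hB')
  have hX1 : (N ／ P).Indep X := hB.diff_indep_contract_of_subset hP
  have hY1 : (N ／ P).Indep Y := hPI.contract_indep_iff.2 ⟨hdPY.symm, by rwa [union_comm]⟩
  have hX2 : (M ／ P).Indep X := hBM.diff_indep_contract_of_subset hP
  have hY2 : (M ／ P).Indep Y := hPIM.contract_indep_iff.2 ⟨hdPY.symm, by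
    rw [union_comm]
    refine hNM _ hPY ?_
    rw [encard_union_eq hdPY, hk, hYn]
    exact_mod_cast le_rfl⟩
  have hMr' : (M ／ P).eRank ≤ n := by
    obtain ⟨D, hD⟩ := (M ／ P).exists_isBase
    rw [← hD.encard_eq_eRank]
    obtain ⟨h1, h2⟩ := hPIM.contract_isBase_iff.1 hD
    have h3 := h1.encard_eq_eRank.le.trans hMr
    rw [encard_union_eq h2, hk] at h3
    have hDf : D.encard ≠ ⊤ := by
      intro h
      rw [h] at h3
      simp at h3
    obtain ⟨c, hc⟩ := ENat.ne_top_iff_exists.1 hDf
    rw [← hc] at h3 ⊢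
    have h4 : c + k ≤ k + n := by exact_mod_cast h3
    have h5 : c ≤ n := by omega
    exact_mod_cast h5
  have hgr1 : X ∪ Y ⊆ (N ／ P).E := union_subset hX1.subset_ground hY1.subset_ground
  have hgr2 : X ∪ Y ⊆ (M ／ P).E := union_subset hX2.subset_ground hY2.subset_ground
  have hdens : ∀ A ⊆ X ∪ Y, A.Nonempty → A.encard = 2 * (N ／ P).eRk A →
      A.encard = 2 * (M ／ P).eRk A → False := by
    intro A hA hne h1 h2
    have hAP : Disjoint A P := by
      refine disjoint_left.2 fun e he heP => ?_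
      rcases hA he with h | h
      · exact h.2 heP
      · exact disjoint_left.1 hdPY heP h
    have hAQ : Disjoint (A ∪ P) Q := by
      refine disjoint_left.2 fun e he heQ => ?_
      rcases he with he | he
      · rcases hA he with h | h
        · exact disjoint_left.1 hd h.1 (hQ heQ)
        · exact h.2 heQ
      · exact disjoint_left.1 hd (hP he) (hQ heQ)
    have hcard : (A ∪ P ∪ Q).encard = A.encard + 2 * k := by
      rw [encard_union_eq hAQ, encard_union_eq hAP, hk, hk', two_mul, add_assoc]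
    have e1 : N.eRk (A ∪ P ∪ Q) = (N ／ P).eRk A + k := by
      rw [eRk_union_tight hQP, eRk_contract hPI (hA.trans hgr1), hk]
    have e2 : M.eRk (A ∪ P ∪ Q) = (M ／ P).eRk A + k := by
      rw [eRk_union_tight hQPM, eRk_contract hPIM (hA.trans hgr2), hk]
    have h3 := hmax (A ∪ P ∪ Q) (by
      rintro e ((he | he) | he)
      · rcases hA he with h | h
        · exact Or.inl h.1
        · exact Or.inr h.1
      · exact Or.inl (hP he)
      · exact Or.inr (hQ he)) (by rw [hcard, e1, mul_add, ← h1]) (by rw [hcard, e2, mul_add, ← h2])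
    obtain ⟨e, he⟩ := hne
    rcases h3 (Or.inl (Or.inl he)) with h | h
    · exact disjoint_left.1 hAP he h
    · exact disjoint_left.1 hAQ (Or.inl he) h
  obtain ⟨x', y', hx', hx'X, hy', hy'Y, hW1, hW2⟩ :=
    irr hX1 hY1 hX2 hY2 hdXY hXn hYn hMr' hdens
  have hxi : ∀ j, j ≤ n → x' '' Iio j ⊆ X := fun j hj => by
    rw [← hx'X]; exact image_mono (Iio_subset_Iio hj)
  have hyi : ∀ j, j ≤ n → y' '' Iio j ⊆ Y := fun j hj => by
    rw [← hy'Y]; exact image_mono (Iio_subset_Iio hj)
  have hx₀i : ∀ j, j ≤ k → x₀ '' Iio j ⊆ P := fun j hj => by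
    rw [← hx₀P]; exact image_mono (Iio_subset_Iio hj)
  have hy₀i : ∀ j, j ≤ k → y₀ '' Iio j ⊆ Q := fun j hj => by
    rw [← hy₀Q]; exact image_mono (Iio_subset_Iio hj)
  have hclP : P ⊆ N.closure P := N.subset_closure P hPI.subset_ground
  have hclQ : Q ⊆ N.closure Q := N.subset_closure Q hQI.subset_ground
  -- a set independent in the contraction can be put on top of `Q` as well
  have hput : ∀ V : Set α, V.Finite → V ⊆ X ∪ Y → (N ／ P).Indep V → N.Indep (Q ∪ V) := by
    intro V hVf hVs hV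
    obtain ⟨h1, h2⟩ := hPI.contract_indep_iff.1 hV
    exact indep_union_of' hQI hQP hVf h1.symm (by rwa [union_comm])
  refine ⟨glue k x₀ x', glue k y₀ y', ?_, ?_, ?_, ?_, ?_, ?_, ?_⟩
  · refine glue_injOn rfl hx₀ hx' ?_
    rw [hx₀P, hx'X]
    exact disjoint_sdiff_right
  · rw [glue_high, hx₀P, hx'X, union_comm, hXP]
  · refine glue_injOn rfl hy₀ hy' ?_
    rw [hy₀Q, hy'Y]
    exact disjoint_sdiff_right
  · rw [glue_high, hy₀Q, hy'Y, union_comm, hYQ]
  · intro j hj
    exact ⟨if_pos hj, if_pos hj⟩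
  · intro i hi
    rcases le_total i k with hik | hik
    · rw [glue_low hik, glue_low hik]
      constructor
      · have h1 : (B \ x₀ '' Iio i) ∪ y₀ '' Iio i = ((P \ x₀ '' Iio i) ∪ y₀ '' Iio i) ∪ X := by
          ext e
          have a1 : e ∈ x₀ '' Iio i → e ∈ P := fun h => hx₀i i hik h
          have a2 : e ∈ P → e ∈ B := fun h => hP h
          simp only [hX, mem_union, mem_sdiff]
          tauto
        rw [h1]
        refine indep_union_of' (hW₀ i hik).1 (G := P) ?_ hXf disjoint_sdiff_right (by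
          rw [union_comm, hXP]; exact hB)
        exact union_subset (sdiff_subset.trans hclP) ((hy₀i i hik).trans hQP)
      · have h1 : (B' \ y₀ '' Iio i) ∪ x₀ '' Iio i = ((Q \ y₀ '' Iio i) ∪ x₀ '' Iio i) ∪ Y := by
          ext e
          have a1 : e ∈ y₀ '' Iio i → e ∈ Q := fun h => hy₀i i hik h
          have a2 : e ∈ Q → e ∈ B' := fun h => hQ h
          simp only [hY, mem_union, mem_sdiff]
          tauto
        refine hNM _ ?_ ?_
        · rw [h1]
          refine indep_union_of' (hW₀ i hik).2 (G := Q) ?_ hYf disjoint_sdiff_right (by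
            rw [union_comm, hYQ]; exact hB')
          exact union_subset (sdiff_subset.trans hclQ) ((hx₀i i hik).trans hPQ)
        · have e1 : (y₀ '' Iio i).encard = i := by
            rw [(hy₀.mono (Iio_subset_Iio hik)).encard_image, ← Finset.coe_Iio,
              encard_coe_eq_coe_finsetCard, Nat.card_Iio]
          have e2 : (x₀ '' Iio i).encard = i := by
            rw [(hx₀.mono (Iio_subset_Iio hik)).encard_image, ← Finset.coe_Iio,
              encard_coe_eq_coe_finsetCard, Nat.card_Iio]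
          have e3 := encard_sdiff_add_encard_of_subset ((hy₀i i hik).trans hQ)
          rw [e1, hr'] at e3
          calc ((B' \ y₀ '' Iio i) ∪ x₀ '' Iio i).encard
              ≤ (B' \ y₀ '' Iio i).encard + (x₀ '' Iio i).encard := encard_union_le _ _
            _ = ((k + n : ℕ) : ℕ∞) := by rw [e2, e3]
    · obtain ⟨j, rfl⟩ : ∃ j, i = k + j := ⟨i - k, by omega⟩
      have hj : j ≤ n := by omega
      rw [glue_high, glue_high, hx₀P, hy₀Q]
      constructor
      · have h1 : (B \ (P ∪ x' '' Iio j)) ∪ (Q ∪ y' '' Iio j) =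
            Q ∪ ((X \ x' '' Iio j) ∪ y' '' Iio j) := by
          ext e
          simp only [hX, mem_union, mem_sdiff]
          tauto
        rw [h1]
        refine hput _ ?_ ?_ ?_
        · exact (hXf.subset sdiff_subset).union (hYf.subset (hyi _ hj))
        · exact union_subset (sdiff_subset.trans subset_union_left)
            ((hyi _ hj).trans subset_union_right)
        · rcases hj.lt_or_eq with hj' | rfl
          · exact (hW1 j hj').subset (union_subset_union_right _
              (image_mono (Iio_subset_Iio (Nat.le_succ j))))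
          · rw [hx'X, hy'Y, Set.sdiff_self]
            simpa using hY1
      · have h1 : (B' \ (Q ∪ y' '' Iio j)) ∪ (P ∪ x' '' Iio j) =
            ((Y \ y' '' Iio j) ∪ x' '' Iio j) ∪ P := by
          ext e
          simp only [hY, mem_union, mem_sdiff]
          tauto
        rw [h1]
        exact (hPIM.contract_indep_iff.1 (hW2 j hj)).2
  · intro i hik hir
    obtain ⟨j, rfl⟩ : ∃ j, i = k + j := ⟨i - k, by omega⟩
    have hj : j < n := by omega
    rw [glue_high, add_assoc, glue_high, hx₀P, hy₀Q]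
    have h1 : (B \ (P ∪ x' '' Iio j)) ∪ (Q ∪ y' '' Iio (j + 1)) =
        Q ∪ ((X \ x' '' Iio j) ∪ y' '' Iio (j + 1)) := by
      ext e
      simp only [hX, mem_union, mem_sdiff]
      tauto
    rw [h1]
    refine hput _ ?_ ?_ (hW1 j hj)
    · exact (hXf.subset sdiff_subset).union (hYf.subset (hyi _ hj))
    · exact union_subset (sdiff_subset.trans subset_union_left) ((hyi _ hj).trans subset_union_right)

end Pool.Agent.Lib.MP_2c7063_coS
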