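import Pool.Agent.Lib.MP_2c7063_coS.Order

/-!
# Extraction of two chains
-/

namespace Pool.Agent.Lib.MP_2c7063_coS

open Set

variable {α : Type*}

/-- Two chains of sets. -/
theorem extract {M₁ M₂ : Matroid α} {R I : Finset α} {ξ η : α → ℤ} {r : ℕ}
    (h : Cfg M₁ M₂ R I ξ η) (hd : Disjoint R I) (hs : ∀ s ∈ R, η s < ξ s)
    (ht : ∀ t ∈ I, ξ t < η t) (hR : R.card = r) (hI : I.card + 1 = r)
    (h1 : M₁.eRank ≤ r) (h2 : M₂.eRank ≤ r) :
    ∃ S T : ℕ → Finset α, (∀ m ≤ r, S m ⊆ R ∧ (S m).card = m) ∧ (∀ m < r, S m ⊆ S (m + 1)) ∧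
      (∀ m < r, T m ⊆ I ∧ (T m).card = m) ∧ (∀ m, m + 1 < r → T m ⊆ T (m + 1)) ∧
      ∀ m < r, M₁.Indep (((R : Set α) \ S m) ∪ T m) ∧
        M₂.Indep (((I : Set α) \ T m) ∪ S (m + 1)) := by
  classical
  -- the inequalities for the counting functions
  have ha : ∀ x, cnt I ξ x ≤ cnt R ξ x := fun x => by
    have := card_L hd (h.l1 x) h1
    omega
  have hb : ∀ x, cnt R η x ≤ cnt I η x + 1 := fun x => by
    have := card_L hd.symm (h.l2 x) h2
    omega
  have hcsub : ∀ x, (R.filter fun e => ξ e ≤ x) ⊆ (R.filter fun e => η e ≤ x - 1) := by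
    intro x e he
    rw [Finset.mem_filter] at he ⊢
    have := hs e he.1
    exact ⟨he.1, by omega⟩
  have hc : ∀ x, cnt R ξ x ≤ cnt R η (x - 1) := fun x => Finset.card_le_card (hcsub x)
  have hesub : ∀ x, (I.filter fun e => η e ≤ x) ⊆ (I.filter fun e => ξ e ≤ x - 1) := by
    intro x e he
    rw [Finset.mem_filter] at he ⊢
    have := ht e he.1
    exact ⟨he.1, by omega⟩
  have he : ∀ x, cnt I η x ≤ cnt I ξ (x - 1) := fun x => Finset.card_le_card (hesub x)
  -- the times
  have hx : ∀ m : ℕ, ∃ x : ℤ, m < r → (m + 1 ≤ cnt R ξ x ∧ ∀ z, m + 1 ≤ cnt R ξ z → x ≤ z) := by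
    intro m
    by_cases hm : m < r
    · obtain ⟨a, ha'⟩ : ∃ b : ℤ, ∀ e ∈ R, ξ e ≤ b := by
        obtain ⟨b, hb⟩ := (R.image ξ).bddAbove
        exact ⟨b, fun e he => hb (Finset.mem_coe.2 (Finset.mem_image_of_mem ξ he))⟩
      obtain ⟨b, hb'⟩ : ∃ b : ℤ, ∀ e ∈ R, b ≤ ξ e := by
        obtain ⟨b, hb⟩ := (R.image ξ).bddBelow
        exact ⟨b, fun e he => hb (Finset.mem_coe.2 (Finset.mem_image_of_mem ξ he))⟩
      obtain ⟨x, hx1, hx2⟩ := Int.exists_least_of_bdd (P := fun z => m + 1 ≤ cnt R ξ z)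
        ⟨b, fun z hz => by
          have : 0 < cnt R ξ z := by omega
          obtain ⟨e, he⟩ := Finset.card_pos.1 this
          rw [Finset.mem_filter] at he
          exact (hb' e he.1).trans he.2⟩
        ⟨a, by
          have : (R.filter fun e => ξ e ≤ a) = R :=
            Finset.filter_true_of_mem ha'
          simp only [cnt, this, hR]
          omega⟩
      exact ⟨x, fun _ => ⟨hx1, hx2⟩⟩
    · exact ⟨0, fun h' => absurd h' hm⟩
  choose x hx using hx
  have hval : ∀ m < r, cnt R ξ (x m) = m + 1 ∧ cnt R ξ (x m - 1) = m ∧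
      cnt R η (x m - 1) = m + 1 ∧ cnt I η (x m - 1) = m ∧ cnt I ξ (x m - 1) = m := by
    intro m hm
    obtain ⟨hx1, hx2⟩ := hx m hm
    have hx3 : cnt R ξ (x m - 1) ≤ m := by
      by_contra hcon
      have := hx2 (x m - 1) (by omega)
      omega
    have i1 := hc (x m)
    have i2 := hb (x m - 1)
    have i3 := he (x m - 1)
    have i4 := ha (x m - 1 - 1)
    have i5 := cnt_mono R ξ (show x m - 1 - 1 ≤ x m - 1 by omega)
    have i6 := cnt_mono I ξ (show x m - 1 - 1 ≤ x m - 1 by omega)
    have i7 := ha (x m - 1)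
    omega
  have hlt : ∀ m, m + 1 < r → x m ≤ x (m + 1) - 1 := by
    intro m hm
    have h3 := (hval m (by omega)).1
    have h4 := (hval (m + 1) hm).1
    by_contra hcon
    have := cnt_mono R ξ (show x (m + 1) ≤ x m by omega)
    omega
  set S : ℕ → Finset α := fun m => if m < r then R.filter fun e => ξ e ≤ x m - 1 else R with hS
  set T : ℕ → Finset α := fun m => I.filter fun e => ξ e ≤ x m - 1 with hT
  have hSlt : ∀ m, m < r → S m = R.filter fun e => ξ e ≤ x m - 1 := fun m hm => if_pos hm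
  have hSr : S r = R := if_neg (lt_irrefl r)
  have hSR : ∀ m, S m ⊆ R := by
    intro m
    by_cases hm : m < r
    · rw [hSlt m hm]; exact Finset.filter_subset _ _
    · simp only [hS, if_neg hm]; exact Finset.Subset.refl _
  have hScard : ∀ m ≤ r, (S m).card = m := by
    intro m hm
    rcases hm.lt_or_eq with hm | rfl
    · rw [hSlt m hm]; exact (hval m hm).2.1
    · rw [hSr]; exact hR
  -- the next set of the first chain
  have hnext : ∀ m < r, (R.filter fun e => ξ e ≤ x m) = S (m + 1) := by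
    intro m hm
    refine Finset.eq_of_subset_of_card_le ?_ ?_
    · by_cases hm' : m + 1 < r
      · rw [hSlt _ hm']
        intro e he
        rw [Finset.mem_filter] at he ⊢
        have := hlt m hm'
        exact ⟨he.1, by omega⟩
      · have : m + 1 = r := by omega
        rw [this, hSr]
        exact Finset.filter_subset _ _
    · rw [hScard (m + 1) hm]
      exact (hval m hm).1.ge
  have hnext2 : ∀ m < r, (R.filter fun e => η e ≤ x m - 1) = S (m + 1) := by
    intro m hm
    rw [← hnext m hm]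
    refine (Finset.eq_of_subset_of_card_le (hcsub (x m)) ?_).symm
    exact ((hval m hm).2.2.1.trans (hval m hm).1.symm).le
  have hTeq : ∀ m < r, (I.filter fun e => η e ≤ x m - 1) = T m := by
    intro m hm
    refine Finset.eq_of_subset_of_card_le ?_ ?_
    · intro e he
      rw [Finset.mem_filter] at he
      have := ht e he.1
      exact Finset.mem_filter.2 ⟨he.1, by omega⟩
    · exact ((hval m hm).2.2.2.2.trans (hval m hm).2.2.2.1.symm).le
  refine ⟨S, T, fun m hm => ⟨hSR m, hScard m hm⟩, fun m hm => ?_,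
    fun m hm => ⟨Finset.filter_subset _ _, (hval m hm).2.2.2.2⟩, fun m hm => ?_, fun m hm => ⟨?_, ?_⟩⟩
  · rw [hSlt m hm, ← hnext m hm]
    intro e he
    rw [Finset.mem_filter] at he ⊢
    exact ⟨he.1, by omega⟩
  · intro e he
    simp only [hT, Finset.mem_filter] at he ⊢
    have := hlt m hm
    exact ⟨he.1, by omega⟩
  · have := h.l1 (x m - 1)
    rw [L_eq, ← hSlt m hm, Finset.coe_union, Finset.coe_sdiff] at this
    exact this
  · have := h.l2 (x m - 1)
    rw [L_eq, hnext2 m hm, hTeq m hm, Finset.coe_union, Finset.coe_sdiff] at this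
    exact this

/-- A chain of sets gives an order. -/
theorem exists_enum [Nonempty α] (S : ℕ → Finset α) (r : ℕ) (hcard : ∀ m ≤ r, (S m).card = m)
    (hmono : ∀ m < r, S m ⊆ S (m + 1)) :
    ∃ x : ℕ → α, InjOn x (Iio r) ∧ ∀ m ≤ r, x '' Iio m = S m := by
  classical
  have hex : ∀ m : ℕ, ∃ e : α, m < r → e ∈ S (m + 1) ∧ e ∉ S m := by
    intro m
    by_cases hm : m < r
    · obtain ⟨e, he⟩ := Finset.exists_mem_notMem_of_card_lt_card
        (show (S m).card < (S (m + 1)).card by rw [hcard m hm.le, hcard (m + 1) hm]; omega)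
      exact ⟨e, fun _ => he⟩
    · exact ⟨Classical.arbitrary α, fun h => absurd h hm⟩
  choose x hx using hex
  have himg : ∀ m ≤ r, x '' Iio m = S m := by
    intro m
    induction m with
    | zero =>
      intro _
      have : S 0 = ∅ := Finset.card_eq_zero.1 (hcard 0 (Nat.zero_le _))
      rw [this]; simp
    | succ m ih =>
      intro hm
      have h1 := ih (by omega)
      have h2 : Iio (m + 1) = insert m (Iio m) := by
        ext k; simp only [mem_Iio, mem_insert_iff]; omega
      rw [h2, image_insert_eq, h1, ← Finset.coe_insert, Finset.coe_inj]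
      refine Finset.eq_of_subset_of_card_le ?_ ?_
      · exact Finset.insert_subset (hx m hm).1 (hmono m hm)
      · rw [Finset.card_insert_of_notMem (hx m hm).2, hcard m (by omega), hcard (m + 1) hm]
  refine ⟨x, ?_, himg⟩
  have key : ∀ i j, i < j → j < r → x i ≠ x j := by
    intro i j hij hj heq
    have h1 : x i ∈ x '' Iio j := ⟨i, hij, rfl⟩
    rw [himg j hj.le] at h1
    exact (hx j hj).2 (heq ▸ h1)
  intro i hi j hj heq
  rcases lt_trichotomy i j with h | h | h
  · exact absurd heq (key i j h hj)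
  · exact h
  · exact absurd heq.symm (key j i h hi)

end Pool.Agent.Lib.MP_2c7063_coS
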