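import Pool.Agent.Lib.MP_2c7063_coS.Main

/-!
# The second extraction

`|R| = |I| = n`, the first matroid has rank at most `n + 1`, the second one rank at most `n`.
-/

namespace Pool.Agent.Lib.MP_2c7063_coS

open Set

variable {α : Type*}

/-- Two chains of sets. -/
theorem extract2 {M₁ M₂ : Matroid α} {R I : Finset α} {ξ η : α → ℤ} {n : ℕ}
    (h : Cfg M₁ M₂ R I ξ η) (hd : Disjoint R I) (hs : ∀ s ∈ R, η s < ξ s)
    (ht : ∀ t ∈ I, ξ t < η t) (hR : R.card = n) (hI : I.card = n)
    (h1 : M₁.eRank ≤ (n + 1 : ℕ)) (h2 : M₂.eRank ≤ n) :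
    ∃ S T : ℕ → Finset α, (∀ m ≤ n, S m ⊆ R ∧ (S m).card = m) ∧ (∀ m < n, S m ⊆ S (m + 1)) ∧
      (∀ m ≤ n, T m ⊆ I ∧ (T m).card = m) ∧ (∀ m < n, T m ⊆ T (m + 1)) ∧
      (∀ m < n, M₁.Indep (((R : Set α) \ S m) ∪ T (m + 1))) ∧
      (∀ m < n, M₂.Indep (((I : Set α) \ T (m + 1)) ∪ S (m + 1))) := by
  classical
  -- the inequalities for the counting functions
  have ha : ∀ x, cnt I ξ x ≤ cnt R ξ x + 1 := fun x => by
    have := card_L hd (h.l1 x) h1
    omega
  have hb : ∀ x, cnt R η x ≤ cnt I η x := fun x => by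
    have := card_L hd.symm (h.l2 x) h2
    omega
  have hcsub : ∀ x, (R.filter fun e => ξ e ≤ x) ⊆ (R.filter fun e => η e ≤ x - 1) := by
    intro x e he
    rw [Finset.mem_filter] at he ⊢
    have := hs e he.1
    exact ⟨he.1, by omega⟩
  have hc : ∀ x, cnt R ξ x ≤ cnt R η (x - 1) := fun x => Finset.card_le_card (hcsub x)
  have hesub : ∀ x, (I.filter fun e => η e ≤ x) ⊆ (I.filter fun e => ξ e ≤ x - 1) := by
    intro x e he
    rw [Finset.mem_filter] at he ⊢
    have := ht e he.1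
    exact ⟨he.1, by omega⟩
  have he : ∀ x, cnt I η x ≤ cnt I ξ (x - 1) := fun x => Finset.card_le_card (hesub x)
  -- the times
  have hx : ∀ m : ℕ, ∃ x : ℤ, m < n → (m + 1 ≤ cnt R ξ x ∧ ∀ z, m + 1 ≤ cnt R ξ z → x ≤ z) := by
    intro m
    by_cases hm : m < n
    · obtain ⟨a, ha'⟩ : ∃ b : ℤ, ∀ e ∈ R, ξ e ≤ b := by
        obtain ⟨b, hb⟩ := (R.image ξ).bddAbove
        exact ⟨b, fun e he => hb (Finset.mem_coe.2 (Finset.mem_image_of_mem ξ he))⟩
      obtain ⟨b, hb'⟩ : ∃ b : ℤ, ∀ e ∈ R, b ≤ ξ e := by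
        obtain ⟨b, hb⟩ := (R.image ξ).bddBelow
        exact ⟨b, fun e he => hb (Finset.mem_coe.2 (Finset.mem_image_of_mem ξ he))⟩
      obtain ⟨x, hx1, hx2⟩ := Int.exists_least_of_bdd (P := fun z => m + 1 ≤ cnt R ξ z)
        ⟨b, fun z hz => by
          have : 0 < cnt R ξ z := by omega
          obtain ⟨e, he⟩ := Finset.card_pos.1 this
          rw [Finset.mem_filter] at he
          exact (hb' e he.1).trans he.2⟩
        ⟨a, by
          have : (R.filter fun e => ξ e ≤ a) = R :=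
            Finset.filter_true_of_mem ha'
          simp only [cnt, this, hR]
          omega⟩
      exact ⟨x, fun _ => ⟨hx1, hx2⟩⟩
    · exact ⟨0, fun h' => absurd h' hm⟩
  choose x hx using hx
  have hval : ∀ m < n, cnt R ξ (x m) = m + 1 ∧ cnt R ξ (x m - 1) = m ∧
      cnt R η (x m - 1) = m + 1 ∧ cnt I η (x m - 1) = m + 1 ∧ cnt I ξ (x m - 1) = m + 1 := by
    intro m hm
    obtain ⟨hx1, hx2⟩ := hx m hm
    have hx3 : cnt R ξ (x m - 1) ≤ m := by
      by_contra hcon
      have := hx2 (x m - 1) (by omega)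
      omega
    have i1 := hc (x m)
    have i2 := hb (x m - 1)
    have i3 := he (x m - 1)
    have i4 := ha (x m - 1 - 1)
    have i5 := cnt_mono R ξ (show x m - 1 - 1 ≤ x m - 1 by omega)
    have i6 := cnt_mono I ξ (show x m - 1 - 1 ≤ x m - 1 by omega)
    have i7 := ha (x m - 1)
    omega
  have hlt : ∀ m, m + 1 < n → x m ≤ x (m + 1) - 1 := by
    intro m hm
    have h3 := (hval m (by omega)).1
    have h4 := (hval (m + 1) hm).1
    by_contra hcon
    have := cnt_mono R ξ (show x (m + 1) ≤ x m by omega)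
    omega
  set S : ℕ → Finset α := fun m => if m < n then R.filter fun e => ξ e ≤ x m - 1 else R with hS
  set T : ℕ → Finset α := fun m => if m = 0 then ∅ else I.filter fun e => ξ e ≤ x (m - 1) - 1
    with hT
  have hSlt : ∀ m, m < n → S m = R.filter fun e => ξ e ≤ x m - 1 := fun m hm => if_pos hm
  have hSr : S n = R := if_neg (lt_irrefl n)
  have hT0 : T 0 = ∅ := if_pos rfl
  have hTs : ∀ m, T (m + 1) = I.filter fun e => ξ e ≤ x m - 1 := fun m => by
    simp only [hT, Nat.succ_ne_zero, if_false, Nat.add_sub_cancel]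
  have hSR : ∀ m, S m ⊆ R := by
    intro m
    by_cases hm : m < n
    · rw [hSlt m hm]; exact Finset.filter_subset _ _
    · simp only [hS, if_neg hm]; exact Finset.Subset.refl _
  have hScard : ∀ m ≤ n, (S m).card = m := by
    intro m hm
    rcases hm.lt_or_eq with hm | rfl
    · rw [hSlt m hm]; exact (hval m hm).2.1
    · rw [hSr]; exact hR
  have hnext : ∀ m < n, (R.filter fun e => ξ e ≤ x m) = S (m + 1) := by
    intro m hm
    refine Finset.eq_of_subset_of_card_le ?_ ?_
    · by_cases hm' : m + 1 < n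
      · rw [hSlt _ hm']
        intro e he
        rw [Finset.mem_filter] at he ⊢
        have := hlt m hm'
        exact ⟨he.1, by omega⟩
      · have : m + 1 = n := by omega
        rw [this, hSr]
        exact Finset.filter_subset _ _
    · rw [hScard (m + 1) hm]
      exact (hval m hm).1.ge
  have hnext2 : ∀ m < n, (R.filter fun e => η e ≤ x m - 1) = S (m + 1) := by
    intro m hm
    rw [← hnext m hm]
    refine (Finset.eq_of_subset_of_card_le (hcsub (x m)) ?_).symm
    exact ((hval m hm).2.2.1.trans (hval m hm).1.symm).le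
  have hTeq : ∀ m < n, (I.filter fun e => η e ≤ x m - 1) = T (m + 1) := by
    intro m hm
    rw [hTs]
    refine Finset.eq_of_subset_of_card_le ?_ ?_
    · intro e he
      rw [Finset.mem_filter] at he
      have := ht e he.1
      exact Finset.mem_filter.2 ⟨he.1, by omega⟩
    · exact ((hval m hm).2.2.2.2.trans (hval m hm).2.2.2.1.symm).le
  refine ⟨S, T, fun m hm => ⟨hSR m, hScard m hm⟩, fun m hm => ?_, fun m hm => ?_,
    fun m hm => ?_, fun m hm => ?_, fun m hm => ?_⟩
  · rw [hSlt m hm, ← hnext m hm]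
    intro e he
    rw [Finset.mem_filter] at he ⊢
    exact ⟨he.1, by omega⟩
  · cases m with
    | zero => rw [hT0]; exact ⟨Finset.empty_subset _, Finset.card_empty⟩
    | succ m => rw [hTs]; exact ⟨Finset.filter_subset _ _, (hval m hm).2.2.2.2⟩
  · cases m with
    | zero => rw [hT0]; exact Finset.empty_subset _
    | succ m =>
      rw [hTs, hTs]
      intro e he
      rw [Finset.mem_filter] at he ⊢
      have := hlt m hm
      exact ⟨he.1, by omega⟩
  · have := h.l1 (x m - 1)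
    rw [L_eq, ← hSlt m hm, ← hTs m, Finset.coe_union, Finset.coe_sdiff] at this
    exact this
  · have := h.l2 (x m - 1)
    rw [L_eq, hnext2 m hm, hTeq m hm, Finset.coe_union, Finset.coe_sdiff] at this
    exact this

/-- Pair theorem: `X`, `Y` disjoint common independent sets with `n` elements, the first matroid of
rank at most `n + 1`, the second of rank at most `n`. -/
theorem pair [Nonempty α] {M₁ M₂ : Matroid α} {X Y : Set α} {n : ℕ} (hX1 : M₁.Indep X) (hY1 : M₁.Indep Y)
    (hX2 : M₂.Indep X) (hY2 : M₂.Indep Y) (hd : Disjoint X Y) (hX : X.encard = n)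
    (hY : Y.encard = n) (h1 : M₁.eRank ≤ (n + 1 : ℕ)) (h2 : M₂.eRank ≤ n)
    (hdens : ∀ A ⊆ X ∪ Y, A.Nonempty → A.encard < M₁.eRk A + M₂.eRk A) :
    ∃ x y : ℕ → α, InjOn x (Iio n) ∧ x '' Iio n = X ∧ InjOn y (Iio n) ∧ y '' Iio n = Y ∧
      (∀ i < n, M₁.Indep ((X \ x '' Iio i) ∪ y '' Iio (i + 1))) ∧
      (∀ i ≤ n, M₂.Indep ((Y \ y '' Iio i) ∪ x '' Iio i)) := by
  classical
  have hXf : X.Finite := finite_of_encard_eq_coe hX
  have hYf : Y.Finite := finite_of_encard_eq_coe hY
  obtain ⟨R, rfl⟩ := hXf.exists_finset_coe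
  obtain ⟨J, rfl⟩ := hYf.exists_finset_coe
  rw [encard_coe_eq_coe_finsetCard] at hX hY
  have hR : R.card = n := by exact_mod_cast hX
  have hJ : J.card = n := by exact_mod_cast hY
  have hd' : Disjoint R J := Finset.disjoint_coe.1 hd
  obtain ⟨ξ, η, hc, hs, ht⟩ := exists_pos hd' hX1 hY1 hX2 hY2 hdens
  obtain ⟨S, T, hS, hSm, hT, hTm, hW1, hW2⟩ := extract2 hc hd' hs ht hR hJ h1 h2
  obtain ⟨x, hx1, hx2⟩ := exists_enum S n (fun m hm => (hS m hm).2) hSm
  obtain ⟨y, hy1, hy2⟩ := exists_enum T n (fun m hm => (hT m hm).2) hTm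
  have hSr : S n = R := Finset.eq_of_subset_of_card_le (hS n le_rfl).1 (by
    rw [(hS n le_rfl).2, hR])
  have hTr : T n = J := Finset.eq_of_subset_of_card_le (hT n le_rfl).1 (by
    rw [(hT n le_rfl).2, hJ])
  refine ⟨x, y, hx1, by rw [hx2 n le_rfl, hSr], hy1, by rw [hy2 _ le_rfl, hTr], fun i hi => ?_,
    fun i hi => ?_⟩
  · rw [hx2 i hi.le, hy2 (i + 1) hi]
    exact hW1 i hi
  · cases i with
    | zero => simpa using hY2
    | succ i =>
      rw [hx2 (i + 1) hi, hy2 (i + 1) hi]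
      exact hW2 i hi

end Pool.Agent.Lib.MP_2c7063_coS
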