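import Pool.Agent.Lib.MP_2c7063_coS.Kum

/-!
# Good cyclic orderings in truncations
-/

namespace Pool.Agent.Lib.MP_2c7063_coS

open Set
open scoped Matroid

variable {α : Type*}

theorem tight_union {N : Matroid α} {B B' A₁ A₂ : Set α} (hB : N.Indep B) (hB' : N.Indep B')
    (hBf : (B ∪ B').Finite) (h1 : A₁ ⊆ B ∪ B') (h2 : A₂ ⊆ B ∪ B')
    (t1 : A₁.encard = 2 * N.eRk A₁) (t2 : A₂.encard = 2 * N.eRk A₂) :
    (A₁ ∪ A₂).encard = 2 * N.eRk (A₁ ∪ A₂) := by
  have f1 := hBf.subset h1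
  have f2 := hBf.subset h2
  have hs1 : A₁ ∪ A₂ ⊆ B ∪ B' := union_subset h1 h2
  have hs2 : A₁ ∩ A₂ ⊆ B ∪ B' := inter_subset_left.trans h1
  have i1 := encard_le_two_mul hB hB' hs1
  have i2 := encard_le_two_mul hB hB' hs2
  have i3 := N.eRk_inter_add_eRk_union_le A₁ A₂
  have i4 := encard_union_add_encard_inter A₁ A₂
  have lift : ∀ X : Set α, X.Finite → ∃ a c : ℕ, (a : ℕ∞) = N.eRk X ∧ (c : ℕ∞) = X.encard := by
    intro X hX
    obtain ⟨c, hc⟩ := ENat.ne_top_iff_exists.1 hX.encard_lt_top.ne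
    obtain ⟨a, ha⟩ := ENat.ne_top_iff_exists.1
      (lt_of_le_of_lt (N.eRk_le_encard X) hX.encard_lt_top).ne
    exact ⟨a, c, ha, hc⟩
  obtain ⟨a1, c1, ha1, hc1⟩ := lift _ f1
  obtain ⟨a2, c2, ha2, hc2⟩ := lift _ f2
  obtain ⟨a3, c3, ha3, hc3⟩ := lift _ (f1.union f2)
  obtain ⟨a4, c4, ha4, hc4⟩ := lift _ (f1.inter_of_left A₂)
  rw [← ha1, ← hc1] at t1
  rw [← ha2, ← hc2] at t2
  rw [← ha3, ← hc3] at i1
  rw [← ha4, ← hc4] at i2
  rw [← ha1, ← ha2, ← ha3, ← ha4] at i3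
  rw [← hc1, ← hc2, ← hc3, ← hc4] at i4
  rw [← ha3, ← hc3]
  have j1 : c3 ≤ 2 * a3 := by exact_mod_cast i1
  have j2 : c4 ≤ 2 * a4 := by exact_mod_cast i2
  have j3 : a4 + a3 ≤ a1 + a2 := by exact_mod_cast i3
  have j4 : c3 + c4 = c1 + c2 := by exact_mod_cast i4
  have j5 : c1 = 2 * a1 := by exact_mod_cast t1
  have j6 : c2 = 2 * a2 := by exact_mod_cast t2
  have j7 : c3 = 2 * a3 := by omega
  exact_mod_cast j7

theorem tight_sUnion {N : Matroid α} {B B' : Set α} (hB : N.Indep B) (hB' : N.Indep B')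
    (hBf : (B ∪ B').Finite) :
    (⋃₀ {A | A ⊆ B ∪ B' ∧ A.encard = 2 * N.eRk A}).encard =
      2 * N.eRk (⋃₀ {A | A ⊆ B ∪ B' ∧ A.encard = 2 * N.eRk A}) := by
  have hfin : {A | A ⊆ B ∪ B' ∧ A.encard = 2 * N.eRk A}.Finite :=
    hBf.finite_subsets.subset fun A hA => hA.1
  have key : ∀ S : Set (Set α), S.Finite → S ⊆ {A | A ⊆ B ∪ B' ∧ A.encard = 2 * N.eRk A} →
      (⋃₀ S) ⊆ B ∪ B' ∧ (⋃₀ S).encard = 2 * N.eRk (⋃₀ S) := by
    intro S hS
    induction S, hS using Set.Finite.induction_on with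
    | empty => intro _; simp
    | @insert a s _ _ ih =>
      intro hsub
      obtain ⟨h1, h2⟩ := ih ((subset_insert _ _).trans hsub)
      obtain ⟨h3, h4⟩ := hsub (mem_insert _ _)
      rw [sUnion_insert]
      exact ⟨union_subset h3 h1, tight_union hB hB' hBf h3 h1 h4 h2⟩
  exact (key _ hfin Subset.rfl).2

/-- A spanning independent subset. -/
theorem subset_closure_of {N : Matroid α} {P X : Set α} (hP : N.Indep P) (hX : X ⊆ N.E)
    (hmax : ∀ e ∈ X, ¬ N.Indep (insert e P) ∨ e ∈ P) : X ⊆ N.closure P := by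
  intro e he
  by_contra hcon
  have heP : e ∉ P := fun h => hcon (N.subset_closure P hP.subset_ground h)
  rcases hmax e he with h | h
  · exact h ((hP.insert_indep_iff_of_notMem heP).2 ⟨hX he, hcon⟩)
  · exact heP h

/-- Good orderings are self-dual. -/
theorem good_dual {M : Matroid α} {P Q : Set α} {k : ℕ} {x y : ℕ → α} (hPQ : Disjoint P Q)
    (hE : M.E = P ∪ Q) (h : Good M✶ P Q k x y) : Good M P Q k x y := by
  obtain ⟨hx, hxP, hy, hyQ, hW⟩ := h
  refine ⟨hx, hxP, hy, hyQ, fun i hi => ?_⟩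
  have hxi : x '' Iio i ⊆ P := by rw [← hxP]; exact image_mono (Iio_subset_Iio hi)
  have hyi : y '' Iio i ⊆ Q := by rw [← hyQ]; exact image_mono (Iio_subset_Iio hi)
  obtain ⟨w1, w2⟩ := hW i hi
  rw [Matroid.dual_isBase_iff', hE] at w1 w2
  constructor
  · have h1 : (P \ x '' Iio i) ∪ y '' Iio i = (P ∪ Q) \ ((Q \ y '' Iio i) ∪ x '' Iio i) := by
      ext e
      have a1 : e ∈ x '' Iio i → e ∈ P := fun h => hxi h
      have a2 : e ∈ y '' Iio i → e ∈ Q := fun h => hyi h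
      have a3 : e ∈ P → e ∉ Q := fun h => disjoint_left.1 hPQ h
      simp only [mem_union, mem_sdiff]
      tauto
    rw [h1]; exact w2.1
  · have h1 : (Q \ y '' Iio i) ∪ x '' Iio i = (P ∪ Q) \ ((P \ x '' Iio i) ∪ y '' Iio i) := by
      ext e
      have a1 : e ∈ x '' Iio i → e ∈ P := fun h => hxi h
      have a2 : e ∈ y '' Iio i → e ∈ Q := fun h => hyi h
      have a3 : e ∈ P → e ∉ Q := fun h => disjoint_left.1 hPQ h
      simp only [mem_union, mem_sdiff]
      tauto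
    rw [h1]; exact w1.1

theorem window_card {B B' : Set α} {r : ℕ} (hd : Disjoint B B') (hr : B.encard = r) {x y : ℕ → α}
    (hx : InjOn x (Iio r)) (hxB : x '' Iio r = B) (hy : InjOn y (Iio r)) (hyB : y '' Iio r = B')
    {i : ℕ} (hi : i ≤ r) : ((B \ x '' Iio i) ∪ y '' Iio i).encard = r := by
  have hxi : x '' Iio i ⊆ B := by rw [← hxB]; exact image_mono (Iio_subset_Iio hi)
  have hyi : y '' Iio i ⊆ B' := by rw [← hyB]; exact image_mono (Iio_subset_Iio hi)
  have e1 : (x '' Iio i).encard = i := by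
    rw [(hx.mono (Iio_subset_Iio hi)).encard_image, ← Finset.coe_Iio,
      encard_coe_eq_coe_finsetCard, Nat.card_Iio]
  have e2 : (y '' Iio i).encard = i := by
    rw [(hy.mono (Iio_subset_Iio hi)).encard_image, ← Finset.coe_Iio,
      encard_coe_eq_coe_finsetCard, Nat.card_Iio]
  rw [encard_union_eq ((hd.mono_left sdiff_subset).mono_right hyi), e2, ← e1,
    encard_sdiff_add_encard_of_subset hxi, hr]

/-- `M` is the cycle matroid of a graph with vertices in a type `V`. -/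
def IsCycleMatroid (M : Matroid α) : Prop := ∃ (V : Type) (u v : α → V), Rep M u v

theorem final [Nonempty α] {M N : Matroid α} {r : ℕ}
    (hM : ∀ J, M.Indep J ↔ N.Indep J ∧ J.encard ≤ r) {B B' : Set α} (hB : M.IsBase B)
    (hB' : M.IsBase B') (hd : Disjoint B B') (hr : B.encard = r) {A : Set α}
    (hA : A = ⋃₀ {A' | A' ⊆ B ∪ B' ∧ A'.encard = 2 * N.eRk A'})
    (hgood : IsCycleMatroid (N ↾ A) ∨ IsCycleMatroid (N ↾ A)✶ ∨
      ∃ k x y, Good (N ↾ A) (A ∩ B) (A ∩ B') k x y) :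
    ∃ x y, Good M B B' r x y := by
  have hBN : N.Indep B := ((hM B).1 hB.indep).1
  have hBN' : N.Indep B' := ((hM B').1 hB'.indep).1
  have hr' : B'.encard = r := by rw [hB'.encard_eq_eRank, ← hB.encard_eq_eRank, hr]
  have hBf : B.Finite := finite_of_encard_eq_coe hr
  have hBf' : B'.Finite := finite_of_encard_eq_coe hr'
  have hMr : M.eRank = r := by rw [← hB.encard_eq_eRank, hr]
  have hAB : A ⊆ B ∪ B' := by
    rw [hA]; exact sUnion_subset fun A' hA' => hA'.1
  have hAt : A.encard = 2 * N.eRk A := by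
    rw [hA]; exact tight_sUnion hBN hBN' (hBf.union hBf')
  have hmax : ∀ A' ⊆ B ∪ B', A'.encard = 2 * N.eRk A' → A' ⊆ A := by
    intro A' h1 h2
    rw [hA]; exact subset_sUnion_of_mem ⟨h1, h2⟩
  set P := A ∩ B with hP
  set Q := A ∩ B' with hQ
  have hAPQ : A = P ∪ Q := by rw [hP, hQ, ← inter_union_distrib_left, inter_eq_left.2 hAB]
  have hPQd : Disjoint P Q := hd.mono inter_subset_right inter_subset_right
  have hPI : N.Indep P := hBN.subset inter_subset_right
  have hQI : N.Indep Q := hBN'.subset inter_subset_right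
  have hAf : A.Finite := (hBf.union hBf').subset hAB
  -- the sizes
  obtain ⟨k, hk, hPk, hQk⟩ : ∃ k : ℕ, N.eRk A = k ∧ P.encard = k ∧ Q.encard = k := by
    obtain ⟨k, hk⟩ := ENat.ne_top_iff_exists.1
      (lt_of_le_of_lt (N.eRk_le_encard A) hAf.encard_lt_top).ne
    obtain ⟨p, hp⟩ := ENat.ne_top_iff_exists.1 (hAf.subset inter_subset_left :
      (A ∩ B).Finite).encard_lt_top.ne
    obtain ⟨q, hq⟩ := ENat.ne_top_iff_exists.1 (hAf.subset inter_subset_left :
      (A ∩ B').Finite).encard_lt_top.ne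
    have h1 : P.encard ≤ N.eRk A := hPI.encard_le_eRk_of_subset inter_subset_left
    have h2 : Q.encard ≤ N.eRk A := hQI.encard_le_eRk_of_subset inter_subset_left
    have h3 : A.encard = P.encard + Q.encard := by
      conv_lhs => rw [hAPQ]
      exact encard_union_eq hPQd
    rw [← hp, ← hk] at h1
    rw [← hq, ← hk] at h2
    rw [hAt, ← hp, ← hq, ← hk] at h3
    have j1 : p ≤ k := by exact_mod_cast h1
    have j2 : q ≤ k := by exact_mod_cast h2
    have j3 : 2 * k = p + q := by exact_mod_cast h3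
    refine ⟨k, hk.symm, ?_, ?_⟩
    · rw [← hp]; congr 1; omega
    · rw [← hq]; congr 1; omega
  have hnotins : ∀ {X : Set α}, X ⊆ A → X.encard = k → ∀ e ∈ A, ¬ N.Indep (insert e X) ∨ e ∈ X := by
    intro X hXA hX e he
    by_contra hcon
    push Not at hcon
    have h1 := hcon.1.encard_le_eRk_of_subset (insert_subset he hXA)
    rw [encard_insert_of_notMem hcon.2, hX, hk] at h1
    have h2 : k + 1 ≤ k := by exact_mod_cast h1
    omega
  have hPA : P ⊆ A := inter_subset_left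
  have hQA : Q ⊆ A := inter_subset_left
  have hkr : k ≤ r := by
    have := encard_le_encard (inter_subset_right : P ⊆ B)
    rw [hPk, hr] at this
    exact_mod_cast this
  have hQP : Q ⊆ N.closure P := subset_closure_of hPI hQI.subset_ground
    fun e he => hnotins hPA hPk e (hQA he)
  have hPQ : P ⊆ N.closure Q := subset_closure_of hQI hPI.subset_ground
    fun e he => hnotins hQA hQk e (hPA he)
  have hPM : M.Indep P := hB.indep.subset inter_subset_right
  have hQPM : Q ⊆ M.closure P := subset_closure_of hPM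
    ((inter_subset_right : Q ⊆ B').trans hB'.subset_ground) fun e he => by
      rcases hnotins hPA hPk e (hQA he) with h | h
      · exact Or.inl fun h' => h ((hM _).1 h').1
      · exact Or.inr h
  -- a good ordering of `P`, `Q`
  have hrkA : (N ↾ A).eRank = k := by rw [Matroid.eRank_restrict, hk]
  have hPb : (N ↾ A).IsBase P := isBase_of (Matroid.restrict_indep_iff.2 ⟨hPI, hPA⟩) hPk hrkA
  have hQb : (N ↾ A).IsBase Q := isBase_of (Matroid.restrict_indep_iff.2 ⟨hQI, hQA⟩) hQk hrkA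
  obtain ⟨x₀, y₀, hg⟩ : ∃ x₀ y₀, Good (N ↾ A) P Q k x₀ y₀ := by
    rcases hgood with ⟨V, u, v, hrep⟩ | ⟨V, u, v, hrep⟩ | ⟨k', x₀, y₀, hg⟩
    · exact kum k _ u v hrep P Q hPb hQb hPQd hPk
    · have e1 : (N ↾ A).E = P ∪ Q := by rw [Matroid.restrict_ground_eq]; exact hAPQ
      have d1 : (N ↾ A)✶.IsBase P := by
        rw [Matroid.dual_isBase_iff', e1]
        refine ⟨?_, subset_union_left⟩
        rw [union_sdiff_left, hPQd.symm.sdiff_eq_left]; exact hQb
      have d2 : (N ↾ A)✶.IsBase Q := by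
        rw [Matroid.dual_isBase_iff', e1]
        refine ⟨?_, subset_union_right⟩
        rw [union_sdiff_right, hPQd.sdiff_eq_left]; exact hPb
      obtain ⟨x₀, y₀, hg⟩ := kum k _ u v hrep P Q d1 d2 hPQd hPk
      exact ⟨x₀, y₀, good_dual hPQd e1 hg⟩
    · have : k' = k := by
        have h1 := hg.1.encard_image
        rw [hg.2.1, hPk, ← Finset.coe_Iio, encard_coe_eq_coe_finsetCard, Nat.card_Iio] at h1
        exact_mod_cast h1.symm
      exact ⟨x₀, y₀, this ▸ hg⟩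
  obtain ⟨hx₀, hx₀P, hy₀, hy₀Q, hW₀⟩ := hg
  obtain ⟨x, y, hx, hxB, hy, hyB, _, hW, _⟩ := closureThm (M := M) (N := N)
    (fun J h1 h2 => (hM J).2 ⟨h1, h2⟩) hMr.le hBN hBN' hd hr hr'
    (inter_subset_right : P ⊆ B) (inter_subset_right : Q ⊆ B') hPk hQk hQP hPQ hQPM
    (fun A' h1 h2 _ => by rw [← hAPQ]; exact hmax A' h1 h2) x₀ y₀ hx₀ hy₀ hx₀P hy₀Q
    (fun i hi => ⟨(Matroid.restrict_indep_iff.1 (hW₀ i hi).1.indep).1,
      (Matroid.restrict_indep_iff.1 (hW₀ i hi).2.indep).1⟩)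
  refine ⟨x, y, hx, hxB, hy, hyB, fun i hi => ⟨?_, ?_⟩⟩
  · have hc := window_card hd hr hx hxB hy hyB hi
    exact isBase_of ((hM _).2 ⟨(hW i hi).1, hc.le⟩) hc hMr
  · exact isBase_of (hW i hi).2 (window_card hd.symm hr' hy hyB hx hxB hi) hMr

end Pool.Agent.Lib.MP_2c7063_coS
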