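import Pool.Agent.Lib.MP_2c7063_coS.Final

/-!
# Good cyclic orderings in truncations and elongations
-/

namespace Pool.Agent.Lib.MP_2c7063_coS

open Set
open scoped Matroid

variable {α : Type*}

theorem final2 [Nonempty α] {M N : Matroid α} {r : ℕ} {B B' : Set α} (hB : M.IsBase B)
    (hB' : M.IsBase B') (hd : Disjoint B B') (hr : B.encard = r)
    (hN : (∀ J ⊆ B ∪ B', M.Indep J ↔ N.Indep J ∧ J.encard ≤ r) ∨
      (∀ J ⊆ B ∪ B', (M ↾ (B ∪ B'))✶.Indep J ↔ N.Indep J ∧ J.encard ≤ r)) {A : Set α}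
    (hA : A = ⋃₀ {A' | A' ⊆ B ∪ B' ∧ A'.encard = 2 * N.eRk A'})
    (hgood : IsCycleMatroid (N ↾ A) ∨ IsCycleMatroid (N ↾ A)✶ ∨
      ∃ k x y, Good (N ↾ A) (A ∩ B) (A ∩ B') k x y) :
    ∃ x y, Good M B B' r x y := by
  have hMr : M.eRank = r := by rw [← hB.encard_eq_eRank, hr]
  have hr' : B'.encard = r := by rw [hB'.encard_eq_eRank, hMr]
  have hAE : A ⊆ B ∪ B' := by
    rw [hA]; exact sUnion_subset fun A' hA' => hA'.1
  -- the restriction of `M`
  have hRr : (M ↾ (B ∪ B')).eRank = r := by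
    rw [Matroid.eRank_restrict]
    refine le_antisymm ((M.eRk_le_eRank _).trans hMr.le) ?_
    rw [← hr, ← hB.indep.eRk_eq_encard]
    exact M.eRk_mono subset_union_left
  have hRB : (M ↾ (B ∪ B')).IsBase B :=
    isBase_of (Matroid.restrict_indep_iff.2 ⟨hB.indep, subset_union_left⟩) hr hRr
  have hRB' : (M ↾ (B ∪ B')).IsBase B' :=
    isBase_of (Matroid.restrict_indep_iff.2 ⟨hB'.indep, subset_union_right⟩) hr' hRr
  have hRE : (M ↾ (B ∪ B')).E = B ∪ B' := Matroid.restrict_ground_eq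
  -- back from the restriction
  have hback : (∃ x y, Good (M ↾ (B ∪ B')) B B' r x y) → ∃ x y, Good M B B' r x y := by
    rintro ⟨x, y, hx, hxB, hy, hyB, hW⟩
    refine ⟨x, y, hx, hxB, hy, hyB, fun i hi => ⟨?_, ?_⟩⟩
    · exact isBase_of (Matroid.restrict_indep_iff.1 (hW i hi).1.indep).1
        (window_card hd hr hx hxB hy hyB hi) hMr
    · exact isBase_of (Matroid.restrict_indep_iff.1 (hW i hi).2.indep).1
        (window_card hd.symm hr' hy hyB hx hxB hi) hMr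
  -- the restriction of `N`
  have hA' : A = ⋃₀ {A' | A' ⊆ B ∪ B' ∧ A'.encard = 2 * (N ↾ (B ∪ B')).eRk A'} := by
    rw [hA]
    congr 1
    ext A'
    constructor
    · rintro ⟨h1, h2⟩
      exact ⟨h1, by rw [N.restrict_eRk_eq h1]; exact h2⟩
    · rintro ⟨h1, h2⟩
      exact ⟨h1, by rw [N.restrict_eRk_eq h1] at h2; exact h2⟩
  have hres : (N ↾ (B ∪ B')) ↾ A = N ↾ A := Matroid.restrict_restrict_eq _ hAE
  have hgood' : IsCycleMatroid ((N ↾ (B ∪ B')) ↾ A) ∨ IsCycleMatroid ((N ↾ (B ∪ B')) ↾ A)✶ ∨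
      ∃ k x y, Good ((N ↾ (B ∪ B')) ↾ A) (A ∩ B) (A ∩ B') k x y := by
    rw [hres]; exact hgood
  rcases hN with hN | hN
  · refine hback (final (M := M ↾ (B ∪ B')) (N := N ↾ (B ∪ B')) (fun J => ?_) hRB hRB' hd hr hA'
      hgood')
    rw [Matroid.restrict_indep_iff, Matroid.restrict_indep_iff]
    constructor
    · rintro ⟨h1, h2⟩
      exact ⟨⟨((hN J h2).1 h1).1, h2⟩, ((hN J h2).1 h1).2⟩
    · rintro ⟨⟨h1, h2⟩, h3⟩
      exact ⟨(hN J h2).2 ⟨h1, h3⟩, h2⟩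
  · have d1 : (M ↾ (B ∪ B'))✶.IsBase B := by
      rw [Matroid.dual_isBase_iff', hRE]
      refine ⟨?_, subset_union_left⟩
      rw [union_sdiff_left, hd.symm.sdiff_eq_left]; exact hRB'
    have d2 : (M ↾ (B ∪ B'))✶.IsBase B' := by
      rw [Matroid.dual_isBase_iff', hRE]
      refine ⟨?_, subset_union_right⟩
      rw [union_sdiff_right, hd.sdiff_eq_left]; exact hRB
    obtain ⟨x, y, hg⟩ := final (M := (M ↾ (B ∪ B'))✶) (N := N ↾ (B ∪ B')) (fun J => by
      rw [Matroid.restrict_indep_iff]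
      constructor
      · intro h
        have h2 : J ⊆ B ∪ B' := by
          have := h.subset_ground
          rwa [Matroid.dual_ground, hRE] at this
        exact ⟨⟨((hN J h2).1 h).1, h2⟩, ((hN J h2).1 h).2⟩
      · rintro ⟨⟨h1, h2⟩, h3⟩
        exact (hN J h2).2 ⟨h1, h3⟩) d1 d2 hd hr hA' hgood'
    exact hback ⟨x, y, good_dual hd hRE hg⟩

end Pool.Agent.Lib.MP_2c7063_coS
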