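import Pool.Agent.Lib.MP_2c7063_coS.Small

/-!
# Good cyclic orderings in truncations and elongations: small tight sets
-/

namespace Pool.Agent.Lib.MP_2c7063_coS

open Set
open scoped Matroid

variable {α : Type*}

theorem small_tight [Nonempty α] {N : Matroid α} {B B' : Set α} (hBN : N.Indep B)
    (hBN' : N.Indep B') (hBf : B.Finite) (hBf' : B'.Finite) (hd : Disjoint B B') {A : Set α}
    (hA : A = ⋃₀ {A' | A' ⊆ B ∪ B' ∧ A'.encard = 2 * N.eRk A'}) (h8 : A.encard ≤ 8) :
    ∃ k x y, Good (N ↾ A) (A ∩ B) (A ∩ B') k x y := by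
  have hAB : A ⊆ B ∪ B' := by
    rw [hA]; exact sUnion_subset fun A' hA' => hA'.1
  have hAt : A.encard = 2 * N.eRk A := by
    rw [hA]; exact tight_sUnion hBN hBN' (hBf.union hBf')
  set P := A ∩ B with hP
  set Q := A ∩ B' with hQ
  have hAPQ : A = P ∪ Q := by rw [hP, hQ, ← inter_union_distrib_left, inter_eq_left.2 hAB]
  have hPQd : Disjoint P Q := hd.mono inter_subset_right inter_subset_right
  have hPI : N.Indep P := hBN.subset inter_subset_right
  have hQI : N.Indep Q := hBN'.subset inter_subset_right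
  have hAf : A.Finite := (hBf.union hBf').subset hAB
  obtain ⟨k, hk, hPk, hQk⟩ : ∃ k : ℕ, N.eRk A = k ∧ P.encard = k ∧ Q.encard = k := by
    obtain ⟨k, hk⟩ := ENat.ne_top_iff_exists.1
      (lt_of_le_of_lt (N.eRk_le_encard A) hAf.encard_lt_top).ne
    obtain ⟨p, hp⟩ := ENat.ne_top_iff_exists.1 (hAf.subset inter_subset_left :
      (A ∩ B).Finite).encard_lt_top.ne
    obtain ⟨q, hq⟩ := ENat.ne_top_iff_exists.1 (hAf.subset inter_subset_left :
      (A ∩ B').Finite).encard_lt_top.ne
    have h1 : P.encard ≤ N.eRk A := hPI.encard_le_eRk_of_subset inter_subset_left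
    have h2 : Q.encard ≤ N.eRk A := hQI.encard_le_eRk_of_subset inter_subset_left
    have h3 : A.encard = P.encard + Q.encard := by
      conv_lhs => rw [hAPQ]
      exact encard_union_eq hPQd
    rw [← hp, ← hk] at h1
    rw [← hq, ← hk] at h2
    rw [hAt, ← hp, ← hq, ← hk] at h3
    have j1 : p ≤ k := by exact_mod_cast h1
    have j2 : q ≤ k := by exact_mod_cast h2
    have j3 : 2 * k = p + q := by exact_mod_cast h3
    refine ⟨k, hk.symm, ?_, ?_⟩
    · rw [← hp]; congr 1; omega
    · rw [← hq]; congr 1; omega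
  have hrkA : (N ↾ A).eRank = k := by rw [Matroid.eRank_restrict, hk]
  have hPb : (N ↾ A).IsBase P :=
    isBase_of (Matroid.restrict_indep_iff.2 ⟨hPI, inter_subset_left⟩) hPk hrkA
  have hQb : (N ↾ A).IsBase Q :=
    isBase_of (Matroid.restrict_indep_iff.2 ⟨hQI, inter_subset_left⟩) hQk hrkA
  have hk4 : k ≤ 4 := by
    rw [hAt, hk] at h8
    have : 2 * k ≤ 8 := by exact_mod_cast h8
    omega
  obtain ⟨x, y, h⟩ := small hPb hQb hPQd hPk hk4
  exact ⟨k, x, y, h⟩

theorem final3 [Nonempty α] {M N : Matroid α} {r : ℕ} {B B' : Set α} (hB : M.IsBase B)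
    (hB' : M.IsBase B') (hd : Disjoint B B') (hr : B.encard = r)
    (hN : (∀ J ⊆ B ∪ B', M.Indep J ↔ N.Indep J ∧ J.encard ≤ r) ∨
      (∀ J ⊆ B ∪ B', (M ↾ (B ∪ B'))✶.Indep J ↔ N.Indep J ∧ J.encard ≤ r)) {A : Set α}
    (hA : A = ⋃₀ {A' | A' ⊆ B ∪ B' ∧ A'.encard = 2 * N.eRk A'})
    (hgood : A.encard ≤ 8 ∨ IsCycleMatroid (N ↾ A) ∨ IsCycleMatroid (N ↾ A)✶ ∨
      ∃ k x y, Good (N ↾ A) (A ∩ B) (A ∩ B') k x y) :
    ∃ x y, Good M B B' r x y := by
  rcases hgood with h8 | hgood
  · have hr' : B'.encard = r := by rw [hB'.encard_eq_eRank, ← hB.encard_eq_eRank, hr]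
    have hRE : (M ↾ (B ∪ B')).E = B ∪ B' := Matroid.restrict_ground_eq
    obtain ⟨hBN, hBN'⟩ : N.Indep B ∧ N.Indep B' := by
      rcases hN with hN | hN
      · exact ⟨((hN B subset_union_left).1 hB.indep).1,
          ((hN B' subset_union_right).1 hB'.indep).1⟩
      · have hMr : M.eRank = r := by rw [← hB.encard_eq_eRank, hr]
        have hRr : (M ↾ (B ∪ B')).eRank = r := by
          rw [Matroid.eRank_restrict]
          refine le_antisymm ((M.eRk_le_eRank _).trans hMr.le) ?_
          rw [← hr, ← hB.indep.eRk_eq_encard]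
          exact M.eRk_mono subset_union_left
        have hRB : (M ↾ (B ∪ B')).IsBase B :=
          isBase_of (Matroid.restrict_indep_iff.2 ⟨hB.indep, subset_union_left⟩) hr hRr
        have hRB' : (M ↾ (B ∪ B')).IsBase B' :=
          isBase_of (Matroid.restrict_indep_iff.2 ⟨hB'.indep, subset_union_right⟩) hr' hRr
        have d1 : (M ↾ (B ∪ B'))✶.IsBase B := by
          rw [Matroid.dual_isBase_iff', hRE]
          refine ⟨?_, subset_union_left⟩
          rw [union_sdiff_left, hd.symm.sdiff_eq_left]; exact hRB'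
        have d2 : (M ↾ (B ∪ B'))✶.IsBase B' := by
          rw [Matroid.dual_isBase_iff', hRE]
          refine ⟨?_, subset_union_right⟩
          rw [union_sdiff_right, hd.sdiff_eq_left]; exact hRB
        exact ⟨((hN B subset_union_left).1 d1.indep).1,
          ((hN B' subset_union_right).1 d2.indep).1⟩
    exact final2 hB hB' hd hr hN hA (Or.inr (Or.inr (small_tight hBN hBN'
      (finite_of_encard_eq_coe hr) (finite_of_encard_eq_coe hr') hd hA h8)))
  · exact final2 hB hB' hd hr hN hA hgood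

end Pool.Agent.Lib.MP_2c7063_coS
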