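import Pool.Agent.Lib.MP_2c7063_coS.Step3

/-!
# Cycle matroids of graphs: two disjoint bases have a good cyclic ordering

This is the theorem of Kajitani, Ueno and Miyano, by induction with a vertex star of size at most
three.
-/

namespace Pool.Agent.Lib.MP_2c7063_coS

open Set
open scoped Matroid

variable {α V : Type*}

/-- The incidence vector over `GF(2)` of the edge `e`, which joins `u e` and `v e`. -/
noncomputable def inc (u v : α → V) (e : α) : V →₀ ZMod 2 :=
  Finsupp.single (u e) 1 + Finsupp.single (v e) 1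

open Classical in
/-- Identify `q` with `p`. -/
noncomputable def mrg (p q : V) (w : V) : V := if w = q then p else w

theorem inc_mrg (p q : V) (u v : α → V) (e : α) :
    Finsupp.lmapDomain (ZMod 2) (ZMod 2) (mrg p q) (inc u v e) =
      inc (fun e => mrg p q (u e)) (fun e => mrg p q (v e)) e := by
  simp only [inc, map_add, Finsupp.lmapDomain_apply, Finsupp.mapDomain_single]

theorem two_eq_zero' : (1 : ZMod 2) + 1 = 0 := by decide

theorem ker_mrg (p q : V) (hpq : p ≠ q) :
    LinearMap.ker (Finsupp.lmapDomain (ZMod 2) (ZMod 2) (mrg p q)) ≤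
      Submodule.span (ZMod 2) {(Finsupp.single p 1 + Finsupp.single q 1 : V →₀ ZMod 2)} := by
  classical
  intro g hg
  rw [LinearMap.mem_ker] at hg
  set s : V →₀ ZMod 2 := Finsupp.single p 1 + Finsupp.single q 1 with hs
  set g' : V →₀ ZMod 2 := g - g q • s with hg'
  have h1 : Finsupp.lmapDomain (ZMod 2) (ZMod 2) (mrg p q) s = 0 := by
    simp only [hs, map_add, Finsupp.lmapDomain_apply, Finsupp.mapDomain_single, mrg, if_pos,
      if_neg hpq]
    rw [← Finsupp.single_add, two_eq_zero', Finsupp.single_zero]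
  have h2 : Finsupp.lmapDomain (ZMod 2) (ZMod 2) (mrg p q) g' = 0 := by
    rw [hg', map_sub, map_smul, h1, hg]; simp
  have h3 : g' q = 0 := by
    simp [hg', hs, hpq]
  have h4 : Finsupp.lmapDomain (ZMod 2) (ZMod 2) (mrg p q) g' = g' := by
    rw [Finsupp.lmapDomain_apply]
    have : Finsupp.mapDomain (mrg p q) g' = Finsupp.mapDomain id g' := by
      refine Finsupp.mapDomain_congr fun w hw => ?_
      have hwq : w ≠ q := by
        rintro rfl
        exact (Finsupp.mem_support_iff.1 hw) h3
      exact if_neg hwq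
    rw [this, Finsupp.mapDomain_id]
  have h5 : g' = 0 := by rw [← h4, h2]
  have h6 : g = g q • s := by
    rw [hg', sub_eq_zero] at h5; exact h5
  rw [h6]
  exact Submodule.smul_mem _ _ (Submodule.mem_span_singleton_self _)

/-- Contraction of the edge `b`. -/
theorem indepOn_insert_iff {u v : α → V} {b : α} {J : Set α} (hb : u b ≠ v b) (hbJ : b ∉ J) :
    LinearIndepOn (ZMod 2) (inc u v) (insert b J) ↔
      LinearIndepOn (ZMod 2) (inc (fun e => mrg (u b) (v b) (u e))
        (fun e => mrg (u b) (v b) (v e))) J := by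
  have hdis : Disjoint ({b} : Set α) J := disjoint_singleton_left.2 hbJ
  have hbi : LinearIndepOn (ZMod 2) (inc u v) ({b} : Set α) := by
    rw [linearIndepOn_singleton_iff]
    intro h
    have := DFunLike.congr_fun h (v b)
    simp [inc, hb] at this
  rw [insert_eq, linearIndepOn_union_iff_quotient hdis, and_iff_right hbi]
  set S : Submodule (ZMod 2) (V →₀ ZMod 2) := Submodule.span (ZMod 2) (inc u v '' {b}) with hS
  have hS' : S = Submodule.span (ZMod 2) {inc u v b} := by rw [hS, image_singleton]
  set f := Finsupp.lmapDomain (ZMod 2) (ZMod 2) (mrg (u b) (v b)) with hf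
  have hfb : f (inc u v b) = 0 := by
    rw [hf, inc_mrg]
    simp only [inc, mrg, if_neg hb, if_pos]
    rw [← Finsupp.single_add, two_eq_zero', Finsupp.single_zero]
  have hle : S ≤ LinearMap.ker f := by
    rw [hS', Submodule.span_le, singleton_subset_iff]
    exact hfb
  have hker : LinearMap.ker (S.liftQ f hle) = ⊥ := by
    refine Submodule.ker_liftQ_eq_bot _ _ _ ?_
    rw [hS']
    exact ker_mrg _ _ hb
  have hinj : Function.Injective (S.liftQ f hle) := LinearMap.ker_eq_bot.1 hker
  rw [← LinearMap.linearIndepOn_iff_of_injOn (S.liftQ f hle) hinj.injOn]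
  have : (S.liftQ f hle) ∘ (S.mkQ ∘ inc u v) = inc (fun e => mrg (u b) (v b) (u e))
        (fun e => mrg (u b) (v b) (v e)) := by
    funext e
    simp only [Function.comp_apply, Submodule.mkQ_apply, Submodule.liftQ_apply]
    rw [hf, inc_mrg]
  rw [this]

/-- `M` is the cycle matroid of the graph in which `e` joins `u e` and `v e`. -/
def Rep (M : Matroid α) (u v : α → V) : Prop :=
  ∀ J ⊆ M.E, M.Indep J ↔ LinearIndepOn (ZMod 2) (inc u v) J

theorem Rep.ne {M : Matroid α} {u v : α → V} (h : Rep M u v) {b : α} (hb : M.Indep {b}) :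
    u b ≠ v b := by
  intro heq
  have h1 := (h {b} hb.subset_ground).1 hb
  rw [linearIndepOn_singleton_iff] at h1
  apply h1
  simp only [inc, heq]
  rw [← Finsupp.single_add, two_eq_zero', Finsupp.single_zero]

theorem Rep.contract {M : Matroid α} {u v : α → V} (h : Rep M u v) {b : α} (hb : M.Indep {b}) :
    Rep (M ／ {b}) (fun e => mrg (u b) (v b) (u e)) (fun e => mrg (u b) (v b) (v e)) := by
  intro J hJ
  rw [Matroid.contract_ground] at hJ
  have hbJ : b ∉ J := fun h => (hJ h).2 rfl
  rw [hb.contract_indep_iff, union_singleton, and_iff_right (disjoint_singleton_right.2 hbJ),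
    h _ (insert_subset (hb.subset_ground rfl) (hJ.trans sdiff_subset)),
    indepOn_insert_iff (h.ne hb) hbJ]

/-- The star of the vertex `w` in `E`. -/
def star (E : Set α) (u v : α → V) (w : V) : Set α := {e | e ∈ E ∧ ¬ (u e = w ↔ v e = w)}

theorem inc_apply_of_notMem {E : Set α} {u v : α → V} {w : V} {e : α} (he : e ∈ E)
    (h : e ∉ star E u v w) : inc u v e w = 0 := by
  classical
  have h' : (u e = w ↔ v e = w) := by
    by_contra hcon
    exact h ⟨he, hcon⟩
  simp only [inc, Finsupp.add_apply, Finsupp.single_apply]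
  by_cases h1 : u e = w
  · rw [if_pos h1, if_pos (h'.1 h1)]; exact two_eq_zero'
  · rw [if_neg h1, if_neg fun h2 => h1 (h'.2 h2)]; simp

theorem inc_apply_of_mem {E : Set α} {u v : α → V} {w : V} {e : α} (h : e ∈ star E u v w) :
    inc u v e w = 1 := by
  classical
  have h' := h.2
  simp only [inc, Finsupp.add_apply, Finsupp.single_apply]
  by_cases h1 : u e = w
  · by_cases h2 : v e = w
    · exact absurd (iff_of_true h1 h2) h'
    · rw [if_pos h1, if_neg h2]; simp
  · by_cases h2 : v e = w
    · rw [if_neg h1, if_pos h2]; simp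
    · exact absurd (iff_of_false h1 h2) h'

theorem Rep.cut {M : Matroid α} {u v : α → V} (h : Rep M u v) {E : Set α} (hE : E ⊆ M.E) (w : V) :
    Cut M E (star E u v w) := by
  intro J hJE hJ hdis e he
  have heJ : e ∉ J := disjoint_right.1 hdis he
  have heE : e ∈ M.E := hE he.1
  rw [h _ (insert_subset heE hJ.subset_ground), linearIndepOn_insert heJ]
  refine ⟨(h _ hJ.subset_ground).1 hJ, fun hmem => ?_⟩
  have hle : Submodule.span (ZMod 2) (inc u v '' J) ≤
      LinearMap.ker (Finsupp.lapply w : (V →₀ ZMod 2) →ₗ[ZMod 2] ZMod 2) := by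
    rw [Submodule.span_le]
    rintro _ ⟨f, hf, rfl⟩
    exact inc_apply_of_notMem (hJE hf) (disjoint_left.1 hdis hf)
  have h1 : inc u v e w = 0 := hle hmem
  rw [inc_apply_of_mem he] at h1
  exact absurd h1 (by decide)

end Pool.Agent.Lib.MP_2c7063_coS
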