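import Pool.Agent.Lib.MP_2c7063_coS.Graph

/-!
# The theorem of Kajitani, Ueno and Miyano
-/

namespace Pool.Agent.Lib.MP_2c7063_coS

open Set
open scoped Matroid

variable {α V : Type*}

theorem card_le {u v : α → V} {B : Finset α} (hB : LinearIndepOn (ZMod 2) (inc u v) (B : Set α))
    {W : Finset V} {w₀ : V} (hw₀ : w₀ ∈ W) (hW : ∀ e ∈ B, ∀ w, inc u v e w ≠ 0 → w ∈ W) :
    B.card + 1 ≤ W.card := by
  classical
  set σ : (V →₀ ZMod 2) →ₗ[ZMod 2] ZMod 2 :=
    Finsupp.linearCombination (ZMod 2) (fun _ : V => (1 : ZMod 2)) with hσ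
  have hσ1 : ∀ w, σ (Finsupp.single w 1) = 1 := fun w => by
    simp [hσ]
  have hσ2 : ∀ e, σ (inc u v e) = 0 := fun e => by
    simp only [inc, map_add, hσ1]; exact two_eq_zero'
  set f : Option (B : Set α) → (V →₀ ZMod 2) := fun o =>
    Option.casesOn' o (Finsupp.single w₀ 1) (fun e => inc u v e) with hf
  have hli : LinearIndependent (ZMod 2) f := by
    rw [hf, linearIndependent_option']
    refine ⟨hB, fun hmem => ?_⟩
    have hle : Submodule.span (ZMod 2) (range fun e : (B : Set α) => inc u v e) ≤
        LinearMap.ker σ := by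
      rw [Submodule.span_le]
      rintro _ ⟨e, rfl⟩
      exact hσ2 e
    have h1 : σ (Finsupp.single w₀ 1) = 0 := hle hmem
    rw [hσ1] at h1
    exact absurd h1 (by decide)
  have hspan : range f ≤ (Submodule.span (ZMod 2)
      ((W.image fun w => (Finsupp.single w 1 : V →₀ ZMod 2) : Finset _) : Set (V →₀ ZMod 2)) :
        Submodule (ZMod 2) (V →₀ ZMod 2)) := by
    have hsing : ∀ w ∈ W, (Finsupp.single w 1 : V →₀ ZMod 2) ∈ Submodule.span (ZMod 2)
      ((W.image fun w => (Finsupp.single w 1 : V →₀ ZMod 2) : Finset _) :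
        Set (V →₀ ZMod 2)) := fun w hw =>
      Submodule.subset_span (Finset.mem_coe.2 (Finset.mem_image_of_mem _ hw))
    rintro _ ⟨o, rfl⟩
    cases o with
    | none => exact hsing w₀ hw₀
    | some e =>
      have h1 : f (some e) = inc u v e := rfl
      rw [h1]
      have h2 : inc u v (e : α) = ∑ w ∈ (inc u v (e : α)).support,
          Finsupp.single w (inc u v (e : α) w) := (Finsupp.sum_single _).symm
      rw [h2]
      refine Submodule.sum_mem _ fun w hw => ?_
      have h3 : (Finsupp.single w (inc u v (e : α) w) : V →₀ ZMod 2) =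
          inc u v (e : α) w • Finsupp.single w 1 := by
        rw [Finsupp.smul_single, smul_eq_mul, mul_one]
      rw [h3]
      exact Submodule.smul_mem _ _ (hsing w (hW e e.2 w (Finsupp.mem_support_iff.1 hw)))
  have h1 := linearIndependent_le_span_aux' f hli _ hspan
  simp only [Fintype.card_option, Fintype.card_coe, Finset.coe_sort_coe] at h1
  exact h1.trans Finset.card_image_le

open Classical in
theorem small_star {u v : α → V} {F B : Finset α} {n : ℕ} (hF : F.card = 2 * n) (hBF : B ⊆ F)
    (hBn : B.card = n) (hn : 1 ≤ n) (hB : LinearIndepOn (ZMod 2) (inc u v) (B : Set α)) :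
    ∃ w, (F.filter fun e => ¬ (u e = w ↔ v e = w)).Nonempty ∧
      (F.filter fun e => ¬ (u e = w ↔ v e = w)).card ≤ 3 := by
  by_contra hcon'
  have hcon : ∀ w, (F.filter fun e => ¬ (u e = w ↔ v e = w)).Nonempty →
      3 < (F.filter fun e => ¬ (u e = w ↔ v e = w)).card := fun w hw =>
    not_le.1 fun h => hcon' ⟨w, hw, h⟩
  set r : V → α → Prop := fun w e => ¬ (u e = w ↔ v e = w) with hr
  set W : Finset V := (F.image u ∪ F.image v).filter fun w => (F.filter (r w)).Nonempty with hWdef
  have hsupp : ∀ e ∈ B, ∀ w, inc u v e w ≠ 0 → w ∈ W := by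
    intro e he w hw
    have hstar : e ∈ star (F : Set α) u v w := by
      by_contra h
      exact hw (inc_apply_of_notMem (Finset.mem_coe.2 (hBF he)) h)
    have h2 : ¬ (u e = w ↔ v e = w) := hstar.2
    refine Finset.mem_filter.2 ⟨?_, ⟨e, Finset.mem_filter.2 ⟨hBF he, h2⟩⟩⟩
    by_cases h3 : u e = w
    · exact Finset.mem_union_left _ (h3 ▸ Finset.mem_image_of_mem u (hBF he))
    · by_cases h4 : v e = w
      · exact Finset.mem_union_right _ (h4 ▸ Finset.mem_image_of_mem v (hBF he))
      · exact absurd (iff_of_false h3 h4) h2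
  obtain ⟨e₀, he₀⟩ : B.Nonempty := Finset.card_pos.1 (by omega)
  obtain ⟨w₀, hw₀⟩ : ∃ w, inc u v e₀ w ≠ 0 := by
    by_contra h
    push Not at h
    exact hB.ne_zero (Finset.mem_coe.2 he₀) (Finsupp.ext h)
  have h1 := card_le hB (hsupp e₀ he₀ w₀ hw₀) hsupp
  have h2 : ∑ w ∈ W, (F.bipartiteAbove r w).card = ∑ e ∈ F, (W.bipartiteBelow r e).card :=
    Finset.sum_card_bipartiteAbove_eq_sum_card_bipartiteBelow r
  have h3 : ∑ e ∈ F, (W.bipartiteBelow r e).card ≤ F.card * 2 := by
    rw [← smul_eq_mul]
    refine Finset.sum_le_card_nsmul _ _ _ fun e he => ?_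
    refine (Finset.card_le_card (t := {u e, v e}) ?_).trans Finset.card_le_two
    intro w hw
    have hw' : ¬ (u e = w ↔ v e = w) := (Finset.mem_filter.1 hw).2
    rw [Finset.mem_insert, Finset.mem_singleton]
    by_contra h4
    push Not at h4
    exact hw' (iff_of_false (fun h => h4.1 h.symm) (fun h => h4.2 h.symm))
  have h4 : W.card * 4 ≤ ∑ w ∈ W, (F.bipartiteAbove r w).card := by
    rw [← smul_eq_mul]
    refine Finset.card_nsmul_le_sum _ _ _ fun w hw => ?_
    have := hcon w (Finset.mem_filter.1 hw).2
    exact this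
  rw [h2] at h4
  omega

/-- The bases of the contraction. -/
theorem contract_bases {M : Matroid α} {B B' D : Set α} {n : ℕ} {b b' : α} (hB : M.IsBase B)
    (hB' : M.IsBase B') (hr : B.encard = (n + 1 : ℕ)) (hb : b ∈ B) (hb' : b' ∈ B')
    (hbB' : b ∉ B') (hcut : Cut M (B ∪ B') D) (hbD : b ∈ D) (hD : ∀ e ∈ B', e ∈ D → e = b') :
    (M ／ {b}).IsBase (B \ {b}) ∧ (M ／ {b}).IsBase (B' \ {b'}) ∧ (B \ {b}).encard = n := by
  have hbI : M.Indep {b} := hB.indep.subset (singleton_subset_iff.2 hb)
  have hr' : B'.encard = (n + 1 : ℕ) := by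
    rw [hB'.encard_eq_eRank, ← hB.encard_eq_eRank, hr]
  have hc : ∀ {X : Set α} {e : α}, e ∈ X → X.encard = (n + 1 : ℕ) → (X \ {e}).encard = n := by
    intro X e he hX
    have h1 := encard_sdiff_singleton_add_one he
    rw [hX] at h1
    have hfin : (X \ {e}).encard ≠ ⊤ := by
      intro h
      rw [h] at h1
      exact ENat.natCast_ne_top (n + 1) (by rw [← h1]; simp)
    obtain ⟨c, hc⟩ := ENat.ne_top_iff_exists.1 hfin
    rw [← hc] at h1 ⊢
    have h2 : c + 1 = n + 1 := by exact_mod_cast h1
    have h3 : c = n := by omega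
    rw [h3]
  refine ⟨?_, ?_, hc hb hr⟩
  · rw [hbI.contract_isBase_iff]
    exact ⟨by rw [sdiff_union_of_subset (singleton_subset_iff.2 hb)]; exact hB,
      disjoint_sdiff_left⟩
  · rw [hbI.contract_isBase_iff, union_singleton]
    refine ⟨?_, disjoint_singleton_right.2 fun h => hbB' h.1⟩
    refine isBase_of_card hB hr (hcut _ (sdiff_subset.trans subset_union_right)
      (hB'.indep.subset sdiff_subset) ?_ b hbD) ?_
    · refine disjoint_left.2 fun e he heD => ?_
      exact he.2 (hD e he.1 heD)
    · rw [encard_insert_of_notMem (fun h => hbB' h.1), hc hb' hr']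
      norm_cast

/-- The theorem of Kajitani, Ueno and Miyano. -/
theorem kum [Nonempty α] (n : ℕ) : ∀ (M : Matroid α) (u v : α → V), Rep M u v →
    ∀ B B' : Set α, M.IsBase B → M.IsBase B' → Disjoint B B' → B.encard = n →
    ∃ x y : ℕ → α, Good M B B' n x y := by
  classical
  induction n with
  | zero =>
    intro M u v hM B B' hB hB' hd hr
    have e1 : B = ∅ := by simpa using hr
    have e2 : B' = ∅ := by
      have : B'.encard = 0 := by rw [hB'.encard_eq_eRank, ← hB.encard_eq_eRank, hr]; rfl
      simpa using this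
    refine ⟨fun _ => Classical.arbitrary α, fun _ => Classical.arbitrary α, ?_, ?_, ?_, ?_, ?_⟩
    · intro i hi; exact absurd hi (by simp)
    · rw [e1]; ext e; simp
    · intro i hi; exact absurd hi (by simp)
    · rw [e2]; ext e; simp
    · intro i hi
      have : i = 0 := by omega
      subst this
      simpa using ⟨hB, hB'⟩
  | succ n ih =>
    intro M u v hM B B' hB hB' hd hr
    have hr' : B'.encard = (n + 1 : ℕ) := by
      rw [hB'.encard_eq_eRank, ← hB.encard_eq_eRank, hr]
    obtain ⟨FB, hFB⟩ := (finite_of_encard_eq_coe hr).exists_finset_coe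
    obtain ⟨FB', hFB'⟩ := (finite_of_encard_eq_coe hr').exists_finset_coe
    have hcB : FB.card = n + 1 := by
      rw [← hFB, encard_coe_eq_coe_finsetCard] at hr; exact_mod_cast hr
    have hcB' : FB'.card = n + 1 := by
      rw [← hFB', encard_coe_eq_coe_finsetCard] at hr'; exact_mod_cast hr'
    have hdF : Disjoint FB FB' := by
      rw [← Finset.disjoint_coe, hFB, hFB']; exact hd
    have hE : B ∪ B' ⊆ M.E := union_subset hB.subset_ground hB'.subset_ground
    obtain ⟨w, hne, hcard⟩ := small_star (F := FB ∪ FB') (B := FB) (u := u) (v := v) (n := n + 1)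
      (by rw [Finset.card_union_of_disjoint hdF, hcB, hcB']; ring) Finset.subset_union_left hcB
      (by omega) (by rw [hFB]; exact (hM B hB.subset_ground).1 hB.indep)
    set D : Finset α := (FB ∪ FB').filter fun e => ¬ (u e = w ↔ v e = w) with hD
    have hDstar : (D : Set α) = star (B ∪ B') u v w := by
      ext e
      simp only [hD, star, Finset.coe_filter, mem_ofPred_eq, Finset.mem_union, mem_union, ← hFB,
        ← hFB', Finset.mem_coe]
    have hcut : Cut M (B ∪ B') (D : Set α) := by rw [hDstar]; exact hM.cut hE w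
    have hDsub : ∀ e ∈ D, e ∈ B ∨ e ∈ B' := fun e he => by
      have : e ∈ star (B ∪ B') u v w := by rw [← hDstar]; exact he
      exact this.1
    obtain ⟨e, he⟩ := hne
    -- both bases meet the star
    have hmeet : ∀ X : Set α, M.IsBase X → X ⊆ B ∪ B' → ∃ f ∈ D, f ∈ X := by
      intro X hX hXs
      by_contra hcon
      push Not at hcon
      have h1 := hcut X hXs hX.indep (disjoint_right.2 fun f hf => hcon f hf) e he
      have h2 : X = insert e X := hX.eq_of_subset_indep h1 (subset_insert _ _)
      exact hcon e he (h2 ▸ mem_insert _ _)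
    obtain ⟨b, hbD, hb⟩ := hmeet B hB subset_union_left
    obtain ⟨b', hb'D, hb'⟩ := hmeet B' hB' subset_union_right
    have hbB' : b ∉ B' := disjoint_left.1 hd hb
    have hb'B : b' ∉ B := disjoint_right.1 hd hb'
    have hne : b ≠ b' := fun h => hbB' (h ▸ hb')
    have hrest : ((D.erase b).erase b').card ≤ 1 := by
      rw [Finset.card_erase_of_mem (Finset.mem_erase.2 ⟨hne.symm, hb'D⟩),
        Finset.card_erase_of_mem hbD]
      omega
    rcases Nat.le_one_iff_eq_zero_or_eq_one.1 hrest with h0 | h1
    · -- two edges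
      have hD2 : ∀ f ∈ D, f = b ∨ f = b' := by
        intro f hf
        by_contra hcon
        push Not at hcon
        have : f ∈ (D.erase b).erase b' :=
          Finset.mem_erase.2 ⟨hcon.2, Finset.mem_erase.2 ⟨hcon.1, hf⟩⟩
        rw [Finset.card_eq_zero.1 h0] at this
        exact absurd this (Finset.notMem_empty _)
      have hDeq : (D : Set α) = {b, b'} := by
        ext f
        constructor
        · intro hf; exact hD2 f hf
        · rintro (rfl | rfl)
          · exact hbD
          · exact hb'D
      obtain ⟨c1, c2, c3⟩ := contract_bases hB hB' hr hb hb' hbB' hcut hbD (fun f hf hfD => by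
        rcases hD2 f hfD with rfl | rfl
        · exact absurd hf hbB'
        · rfl)
      have hbI : M.Indep {b} := hB.indep.subset (singleton_subset_iff.2 hb)
      obtain ⟨x, y, hg⟩ := ih (M ／ {b}) _ _ (hM.contract hbI) _ _ c1 c2
        (hd.mono sdiff_subset sdiff_subset) c3
      rw [hDeq] at hcut
      exact ⟨_, _, good_two hB hB' hd hr hb hb' hcut hg⟩
    · obtain ⟨c, hc⟩ := Finset.card_eq_one.1 h1
      have hcm : c ∈ (D.erase b).erase b' := by rw [hc]; exact Finset.mem_singleton_self _
      have hcD : c ∈ D := Finset.mem_of_mem_erase (Finset.mem_of_mem_erase hcm)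
      have hcb' : c ≠ b' := (Finset.mem_erase.1 hcm).1
      have hcb : c ≠ b := (Finset.mem_erase.1 (Finset.mem_erase.1 hcm).2).1
      have hD3 : ∀ f ∈ D, f = b ∨ f = b' ∨ f = c := by
        intro f hf
        by_contra hcon
        push Not at hcon
        have : f ∈ (D.erase b).erase b' :=
          Finset.mem_erase.2 ⟨hcon.2.1, Finset.mem_erase.2 ⟨hcon.1, hf⟩⟩
        rw [hc, Finset.mem_singleton] at this
        exact hcon.2.2 this
      rcases hDsub c hcD with hcB1 | hcB1
      · -- two edges of `B`
        have hDeq : (D : Set α) = {b, c, b'} := by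
          ext f
          constructor
          · intro hf
            rcases hD3 f hf with rfl | rfl | rfl
            · simp
            · simp
            · simp
          · rintro (rfl | rfl | rfl)
            · exact hbD
            · exact hcD
            · exact hb'D
        have hcB2 : c ∉ B' := disjoint_left.1 hd hcB1
        obtain ⟨c1, c2, c3⟩ := contract_bases hB hB' hr hb hb' hbB' hcut hbD (fun f hf hfD => by
          rcases hD3 f hfD with rfl | rfl | rfl
          · exact absurd hf hbB'
          · rfl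
          · exact absurd hf hcB2)
        have hbI : M.Indep {b} := hB.indep.subset (singleton_subset_iff.2 hb)
        obtain ⟨x, y, hg⟩ := ih (M ／ {b}) _ _ (hM.contract hbI) _ _ c1 c2
          (hd.mono sdiff_subset sdiff_subset) c3
        rw [hDeq] at hcut
        exact good_three hB hd hr hb hcB1 hcb.symm hb' hcut hg
      · -- two edges of `B'`
        have hDeq : (D : Set α) = {b', c, b} := by
          ext f
          constructor
          · intro hf
            rcases hD3 f hf with rfl | rfl | rfl
            · simp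
            · simp
            · simp
          · rintro (rfl | rfl | rfl)
            · exact hb'D
            · exact hcD
            · exact hbD
        have hcB2 : c ∉ B := disjoint_right.1 hd hcB1
        rw [union_comm] at hcut
        obtain ⟨c1, c2, c3⟩ := contract_bases hB' hB hr' hb' hb hb'B hcut hb'D (fun f hf hfD => by
          rcases hD3 f hfD with rfl | rfl | rfl
          · rfl
          · exact absurd hf hb'B
          · exact absurd hf hcB2)
        have hbI : M.Indep {b'} := hB'.indep.subset (singleton_subset_iff.2 hb')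
        obtain ⟨x, y, hg⟩ := ih (M ／ {b'}) _ _ (hM.contract hbI) _ _ c1 c2
          (hd.symm.mono sdiff_subset sdiff_subset) c3
        rw [hDeq] at hcut
        obtain ⟨X, Y, hXY⟩ := good_three hB' hd.symm hr' hb' hcB1 hcb'.symm hb hcut hg
        exact ⟨Y, X, hXY.symm⟩

end Pool.Agent.Lib.MP_2c7063_coS
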