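import Pool.Agent.Lib.MP_2c7063_coS.Extract

/-!
# Orders of a base `B` and an independent set `I` with `r - 1` elements
-/

namespace Pool.Agent.Lib.MP_2c7063_coS

open Set

variable {α : Type*}

theorem isBase_of {M : Matroid α} {X : Set α} {r : ℕ} (hX : M.Indep X) (hXr : X.encard = r)
    (hr : M.eRank = r) : M.IsBase X := by
  refine hX.isBase_of_eRk_ge ?_ ?_
  · exact finite_of_encard_eq_coe hXr
  · rw [hX.eRk_eq_encard, hXr, hr]

theorem sufficient {M₁ M₂ : Matroid α} {B I : Set α} {r : ℕ} (hB1 : M₁.IsBase B)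
    (hB2 : M₂.IsBase B) (hI1 : M₁.Indep I) (hI2 : M₂.Indep I) (hd : Disjoint B I)
    (hr : B.encard = r) (hI : I.encard + 1 = r)
    (hdens : ∀ A ⊆ B ∪ I, A.Nonempty → A.encard < M₁.eRk A + M₂.eRk A) :
    ∃ x y : ℕ → α, InjOn x (Iio r) ∧ x '' Iio r = B ∧ InjOn y (Iio (r - 1)) ∧
      y '' Iio (r - 1) = I ∧ ∀ i < r, M₁.IsBase ((B \ x '' Iio i) ∪ y '' Iio i) ∧
        M₂.IsBase ((I \ y '' Iio i) ∪ x '' Iio (i + 1)) := by
  classical
  have hBf : B.Finite := finite_of_encard_eq_coe hr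
  have hIf : I.Finite := by
    by_contra h
    rw [encard_eq_top h] at hI
    exact absurd hI (by simp)
  obtain ⟨R, rfl⟩ := hBf.exists_finset_coe
  obtain ⟨J, rfl⟩ := hIf.exists_finset_coe
  rw [encard_coe_eq_coe_finsetCard] at hr hI
  have hR : R.card = r := by exact_mod_cast hr
  have hJ : J.card + 1 = r := by exact_mod_cast hI
  have hd' : Disjoint R J := Finset.disjoint_coe.1 hd
  have e1 : M₁.eRank = r := by
    rw [← hB1.encard_eq_eRank, encard_coe_eq_coe_finsetCard, hr]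
  have e2 : M₂.eRank = r := by
    rw [← hB2.encard_eq_eRank, encard_coe_eq_coe_finsetCard, hr]
  obtain ⟨ξ, η, hc, hs, ht⟩ := exists_pos hd' hB1.indep hI1 hB2.indep hI2 hdens
  obtain ⟨S, T, hS, hSm, hT, hTm, hW⟩ := extract hc hd' hs ht hR hJ e1.le e2.le
  have hne : Nonempty α := by
    have : 0 < R.card := by omega
    obtain ⟨e, _⟩ := Finset.card_pos.1 this
    exact ⟨e⟩
  obtain ⟨x, hx1, hx2⟩ := exists_enum S r (fun m hm => (hS m hm).2) hSm
  obtain ⟨y, hy1, hy2⟩ := exists_enum T (r - 1) (fun m hm => (hT m (by omega)).2)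
    (fun m hm => hTm m (by omega))
  have hSr : S r = R := Finset.eq_of_subset_of_card_le (hS r le_rfl).1 (by
    rw [(hS r le_rfl).2, hR])
  have hTr : T (r - 1) = J := Finset.eq_of_subset_of_card_le (hT (r - 1) (by omega)).1 (by
    rw [(hT (r - 1) (by omega)).2]; omega)
  refine ⟨x, y, hx1, by rw [hx2 r le_rfl, hSr], hy1, by rw [hy2 _ le_rfl, hTr], fun i hi => ?_⟩
  obtain ⟨w1, w2⟩ := hW i hi
  have hSi := hS i hi.le
  have hSi1 := hS (i + 1) hi
  have hTi := hT i hi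
  rw [hx2 i hi.le, hx2 (i + 1) hi, hy2 i (by omega)]
  constructor
  · refine isBase_of w1 ?_ e1
    rw [← Finset.coe_sdiff, ← Finset.coe_union, encard_coe_eq_coe_finsetCard,
      Finset.card_union_of_disjoint (hd'.mono Finset.sdiff_subset hTi.1),
      Finset.card_sdiff_of_subset hSi.1, hSi.2, hTi.2, hR]
    congr 1
    omega
  · refine isBase_of w2 ?_ e2
    rw [← Finset.coe_sdiff, ← Finset.coe_union, encard_coe_eq_coe_finsetCard,
      Finset.card_union_of_disjoint (hd'.symm.mono Finset.sdiff_subset hSi1.1),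
      Finset.card_sdiff_of_subset hTi.1, hSi1.2, hTi.2]
    congr 1
    omega

theorem necessary {M₁ M₂ : Matroid α} {B I : Set α} {r : ℕ}
    (hI1 : M₁.Indep I) (hI2 : M₂.Indep I)
    (hr : B.encard = r) (hI : I.encard + 1 = r) {x y : ℕ → α} (hx : InjOn x (Iio r))
    (hxB : x '' Iio r = B)
    (hW : ∀ i < r, M₁.IsBase ((B \ x '' Iio i) ∪ y '' Iio i) ∧
        M₂.IsBase ((I \ y '' Iio i) ∪ x '' Iio (i + 1)))
    {A : Set α} (hA : A ⊆ B ∪ I) (hne : A.Nonempty) :
    A.encard < M₁.eRk A + M₂.eRk A := by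
  have hBf : B.Finite := finite_of_encard_eq_coe hr
  have hIf : I.Finite := by
    by_contra h
    rw [encard_eq_top h] at hI
    exact absurd hI (by simp)
  have hAf : A.Finite := (hBf.union hIf).subset hA
  have hAtop : A.encard ≠ ⊤ := hAf.encard_lt_top.ne
  by_cases hAB : ∃ e ∈ A, e ∈ B
  · obtain ⟨e, heA, heB⟩ := hAB
    rw [← hxB] at heB
    obtain ⟨i, hi, rfl⟩ := heB
    obtain ⟨w1, w2⟩ := hW i hi
    set W₁ := (B \ x '' Iio i) ∪ y '' Iio i with hW1
    set W₂ := (I \ y '' Iio i) ∪ x '' Iio (i + 1) with hW2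
    have h1 : (A ∩ W₁).encard ≤ M₁.eRk A :=
      (w1.indep.subset inter_subset_right).encard_le_eRk_of_subset inter_subset_left
    have h2 : (A ∩ W₂).encard ≤ M₂.eRk A :=
      (w2.indep.subset inter_subset_right).encard_le_eRk_of_subset inter_subset_left
    have h3 : (A ∩ W₁) ∪ (A ∩ W₂) = A := by
      rw [← inter_union_distrib_left]
      refine inter_eq_left.2 fun a ha => ?_
      rcases hA ha with h | h
      · by_cases h' : a ∈ x '' Iio i
        · refine Or.inr (Or.inr ?_)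
          obtain ⟨j, hj, rfl⟩ := h'
          exact ⟨j, by simp only [mem_Iio] at hj ⊢; omega, rfl⟩
        · exact Or.inl (Or.inl ⟨h, h'⟩)
      · by_cases h' : a ∈ y '' Iio i
        · exact Or.inl (Or.inr h')
        · exact Or.inr (Or.inl ⟨h, h'⟩)
    have h4 : x i ∈ (A ∩ W₁) ∩ (A ∩ W₂) := by
      refine ⟨⟨heA, Or.inl ⟨?_, ?_⟩⟩, heA, Or.inr ⟨i, by simp, rfl⟩⟩
      · rw [← hxB]; exact ⟨i, hi, rfl⟩
      · rintro ⟨j, hj, hji⟩
        have hj' : j < i := hj
        have hi' : i < r := hi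
        have := hx (show j ∈ Iio r by simp only [mem_Iio]; omega) (show i ∈ Iio r from hi) hji
        omega
    have h5 : 1 ≤ ((A ∩ W₁) ∩ (A ∩ W₂)).encard := one_le_encard_iff_nonempty.2 ⟨_, h4⟩
    have h6 := encard_union_add_encard_inter (A ∩ W₁) (A ∩ W₂)
    rw [h3] at h6
    calc A.encard < A.encard + 1 := ENat.lt_add_one_iff hAtop |>.2 le_rfl
      _ ≤ A.encard + ((A ∩ W₁) ∩ (A ∩ W₂)).encard := by gcongr
      _ = (A ∩ W₁).encard + (A ∩ W₂).encard := h6
      _ ≤ M₁.eRk A + M₂.eRk A := add_le_add h1 h2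
  · push Not at hAB
    have hAI : A ⊆ I := fun a ha => (hA ha).resolve_left (hAB a ha)
    rw [(hI1.subset hAI).eRk_eq_encard, (hI2.subset hAI).eRk_eq_encard]
    have h1 : 1 ≤ A.encard := one_le_encard_iff_nonempty.2 hne
    calc A.encard < A.encard + 1 := ENat.lt_add_one_iff hAtop |>.2 le_rfl
      _ ≤ A.encard + A.encard := by gcongr

theorem main {M₁ M₂ : Matroid α} {B I : Set α} {r : ℕ} (hB1 : M₁.IsBase B)
    (hB2 : M₂.IsBase B) (hI1 : M₁.Indep I) (hI2 : M₂.Indep I) (hd : Disjoint B I)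
    (hr : B.encard = r) (hI : I.encard + 1 = r) :
    (∃ x y : ℕ → α, InjOn x (Iio r) ∧ x '' Iio r = B ∧ InjOn y (Iio (r - 1)) ∧
      y '' Iio (r - 1) = I ∧ ∀ i < r, M₁.IsBase ((B \ x '' Iio i) ∪ y '' Iio i) ∧
        M₂.IsBase ((I \ y '' Iio i) ∪ x '' Iio (i + 1))) ↔
    ∀ A ⊆ B ∪ I, A.Nonempty → A.encard < M₁.eRk A + M₂.eRk A := by
  constructor
  · rintro ⟨x, y, hx, hxB, _, _, hW⟩ A hA hne
    exact necessary hI1 hI2 hr hI hx hxB hW hA hne
  · exact sufficient hB1 hB2 hI1 hI2 hd hr hI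

end Pool.Agent.Lib.MP_2c7063_coS
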