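import Pool.Agent.Lib.MP_2c7063_coS.Span

/-!
# Positive overlaps and the extraction of two orders
-/

namespace Pool.Agent.Lib.MP_2c7063_coS

open Set

variable {α : Type*}

theorem exists_opt (N : ℤ) {M₁ M₂ : Matroid α} {R I : Finset α} (hd : Disjoint R I)
    (hR1 : M₁.Indep (R : Set α)) (hI1 : M₁.Indep (I : Set α))
    (hR2 : M₂.Indep (R : Set α)) (hI2 : M₂.Indep (I : Set α)) :
    ∃ ξ η, Opt N M₁ M₂ R I ξ η := by
  have h0 : Cfg M₁ M₂ R I (fun _ => 0) (fun _ => 0) := by
    constructor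
    · intro x
      by_cases hx : x < 0
      · refine hR1.subset ?_
        rintro e (⟨he, _⟩ | ⟨he, h'⟩)
        · exact he
        · exact absurd hx (not_lt.2 h')
      · refine hI1.subset ?_
        rintro e (⟨he, h'⟩ | ⟨he, _⟩)
        · exact absurd h' hx
        · exact he
    · intro x
      by_cases hx : x < 0
      · refine hI2.subset ?_
        rintro e (⟨he, _⟩ | ⟨he, h'⟩)
        · exact he
        · exact absurd hx (not_lt.2 h')
      · refine hR2.subset ?_
        rintro e (⟨he, h'⟩ | ⟨he, _⟩)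
        · exact absurd h' hx
        · exact he
  set S : Set ℕ := {n | ∃ ξ η, Cfg M₁ M₂ R I ξ η ∧ En N R I ξ η = n} with hS
  have hne : S.Nonempty := ⟨_, _, _, h0, rfl⟩
  obtain ⟨ξ, η, hc, hE⟩ := Nat.sInf_mem hne
  exact ⟨ξ, η, hc, hd, fun ξ' η' h' => by rw [hE]; exact Nat.sInf_le ⟨ξ', η', h', rfl⟩⟩

/-- If no nonempty set is tight for the pair, there is a valid configuration with positive
overlaps. -/
theorem exists_pos {M₁ M₂ : Matroid α} {R I : Finset α} (hd : Disjoint R I)
    (hR1 : M₁.Indep (R : Set α)) (hI1 : M₁.Indep (I : Set α))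
    (hR2 : M₂.Indep (R : Set α)) (hI2 : M₂.Indep (I : Set α))
    (hdens : ∀ A : Set α, A ⊆ (R : Set α) ∪ I → A.Nonempty → A.encard < M₁.eRk A + M₂.eRk A) :
    ∃ ξ η, Cfg M₁ M₂ R I ξ η ∧ (∀ s ∈ R, η s < ξ s) ∧ (∀ t ∈ I, ξ t < η t) := by
  classical
  obtain ⟨ξ, η, h⟩ := exists_opt ((R ∪ I).card : ℤ) hd hR1 hI1 hR2 hI2
  set N : ℤ := ((R ∪ I).card : ℤ) with hN
  have key : ∀ e, e ∈ R ∨ e ∈ I → df N R ξ η e < (R ∪ I).card := by
    by_contra hcon
    push Not at hcon
    obtain ⟨e0, he0, hbig⟩ := hcon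
    have he0' : e0 ∈ R ∪ I := Finset.mem_union.2 he0
    obtain ⟨v, hv, hv'⟩ : ∃ v ∈ Finset.range (R ∪ I).card,
        v ∉ ((R ∪ I).erase e0).image (df N R ξ η) := by
      refine Finset.exists_mem_notMem_of_card_lt_card ?_
      rw [Finset.card_range]
      refine lt_of_le_of_lt Finset.card_image_le ?_
      exact Finset.card_erase_lt_of_mem he0'
    have hv := Finset.mem_range.1 hv
    have hgap : Gap N R I ξ η (v + 1) := by
      intro e he hev
      by_cases hee : e = e0
      · subst hee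
        omega
      · exact hv' (Finset.mem_image.2 ⟨e, Finset.mem_erase.2 ⟨hee, Finset.mem_union.2 he⟩, by
          simpa using hev⟩)
    have ht := tight h (Nat.le_add_left 1 v) hgap
    have hmem : e0 ∈ hi N R I ξ η (v + 1) := ⟨he0, by omega⟩
    have := hdens (hi N R I ξ η (v + 1)) (fun e he => he.1) ⟨e0, hmem⟩
    rw [ht] at this
    exact lt_irrefl _ this
  refine ⟨ξ, η, h.cfg, fun s hs => ?_, fun t ht => ?_⟩
  · have := key s (Or.inl hs)
    unfold df at this
    rw [if_pos hs] at this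
    omega
  · have := key t (Or.inr ht)
    unfold df at this
    rw [if_neg (Finset.disjoint_right.1 hd ht)] at this
    omega

open Classical in
/-- The number of elements of `P` with `τ ≤ x`. -/
noncomputable def cnt (P : Finset α) (τ : α → ℤ) (x : ℤ) : ℕ := (P.filter fun e => τ e ≤ x).card

theorem cnt_mono (P : Finset α) (τ : α → ℤ) {x y : ℤ} (h : x ≤ y) : cnt P τ x ≤ cnt P τ y := by
  classical
  refine Finset.card_le_card fun e he => ?_
  rw [Finset.mem_filter] at he ⊢
  exact ⟨he.1, he.2.trans h⟩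

theorem cnt_le (P : Finset α) (τ : α → ℤ) (x : ℤ) : cnt P τ x ≤ P.card := by
  classical
  exact Finset.card_filter_le _ _

open Classical in
/-- The set present as a finite set. -/
theorem L_eq (P Q : Finset α) (τ : α → ℤ) (x : ℤ) :
    L P Q τ x = (((P \ P.filter fun e => τ e ≤ x) ∪ (Q.filter fun e => τ e ≤ x) : Finset α) :
      Set α) := by
  ext e
  simp only [L, mem_ofPred_eq, Finset.coe_union, Finset.coe_sdiff, Finset.coe_filter, mem_union,
    mem_sdiff, Finset.mem_coe]
  constructor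
  · rintro (⟨h, h'⟩ | ⟨h, h'⟩)
    · exact Or.inl ⟨h, fun h2 => absurd h2.2 (not_le.2 h')⟩
    · exact Or.inr ⟨h, h'⟩
  · rintro (⟨h, h'⟩ | ⟨h, h'⟩)
    · exact Or.inl ⟨h, not_le.1 fun h2 => h' ⟨h, h2⟩⟩
    · exact Or.inr ⟨h, h'⟩

theorem card_L {P Q : Finset α} (hd : Disjoint P Q) {τ : α → ℤ} {x : ℤ} {M : Matroid α}
    (hL : M.Indep (L P Q τ x)) {r : ℕ} (hr : M.eRank ≤ r) :
    P.card + cnt Q τ x ≤ r + cnt P τ x := by
  classical
  have h1 := hL.encard_le_eRank.trans hr
  rw [L_eq, encard_coe_eq_coe_finsetCard, Finset.card_union_of_disjoint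
    (hd.mono Finset.sdiff_subset (Finset.filter_subset _ _)), Finset.card_sdiff_of_subset
    (Finset.filter_subset _ _)] at h1
  have h2 : (P.card - cnt P τ x) + cnt Q τ x ≤ r := by exact_mod_cast h1
  have h3 := cnt_le P τ x
  omega

end Pool.Agent.Lib.MP_2c7063_coS
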