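import Pool.Agent.Lib.MP_2c7063_coS.Basic

/-!
# Shifting the elements with large shortage
-/

namespace Pool.Agent.Lib.MP_2c7063_coS

open Set

variable {α : Type*}

open Classical in
/-- Shift the times of the elements of `A` by `k`. -/
noncomputable def sh (A : Set α) (k : ℤ) (τ : α → ℤ) (e : α) : ℤ := if e ∈ A then τ e + k else τ e

theorem sh_mem {A : Set α} {k : ℤ} {τ : α → ℤ} {e : α} (he : e ∈ A) : sh A k τ e = τ e + k :=
  if_pos he

theorem sh_notMem {A : Set α} {k : ℤ} {τ : α → ℤ} {e : α} (he : e ∉ A) : sh A k τ e = τ e :=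
  if_neg he

theorem df_sh {N : ℤ} {R : Finset α} {ξ η : α → ℤ} (A : Set α) (k : ℤ) (e : α) :
    df N R (sh A k ξ) (sh A k η) e = df N R ξ η e := by
  classical
  unfold df
  by_cases he : e ∈ A
  · simp only [sh_mem he]
    split_ifs <;> congr 1 <;> ring
  · simp only [sh_notMem he]

theorem En_sh {N : ℤ} {R I : Finset α} {ξ η : α → ℤ} (A : Set α) (k : ℤ) :
    En N R I (sh A k ξ) (sh A k η) = En N R I ξ η := by
  unfold En
  exact Finset.sum_congr rfl fun e _ => by rw [df_sh]

/-- If `J` is independent and spanned by `G`, `G ∪ T` is independent, `T` finite and disjoint from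
`G`, then `J ∪ T` is independent. -/
theorem indep_union_of {M : Matroid α} {J G : Set α} (hJ : M.Indep J) (hJG : J ⊆ M.closure G)
    (T : Finset α) (hd : Disjoint G (T : Set α)) (hGT : M.Indep (G ∪ T)) : M.Indep (J ∪ T) := by
  classical
  induction T using Finset.induction_on with
  | empty => simpa using hJ
  | insert t T htT ih =>
    rw [Finset.coe_insert] at hd hGT ⊢
    have hd' : Disjoint G (T : Set α) := hd.mono_right (subset_insert _ _)
    have hGT' : M.Indep (G ∪ T) := hGT.subset (union_subset_union_right _ (subset_insert _ _))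
    have h1 := ih hd' hGT'
    rw [union_insert] at hGT ⊢
    have htG : t ∉ G := fun h => (disjoint_left.1 hd h) (mem_insert _ _)
    have htGT : t ∉ G ∪ (T : Set α) := by
      rintro (h | h)
      · exact htG h
      · exact htT (Finset.mem_coe.1 h)
    have h2 := (hGT'.insert_indep_iff_of_notMem htGT).1 hGT
    have h3 : M.closure (J ∪ T) ⊆ M.closure (G ∪ T) := by
      refine Matroid.closure_subset_closure_of_subset_closure (union_subset ?_ ?_)
      · exact hJG.trans (M.closure_subset_closure subset_union_left)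
      · exact subset_union_right.trans (M.subset_closure _ hGT'.subset_ground)
    exact h1.insert_indep_iff.2 (Or.inl ⟨h2.1, fun h => h2.2 (h3 h)⟩)

/-- The elements of shortage at least `m`. -/
def hi (N : ℤ) (R I : Finset α) (ξ η : α → ℤ) (m : ℕ) : Set α :=
  {e | (e ∈ R ∨ e ∈ I) ∧ m ≤ df N R ξ η e}

/-- No element has shortage `m - 1`. -/
def Gap (N : ℤ) (R I : Finset α) (ξ η : α → ℤ) (m : ℕ) : Prop :=
  ∀ e, e ∈ R ∨ e ∈ I → df N R ξ η e ≠ m - 1

theorem hi_swap {N : ℤ} {R I : Finset α} (hd : Disjoint R I) (ξ η : α → ℤ) (m : ℕ) :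
    hi N I R η ξ m = hi N R I ξ η m := by
  ext e
  constructor
  · rintro ⟨h, h'⟩
    exact ⟨h.symm, by rwa [df_swap hd h.symm] at h'⟩
  · rintro ⟨h, h'⟩
    exact ⟨h.symm, by rwa [df_swap hd h]⟩

theorem Gap.swap {N : ℤ} {R I : Finset α} (hd : Disjoint R I) {ξ η : α → ℤ} {m : ℕ}
    (h : Gap N R I ξ η m) : Gap N I R η ξ m := fun e he => by
  rw [df_swap hd he.symm]; exact h e he.symm

theorem hi_rev {N : ℤ} {R I : Finset α} (ξ η : α → ℤ) (m : ℕ) :
    hi N R I (fun e => - η e) (fun e => - ξ e) m = hi N R I ξ η m := by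
  unfold hi
  simp only [df_rev]

theorem Gap.rev {N : ℤ} {R I : Finset α} {ξ η : α → ℤ} {m : ℕ}
    (h : Gap N R I ξ η m) : Gap N R I (fun e => - η e) (fun e => - ξ e) m := fun e he => by
  rw [df_rev]; exact h e he

theorem hi_sh {N : ℤ} {R I : Finset α} (ξ η : α → ℤ) (m : ℕ) (A : Set α) (k : ℤ) :
    hi N R I (sh A k ξ) (sh A k η) m = hi N R I ξ η m := by
  unfold hi
  simp only [df_sh]

theorem Gap.sh {N : ℤ} {R I : Finset α} {ξ η : α → ℤ} {m : ℕ}
    (h : Gap N R I ξ η m) (A : Set α) (k : ℤ) : Gap N R I (sh A k ξ) (sh A k η) m := fun e he => by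
  rw [df_sh]; exact h e he

theorem shift_line {N : ℤ} {M₁ M₂ : Matroid α} {R I : Finset α} {ξ η : α → ℤ}
    (h : Opt N M₁ M₂ R I ξ η) {m : ℕ} (hm : 1 ≤ m) (hgap : Gap N R I ξ η m) (x : ℤ) :
    M₁.Indep (L R I (sh (hi N R I ξ η m) 1 ξ) x) := by
  classical
  set A := hi N R I ξ η m with hA
  set T : Finset α := I.filter fun t => df N R ξ η t < m ∧ ξ t = x with hT
  have hTL : (T : Set α) ⊆ L R I ξ x := by
    intro t ht
    have := (Finset.mem_filter.1 (Finset.mem_coe.1 ht))
    exact Or.inr ⟨this.1, this.2.2.le⟩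
  set J : Set α := L R I (sh A 1 ξ) x \ T with hJ
  have hJL : J ⊆ L R I ξ (x - 1) := by
    rintro e ⟨(⟨he, he'⟩ | ⟨he, he'⟩), heT⟩
    · refine Or.inl ⟨he, ?_⟩
      by_cases heA : e ∈ A
      · rw [sh_mem heA] at he'; omega
      · rw [sh_notMem heA] at he'; omega
    · refine Or.inr ⟨he, ?_⟩
      by_cases heA : e ∈ A
      · rw [sh_mem heA] at he'; omega
      · rw [sh_notMem heA] at he'
        have h1 : ξ e ≠ x := fun h' => heT (by
          simp only [hT, Finset.coe_filter, mem_ofPred_eq]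
          exact ⟨he, by
            by_contra h2
            exact heA ⟨Or.inr he, not_lt.1 h2⟩, h'⟩)
        omega
  have hJi : M₁.Indep J := (h.cfg.l1 _).subset hJL
  have hJG : J ⊆ M₁.closure (L R I ξ x \ T) := by
    rintro e ⟨he0, heT⟩
    have hsub := M₁.subset_closure (L R I ξ x \ T) (((h.cfg.l1 x).subset sdiff_subset).subset_ground)
    rcases he0 with ⟨he, he'⟩ | ⟨he, he'⟩
    · by_cases hlt : x < ξ e
      · exact hsub ⟨Or.inl ⟨he, hlt⟩, heT⟩
      · by_cases heA : e ∈ A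
        · rw [sh_mem heA] at he'
          have hex : ξ e = x := by omega
          have h3 := step3 h hm hgap he heA.2
          rw [hex] at h3
          refine M₁.closure_subset_closure ?_ h3
          rintro e' ⟨he1, he2⟩
          refine ⟨he1, fun he3 => he2 ?_⟩
          exact (Finset.mem_filter.1 (Finset.mem_coe.1 he3))
        · rw [sh_notMem heA] at he'; exact absurd he' hlt
    · refine hsub ⟨Or.inr ⟨he, ?_⟩, heT⟩
      by_cases heA : e ∈ A
      · rw [sh_mem heA] at he'; omega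
      · rw [sh_notMem heA] at he'; exact he'
  have hfin := indep_union_of hJi hJG T disjoint_sdiff_left (by
    rw [sdiff_union_of_subset hTL]; exact h.cfg.l1 x)
  refine hfin.subset ?_
  intro e he
  by_cases heT : e ∈ (T : Set α)
  · exact Or.inr heT
  · exact Or.inl ⟨he, heT⟩

theorem Opt.shift_one {N : ℤ} {M₁ M₂ : Matroid α} {R I : Finset α} {ξ η : α → ℤ}
    (h : Opt N M₁ M₂ R I ξ η) {m : ℕ} (hm : 1 ≤ m) (hgap : Gap N R I ξ η m) :
    Opt N M₁ M₂ R I (sh (hi N R I ξ η m) 1 ξ) (sh (hi N R I ξ η m) 1 η) := by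
  refine ⟨⟨shift_line h hm hgap, ?_⟩, h.dis, fun ξ' η' h' => ?_⟩
  · have := shift_line h.swap hm (hgap.swap h.dis)
    rwa [hi_swap h.dis] at this
  · rw [En_sh]; exact h.min _ _ h'

theorem sh_sh (A : Set α) (k l : ℤ) (τ : α → ℤ) : sh A k (sh A l τ) = sh A (l + k) τ := by
  funext e
  by_cases he : e ∈ A
  · rw [sh_mem he, sh_mem he, sh_mem he]; ring
  · rw [sh_notMem he, sh_notMem he, sh_notMem he]

theorem sh_zero (A : Set α) (τ : α → ℤ) : sh A 0 τ = τ := by
  funext e
  by_cases he : e ∈ A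
  · rw [sh_mem he]; ring
  · rw [sh_notMem he]

theorem Opt.shift_nat {N : ℤ} {M₁ M₂ : Matroid α} {R I : Finset α} {ξ η : α → ℤ}
    (h : Opt N M₁ M₂ R I ξ η) {m : ℕ} (hm : 1 ≤ m) (hgap : Gap N R I ξ η m) (k : ℕ) :
    Opt N M₁ M₂ R I (sh (hi N R I ξ η m) k ξ) (sh (hi N R I ξ η m) k η) := by
  induction k with
  | zero => simpa [sh_zero] using h
  | succ k ih =>
    have := ih.shift_one hm (hgap.sh _ _)
    rw [hi_sh, sh_sh, sh_sh] at this
    simpa using this

theorem Opt.shift {N : ℤ} {M₁ M₂ : Matroid α} {R I : Finset α} {ξ η : α → ℤ}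
    (h : Opt N M₁ M₂ R I ξ η) {m : ℕ} (hm : 1 ≤ m) (hgap : Gap N R I ξ η m) (k : ℤ) :
    Opt N M₁ M₂ R I (sh (hi N R I ξ η m) k ξ) (sh (hi N R I ξ η m) k η) := by
  obtain ⟨n, rfl | rfl⟩ := k.eq_nat_or_neg
  · exact h.shift_nat hm hgap n
  · have := (h.rev.shift_nat hm hgap.rev n).rev
    rw [hi_rev] at this
    have e1 : ∀ τ : α → ℤ, (fun e => - sh (hi N R I ξ η m) (n : ℤ) (fun e => - τ e) e) =
        sh (hi N R I ξ η m) (-(n : ℤ)) τ := by
      intro τ
      funext e
      by_cases he : e ∈ hi N R I ξ η m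
      · rw [sh_mem he, sh_mem he]; ring
      · rw [sh_notMem he, sh_notMem he]; ring
    rw [e1, e1] at this
    exact this

end Pool.Agent.Lib.MP_2c7063_coS
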