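import Pool.Agent.Lib.MP_2c7063_coS.Final2
import Pool.Agent.Lib.MP_2c7063_co.Main

/-!
# Good cyclic orderings in rank at most four
-/

namespace Pool.Agent.Lib.MP_2c7063_coS

open Set
open scoped Matroid

variable {α : Type*}

/-- Orders of all but at most one of the elements are enough. -/
theorem good_of_partial {M : Matroid α} {B B' : Set α} (hB : M.IsBase B) (hB' : M.IsBase B')
    {m k : ℕ} (hk : B.encard = k) (hkm : k ≤ m + 1) {x y : ℕ → α} (hx : InjOn x (Iio m))
    (hxB : x '' Iio m ⊆ B) (hy : InjOn y (Iio m)) (hyB : y '' Iio m ⊆ B')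
    (hW : ∀ i ≤ m, M.IsBase ((B \ x '' Iio i) ∪ y '' Iio i) ∧
      M.IsBase ((B' \ y '' Iio i) ∪ x '' Iio i)) :
    ∃ x y, Good M B B' k x y := by
  have hk' : B'.encard = k := by rw [hB'.encard_eq_eRank, ← hB.encard_eq_eRank, hk]
  have cx : (x '' Iio m).encard = m := by
    rw [hx.encard_image, ← Finset.coe_Iio, encard_coe_eq_coe_finsetCard, Nat.card_Iio]
  have cy : (y '' Iio m).encard = m := by
    rw [hy.encard_image, ← Finset.coe_Iio, encard_coe_eq_coe_finsetCard, Nat.card_Iio]
  have hmk : m ≤ k := by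
    have := encard_le_encard hxB
    rw [cx, hk] at this
    exact_mod_cast this
  have hBf : B.Finite := finite_of_encard_eq_coe hk
  have hBf' : B'.Finite := finite_of_encard_eq_coe hk'
  rcases (show k = m ∨ k = m + 1 by omega) with rfl | rfl
  · exact ⟨x, y, hx, (hBf.subset hxB).eq_of_subset_of_encard_le hxB (by rw [hk, cx]), hy,
      (hBf'.subset hyB).eq_of_subset_of_encard_le hyB (by rw [hk', cy]), hW⟩
  · obtain ⟨e, he⟩ : ∃ e, B \ x '' Iio m = {e} := by
      rw [← encard_eq_one]
      have := encard_sdiff_add_encard_of_subset hxB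
      rw [cx, hk, Nat.cast_add, add_comm (m : ℕ∞) ((1 : ℕ) : ℕ∞)] at this
      exact_mod_cast WithTop.add_right_cancel (WithTop.coe_ne_top (a := m)) this
    obtain ⟨f, hf⟩ : ∃ f, B' \ y '' Iio m = {f} := by
      rw [← encard_eq_one]
      have := encard_sdiff_add_encard_of_subset hyB
      rw [cy, hk', Nat.cast_add, add_comm (m : ℕ∞) ((1 : ℕ) : ℕ∞)] at this
      exact_mod_cast WithTop.add_right_cancel (WithTop.coe_ne_top (a := m)) this
    have one : ∀ g : α, (fun _ : ℕ => g) '' Iio 1 = {g} := by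
      intro g
      ext t
      constructor
      · rintro ⟨_, _, rfl⟩; rfl
      · rintro rfl; exact ⟨0, by simp, rfl⟩
    have inj1 : ∀ g : α, InjOn (fun _ : ℕ => g) (Iio 1) := by
      intro g i hi j hj _
      simp only [mem_Iio] at hi hj
      omega
    have hxe : glue m x (fun _ => e) '' Iio (m + 1) = B := by
      rw [glue_high, one, ← he, union_comm, sdiff_union_of_subset hxB]
    have hyf : glue m y (fun _ => f) '' Iio (m + 1) = B' := by
      rw [glue_high, one, ← hf, union_comm, sdiff_union_of_subset hyB]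
    refine ⟨glue m x fun _ => e, glue m y fun _ => f, glue_injOn rfl hx (inj1 e) ?_, hxe,
      glue_injOn rfl hy (inj1 f) ?_, hyf, fun i hi => ?_⟩
    · rw [one, ← he]; exact disjoint_sdiff_right
    · rw [one, ← hf]; exact disjoint_sdiff_right
    · rcases Nat.lt_or_eq_of_le hi with h | rfl
      · rw [glue_low (Nat.lt_succ_iff.1 h), glue_low (Nat.lt_succ_iff.1 h)]
        exact hW i (Nat.lt_succ_iff.1 h)
      · rw [hxe, hyf, Set.sdiff_self, Set.sdiff_self, empty_union, empty_union]
        exact ⟨hB', hB⟩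

theorem small [Nonempty α] {M : Matroid α} {B B' : Set α} {k : ℕ} (hB : M.IsBase B)
    (hB' : M.IsBase B') (hd : Disjoint B B') (hk : B.encard = k) (h4 : k ≤ 4) :
    ∃ x y, Good M B B' k x y := by
  have hBf : B.Finite := finite_of_encard_eq_coe hk
  have hn : B.ncard = k := by rw [Set.ncard, hk]; rfl
  rcases (show k ≤ 1 ∨ k = 2 ∨ (3 ≤ k ∧ k ≤ 4) by omega) with h1 | h2 | ⟨h3, _⟩
  · refine good_of_partial (m := 0) hB hB' hk h1 (x := fun _ => Classical.arbitrary α)
      (y := fun _ => Classical.arbitrary α) ?_ ?_ ?_ ?_ ?_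
    · intro i hi; exact absurd hi (Nat.not_lt_zero _)
    · rintro _ ⟨i, hi, _⟩; exact absurd hi (Nat.not_lt_zero _)
    · intro i hi; exact absurd hi (Nat.not_lt_zero _)
    · rintro _ ⟨i, hi, _⟩; exact absurd hi (Nat.not_lt_zero _)
    · intro i hi
      obtain rfl : i = 0 := Nat.le_zero.1 hi
      have h0 : ∀ z : ℕ → α, z '' Iio 0 = ∅ := by
        intro z
        rw [image_eq_empty]
        ext j
        simp
      rw [h0, sdiff_empty, union_empty, sdiff_empty, union_empty]
      exact ⟨hB, hB'⟩
  · obtain ⟨e, he⟩ : B.Nonempty := by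
      rw [← encard_pos, hk, h2]
      exact_mod_cast Nat.zero_lt_two
    obtain ⟨f, hf, _, w1, w2⟩ := Pool.Agent.Lib.MP_2c7063_co.symm_exchange hB hB' he
      (disjoint_left.1 hd he)
    have one : ∀ g : α, (fun _ : ℕ => g) '' Iio 1 = {g} := by
      intro g
      ext t
      constructor
      · rintro ⟨_, _, rfl⟩; rfl
      · rintro rfl; exact ⟨0, by simp, rfl⟩
    have inj1 : ∀ g : α, InjOn (fun _ : ℕ => g) (Iio 1) := by
      intro g i hi j hj _
      simp only [mem_Iio] at hi hj
      omega
    refine good_of_partial (m := 1) hB hB' hk (by omega) (x := fun _ => e) (y := fun _ => f)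
      (inj1 e) ?_ (inj1 f) ?_ ?_
    · rw [one]; exact singleton_subset_iff.2 he
    · rw [one]; exact singleton_subset_iff.2 hf
    · intro i hi
      rcases (show i = 0 ∨ i = 1 by omega) with rfl | rfl
      · have h0 : ∀ z : ℕ → α, z '' Iio 0 = ∅ := by
          intro z
          rw [image_eq_empty]
          ext j
          simp
        rw [h0, h0, sdiff_empty, union_empty, sdiff_empty, union_empty]
        exact ⟨hB, hB'⟩
      · rw [one, one, union_singleton, union_singleton]
        exact ⟨w1, w2⟩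
  · obtain ⟨A, hA, hA3⟩ : ∃ A ⊆ B, A.ncard = 3 := Set.exists_subset_card_eq (by rw [hn]; exact h3)
    obtain ⟨a, b, ha, hb, haA, hbB, hW⟩ :=
      Pool.Agent.Lib.MP_2c7063_co.three hB hB' hd hA hA3
    set x : ℕ → α := fun i => if h : i < 3 then a ⟨i, h⟩ else Classical.arbitrary α with hxdef
    set y : ℕ → α := fun i => if h : i < 3 then b ⟨i, h⟩ else Classical.arbitrary α with hydef
    have im : ∀ (c : Fin 3 → α) (i : ℕ), i ≤ 3 →
        (fun i : ℕ => if h : i < 3 then c ⟨i, h⟩ else Classical.arbitrary α) '' Iio i =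
          c '' {j | (j : ℕ) < i} := by
      intro c i hi
      ext t
      constructor
      · rintro ⟨j, hj, rfl⟩
        have hj3 : j < 3 := lt_of_lt_of_le hj hi
        refine ⟨⟨j, hj3⟩, hj, ?_⟩
        simp only [dif_pos hj3]
      · rintro ⟨j, hj, rfl⟩
        refine ⟨j, hj, ?_⟩
        simp only [dif_pos j.2]
    have inj : ∀ c : Fin 3 → α, Function.Injective c →
        InjOn (fun i : ℕ => if h : i < 3 then c ⟨i, h⟩ else Classical.arbitrary α) (Iio 3) := by
      intro c hc i hi j hj hij
      simp only [mem_Iio] at hi hj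
      simp only [dif_pos hi, dif_pos hj] at hij
      exact congrArg Fin.val (hc hij)
    refine good_of_partial (m := 3) hB hB' hk (by omega) (x := x) (y := y) (inj a ha) ?_
      (inj b hb) ?_ ?_
    · rw [hxdef, im a 3 le_rfl]
      rintro _ ⟨j, _, rfl⟩
      exact hA (haA ▸ mem_range_self j)
    · rw [hydef, im b 3 le_rfl]
      rintro _ ⟨j, _, rfl⟩
      exact hbB (mem_range_self j)
    · intro i hi
      rw [hxdef, hydef, im a i hi, im b i hi]
      exact hW i hi

end Pool.Agent.Lib.MP_2c7063_coS
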