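import Pool.Agent.Lib.MP_2c7063_coS.Shift

/-!
# A gap of the shortages gives a set which is tight in both matroids
-/

namespace Pool.Agent.Lib.MP_2c7063_coS

open Set

variable {α : Type*}

/-- The part in `A` of the set present at time `y`. -/
def LA (R I : Finset α) (A : Set α) (ξ : α → ℤ) (y : ℤ) : Set α :=
  {e | e ∈ A ∧ ((e ∈ R ∧ y < ξ e) ∨ (e ∈ I ∧ ξ e ≤ y))}

/-- The elements of `R` outside `A` that leave after `a` and those of `I` outside `A` that enter at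
`b` or earlier. -/
def W (R I : Finset α) (A : Set α) (ξ : α → ℤ) (a b : ℤ) : Set α :=
  {e | e ∉ A ∧ ((e ∈ R ∧ a < ξ e) ∨ (e ∈ I ∧ ξ e ≤ b))}

theorem L_sh (R I : Finset α) (A : Set α) (ξ : α → ℤ) (k x : ℤ) :
    L R I (sh A k ξ) x = LA R I A ξ (x - k) ∪ W R I A ξ x x := by
  ext e
  by_cases he : e ∈ A
  · simp only [L, LA, W, mem_ofPred_eq, mem_union, sh_mem he, he, true_and, not_true,
      false_and, or_false]
    constructor
    · rintro (⟨h, h'⟩ | ⟨h, h'⟩)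
      · exact Or.inl ⟨h, by omega⟩
      · exact Or.inr ⟨h, by omega⟩
    · rintro (⟨h, h'⟩ | ⟨h, h'⟩)
      · exact Or.inl ⟨h, by omega⟩
      · exact Or.inr ⟨h, by omega⟩
  · simp only [L, LA, W, mem_ofPred_eq, mem_union, sh_notMem he, he, true_and, not_false_eq_true,
      false_and, false_or]

theorem indep_mix {N : ℤ} {M₁ M₂ : Matroid α} {R I : Finset α} {ξ η : α → ℤ}
    (h : Opt N M₁ M₂ R I ξ η) {m : ℕ} (hm : 1 ≤ m) (hgap : Gap N R I ξ η m) (x y : ℤ) :
    M₁.Indep (LA R I (hi N R I ξ η m) ξ y ∪ W R I (hi N R I ξ η m) ξ x x) := by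
  have := (h.shift hm hgap (x - y)).cfg.l1 x
  rw [L_sh] at this
  simpa using this

theorem span_one {N : ℤ} {M₁ M₂ : Matroid α} {R I : Finset α} {ξ η : α → ℤ}
    (h : Opt N M₁ M₂ R I ξ η) {m : ℕ} (hm : 1 ≤ m) (hgap : Gap N R I ξ η m)
    {s : α} (hs : s ∈ R) (hd : m ≤ df N R ξ η s) (x : ℤ) :
    s ∈ M₁.closure (LA R I (hi N R I ξ η m) ξ (ξ s) ∪ W R I (hi N R I ξ η m) ξ x (x - 1)) := by
  set A := hi N R I ξ η m with hA
  have hsA : s ∈ A := ⟨Or.inl hs, hd⟩
  have h1 := step3 (h.shift hm hgap (x - ξ s)) hm (hgap.sh _ _) hs (by rw [df_sh]; exact hd)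
  rw [← hA, sh_mem hsA, L_sh] at h1
  have e1 : ξ s + (x - ξ s) = x := by ring
  have e2 : x - (x - ξ s) = ξ s := by ring
  rw [e1, e2] at h1
  refine M₁.closure_subset_closure ?_ h1
  rintro e ⟨he1, he2⟩
  rcases he1 with he1 | ⟨heA, (⟨he1, he3⟩ | ⟨he1, he3⟩)⟩
  · exact Or.inl he1
  · exact Or.inr ⟨heA, Or.inl ⟨he1, he3⟩⟩
  · refine Or.inr ⟨heA, Or.inr ⟨he1, ?_⟩⟩
    have h2 : ξ e ≠ x := fun h3 => he2 ⟨he1, by
      rw [df_sh]
      by_contra h4
      exact heA ⟨Or.inr he1, not_lt.1 h4⟩, by rw [sh_notMem heA]; exact h3⟩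
    omega

theorem span_nat {N : ℤ} {M₁ M₂ : Matroid α} {R I : Finset α} {ξ η : α → ℤ}
    (h : Opt N M₁ M₂ R I ξ η) {m : ℕ} (hm : 1 ≤ m) (hgap : Gap N R I ξ η m)
    {s : α} (hs : s ∈ R) (hd : m ≤ df N R ξ η s) (k : ℕ) : ∀ x : ℤ,
    s ∈ M₁.closure (LA R I (hi N R I ξ η m) ξ (ξ s) ∪
      W R I (hi N R I ξ η m) ξ x (x - 1 - k)) := by
  induction k with
  | zero => intro x; simpa using span_one h hm hgap hs hd x
  | succ k ih =>
    intro x
    have h1 := ih x
    have h2 := ih (x - 1)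
    have h3 : M₁.Indep ((LA R I (hi N R I ξ η m) ξ (ξ s) ∪
        W R I (hi N R I ξ η m) ξ x (x - 1 - k)) ∪ (LA R I (hi N R I ξ η m) ξ (ξ s) ∪
        W R I (hi N R I ξ η m) ξ (x - 1) (x - 1 - 1 - k))) := by
      refine (indep_mix h hm hgap (x - 1) (ξ s)).subset ?_
      have hk : (0 : ℤ) ≤ k := Int.natCast_nonneg k
      refine union_subset (union_subset subset_union_left ?_) (union_subset subset_union_left ?_)
      · rintro e ⟨heA, (⟨he1, he3⟩ | ⟨he1, he3⟩)⟩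
        · exact Or.inr ⟨heA, Or.inl ⟨he1, by omega⟩⟩
        · exact Or.inr ⟨heA, Or.inr ⟨he1, by omega⟩⟩
      · rintro e ⟨heA, (⟨he1, he3⟩ | ⟨he1, he3⟩)⟩
        · exact Or.inr ⟨heA, Or.inl ⟨he1, by omega⟩⟩
        · exact Or.inr ⟨heA, Or.inr ⟨he1, by omega⟩⟩
    have h4 : s ∈ M₁.closure ((LA R I (hi N R I ξ η m) ξ (ξ s) ∪
        W R I (hi N R I ξ η m) ξ x (x - 1 - k)) ∩ (LA R I (hi N R I ξ η m) ξ (ξ s) ∪
        W R I (hi N R I ξ η m) ξ (x - 1) (x - 1 - 1 - k))) := by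
      rw [h3.closure_inter_eq_inter_closure]
      exact ⟨h1, h2⟩
    refine M₁.closure_subset_closure ?_ h4
    rintro e ⟨he1, he2⟩
    rcases he1 with he1 | ⟨heA, he1⟩
    · exact Or.inl he1
    · rcases he2 with he2 | ⟨_, he2⟩
      · exact Or.inl he2
      · refine Or.inr ⟨heA, ?_⟩
        push_cast
        rcases he1 with ⟨he1, he3⟩ | ⟨he1, he3⟩
        · exact Or.inl ⟨he1, he3⟩
        · rcases he2 with ⟨he2, _⟩ | ⟨he2, he4⟩
          · exact absurd he1 (Finset.disjoint_left.1 h.dis he2)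
          · exact Or.inr ⟨he1, by omega⟩

theorem span_two {N : ℤ} {M₁ M₂ : Matroid α} {R I : Finset α} {ξ η : α → ℤ}
    (h : Opt N M₁ M₂ R I ξ η) {m : ℕ} (hm : 1 ≤ m) (hgap : Gap N R I ξ η m)
    {s : α} (hs : s ∈ R) (hd : m ≤ df N R ξ η s) :
    s ∈ M₁.closure (LA R I (hi N R I ξ η m) ξ (ξ s)) := by
  obtain ⟨a, ha⟩ : ∃ b : ℤ, ∀ e ∈ R, ξ e ≤ b := by
    classical
    obtain ⟨b, hb⟩ := (R.image ξ).bddAbove
    exact ⟨b, fun e he => hb (Finset.mem_coe.2 (Finset.mem_image_of_mem ξ he))⟩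
  obtain ⟨b, hb⟩ : ∃ b : ℤ, ∀ e ∈ I, b < ξ e := by
    classical
    obtain ⟨b, hb⟩ := (I.image ξ).bddBelow
    exact ⟨b - 1, fun e he => by
      have := hb (Finset.mem_coe.2 (Finset.mem_image_of_mem ξ he)); omega⟩
  have h1 := span_nat h hm hgap hs hd (a - 1 - b).toNat a
  refine M₁.closure_subset_closure ?_ h1
  rintro e (he | ⟨_, (⟨he1, he3⟩ | ⟨he1, he3⟩)⟩)
  · exact he
  · have := ha e he1; omega
  · have := hb e he1; omega

/-- `R ∩ A` is in the `M₁`-closure of `I ∩ A`. -/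
theorem span_fin {N : ℤ} {M₁ M₂ : Matroid α} {R I : Finset α} {ξ η : α → ℤ}
    (h : Opt N M₁ M₂ R I ξ η) {m : ℕ} (hm : 1 ≤ m) (hgap : Gap N R I ξ η m) :
    (R : Set α) ∩ hi N R I ξ η m ⊆ M₁.closure ((I : Set α) ∩ hi N R I ξ η m) := by
  obtain ⟨a, ha⟩ : ∃ b : ℤ, ∀ e ∈ R, ξ e ≤ b := by
    classical
    obtain ⟨b, hb⟩ := (R.image ξ).bddAbove
    exact ⟨b, fun e he => hb (Finset.mem_coe.2 (Finset.mem_image_of_mem ξ he))⟩
  have key : ∀ k : ℕ, ∀ s ∈ R, m ≤ df N R ξ η s → a - ξ s < k →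
      s ∈ M₁.closure ((I : Set α) ∩ hi N R I ξ η m) := by
    intro k
    induction k with
    | zero => intro s hs _ hk; have := ha s hs; simp at hk; omega
    | succ k ih =>
      intro s hs hd hk
      have h1 := span_two h hm hgap hs hd
      refine Matroid.closure_subset_closure_of_subset_closure ?_ h1
      rintro e ⟨heA, (⟨he1, he3⟩ | ⟨he1, he3⟩)⟩
      · exact ih e he1 heA.2 (by push_cast at hk; omega)
      · exact M₁.subset_closure _ (h.cfg.indepI.subset inter_subset_left).subset_ground ⟨he1, heA⟩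
  rintro s ⟨hs, hsA⟩
  exact key (a - ξ s + 1).toNat s hs hsA.2 (by omega)

/-- The set of elements of large shortage is tight for the pair. -/
theorem tight {N : ℤ} {M₁ M₂ : Matroid α} {R I : Finset α} {ξ η : α → ℤ}
    (h : Opt N M₁ M₂ R I ξ η) {m : ℕ} (hm : 1 ≤ m) (hgap : Gap N R I ξ η m) :
    M₁.eRk (hi N R I ξ η m) + M₂.eRk (hi N R I ξ η m) = (hi N R I ξ η m).encard := by
  set A := hi N R I ξ η m with hA
  have hAU : A = ((R : Set α) ∩ A) ∪ ((I : Set α) ∩ A) := by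
    ext e
    constructor
    · intro he
      rcases he.1 with h' | h'
      · exact Or.inl ⟨h', he⟩
      · exact Or.inr ⟨h', he⟩
    · rintro (h' | h')
      · exact h'.2
      · exact h'.2
  have h1 : M₁.eRk A = ((I : Set α) ∩ A).encard := by
    have hI := h.cfg.indepI.subset (inter_subset_left (s := (I : Set α)) (t := A))
    rw [← hI.eRk_eq_encard, ← M₁.eRk_closure_eq ((I : Set α) ∩ A), ← M₁.eRk_closure_eq A]
    congr 1
    refine subset_antisymm ?_ (M₁.closure_subset_closure inter_subset_right)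
    conv_lhs => rw [hAU]
    refine Matroid.closure_subset_closure_of_subset_closure (union_subset ?_ ?_)
    · exact span_fin h hm hgap
    · exact M₁.subset_closure _ hI.subset_ground
  have h2 : M₂.eRk A = ((R : Set α) ∩ A).encard := by
    have hR := h.swap.cfg.indepI.subset (inter_subset_left (s := (R : Set α)) (t := A))
    rw [← hR.eRk_eq_encard, ← M₂.eRk_closure_eq ((R : Set α) ∩ A), ← M₂.eRk_closure_eq A]
    congr 1
    refine subset_antisymm ?_ (M₂.closure_subset_closure inter_subset_right)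
    conv_lhs => rw [hAU]
    refine Matroid.closure_subset_closure_of_subset_closure (union_subset ?_ ?_)
    · exact M₂.subset_closure _ hR.subset_ground
    · have := span_fin h.swap hm (hgap.swap h.dis)
      rwa [hi_swap h.dis] at this
  rw [h1, h2]
  conv_rhs => rw [hAU]
  rw [encard_union_eq, add_comm]
  exact (Finset.disjoint_coe.2 h.dis).mono inter_subset_left inter_subset_left

end Pool.Agent.Lib.MP_2c7063_coS
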