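import Pool.Agent.Lib.MP_2c7063_coS.Closure

/-!
# Good cyclic orderings and the vertex stars of size at most three
-/

namespace Pool.Agent.Lib.MP_2c7063_coS

open Set
open scoped Matroid

variable {α : Type*}

/-- All windows of the cyclic sequence `x 0, ..., x (r - 1), y 0, ..., y (r - 1)` are bases. -/
def Good (M : Matroid α) (B B' : Set α) (r : ℕ) (x y : ℕ → α) : Prop :=
  InjOn x (Iio r) ∧ x '' Iio r = B ∧ InjOn y (Iio r) ∧ y '' Iio r = B' ∧
    ∀ i ≤ r, M.IsBase ((B \ x '' Iio i) ∪ y '' Iio i) ∧ M.IsBase ((B' \ y '' Iio i) ∪ x '' Iio i)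

theorem Good.symm {M : Matroid α} {B B' : Set α} {r : ℕ} {x y : ℕ → α} (h : Good M B B' r x y) :
    Good M B' B r y x :=
  ⟨h.2.2.1, h.2.2.2.1, h.1, h.2.1, fun i hi => (h.2.2.2.2 i hi).symm⟩

/-- Insert `b` at position `j`. -/
def ins (j : ℕ) (b : α) (x : ℕ → α) (i : ℕ) : α :=
  if i < j then x i else if i = j then b else x (i - 1)

theorem ins_low {j : ℕ} {b : α} {x : ℕ → α} {i : ℕ} (h : i ≤ j) :
    ins j b x '' Iio i = x '' Iio i := by
  refine image_congr fun k hk => ?_
  exact if_pos (lt_of_lt_of_le hk h)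

theorem ins_high {j : ℕ} {b : α} {x : ℕ → α} {i : ℕ} (h : j ≤ i) :
    ins j b x '' Iio (i + 1) = insert b (x '' Iio i) := by
  ext e
  constructor
  · rintro ⟨k, hk, rfl⟩
    simp only [mem_Iio] at hk
    unfold ins
    by_cases h1 : k < j
    · rw [if_pos h1]; exact Or.inr ⟨k, by simp only [mem_Iio]; omega, rfl⟩
    · rw [if_neg h1]
      by_cases h2 : k = j
      · rw [if_pos h2]; exact Or.inl rfl
      · rw [if_neg h2]; exact Or.inr ⟨k - 1, by simp only [mem_Iio]; omega, rfl⟩
  · rintro (rfl | ⟨k, hk, rfl⟩)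
    · exact ⟨j, by simp only [mem_Iio]; omega, by simp [ins]⟩
    · simp only [mem_Iio] at hk
      by_cases h1 : k < j
      · exact ⟨k, by simp only [mem_Iio]; omega, if_pos h1⟩
      · refine ⟨k + 1, by simp only [mem_Iio]; omega, ?_⟩
        have h2 : ¬ (k + 1 < j) := by omega
        have h3 : ¬ (k + 1 = j) := by omega
        simp only [ins, if_neg h2, if_neg h3, Nat.add_sub_cancel]

theorem ins_injOn {j n : ℕ} {b : α} {x : ℕ → α} (hj : j ≤ n) (hx : InjOn x (Iio n))
    (hb : b ∉ x '' Iio n) : InjOn (ins j b x) (Iio (n + 1)) := by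
  have hb' : ∀ k, k < n → x k ≠ b := fun k hk h => hb ⟨k, hk, h⟩
  intro i hi k hk hik
  simp only [mem_Iio] at hi hk
  unfold ins at hik
  have key : ∀ a c, a < n → c < n → x a = x c → a = c := fun a c ha hc h => hx ha hc h
  split_ifs at hik with h1 h2 h3 h4 h5 h6 h7 h8
  · exact key _ _ (by omega) (by omega) hik
  · exact absurd hik (hb' _ (by omega))
  · have := key _ _ (by omega) (by omega) hik
    omega
  · exact absurd hik.symm (hb' _ (by omega))
  · omega
  · exact absurd hik.symm (hb' _ (by omega))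
  · have := key _ _ (by omega) (by omega) hik
    omega
  · exact absurd hik (hb' _ (by omega))
  · have := key _ _ (by omega) (by omega) hik
    omega

/-- `D` behaves like a cut of `E`: an independent subset of `E` without elements of `D` stays
independent if an element of `D` is added. -/
def Cut (M : Matroid α) (E D : Set α) : Prop :=
  ∀ J ⊆ E, M.Indep J → Disjoint J D → ∀ e ∈ D, M.Indep (insert e J)

theorem isBase_of_card {M : Matroid α} {B X : Set α} {r : ℕ} (hB : M.IsBase B)
    (hr : B.encard = r) (hX : M.Indep X) (hXr : X.encard = r) : M.IsBase X :=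
  isBase_of hX hXr (by rw [← hB.encard_eq_eRank, hr])

/-- Two edges at a vertex. -/
theorem good_two {M : Matroid α} {B B' : Set α} {n : ℕ} {b b' : α} (hB : M.IsBase B)
    (hB' : M.IsBase B') (hd : Disjoint B B') (hr : B.encard = (n + 1 : ℕ)) (hb : b ∈ B)
    (hb' : b' ∈ B') (hcut : Cut M (B ∪ B') {b, b'}) {x y : ℕ → α}
    (hg : Good (M ／ {b}) (B \ {b}) (B' \ {b'}) n x y) :
    Good M B B' (n + 1) (ins 0 b x) (ins 0 b' y) := by
  obtain ⟨hx, hxB, hy, hyB, hW⟩ := hg
  have hbI : M.Indep {b} := hB.indep.subset (singleton_subset_iff.2 hb)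
  have hbb' : b ∉ B' := disjoint_left.1 hd hb
  have hb'b : b' ∉ B := disjoint_right.1 hd hb'
  have hne : b ≠ b' := fun h => hbb' (h ▸ hb')
  have hxi : ∀ i ≤ n, x '' Iio i ⊆ B \ {b} := fun i hi => by
    rw [← hxB]; exact image_mono (Iio_subset_Iio hi)
  have hyi : ∀ i ≤ n, y '' Iio i ⊆ B' \ {b'} := fun i hi => by
    rw [← hyB]; exact image_mono (Iio_subset_Iio hi)
  -- a base of the contraction with `b` or `b'`
  have key : ∀ W : Set α, (M ／ {b}).IsBase W → W ⊆ B ∪ B' → b' ∉ W →
      M.IsBase (insert b W) ∧ M.IsBase (insert b' W) := by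
    intro W hWb hWs hb'W
    obtain ⟨h1, h2⟩ := hbI.contract_isBase_iff.1 hWb
    rw [union_singleton] at h1
    have hbW : b ∉ W := disjoint_right.1 h2 rfl
    have hWI : M.Indep W := h1.indep.subset (subset_insert _ _)
    have hdis : Disjoint W {b, b'} := by
      refine disjoint_left.2 fun e he => ?_
      rintro (rfl | rfl)
      · exact hbW he
      · exact hb'W he
    refine ⟨h1, isBase_of_card hB hr (hcut W hWs hWI hdis b' (by simp)) ?_⟩
    have h3 : (insert b W).encard = (n + 1 : ℕ) := by
      rw [h1.encard_eq_eRank, ← hB.encard_eq_eRank, hr]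
    rw [encard_insert_of_notMem hbW] at h3
    rw [encard_insert_of_notMem hb'W, h3]
  refine ⟨ins_injOn (Nat.zero_le _) hx ?_, ?_, ins_injOn (Nat.zero_le _) hy ?_, ?_, ?_⟩
  · rw [hxB]; exact fun h => h.2 rfl
  · rw [ins_high (Nat.zero_le _), hxB, insert_sdiff_self_of_mem hb]
  · rw [hyB]; exact fun h => h.2 rfl
  · rw [ins_high (Nat.zero_le _), hyB, insert_sdiff_self_of_mem hb']
  · intro i hi
    cases i with
    | zero => simpa using ⟨hB, hB'⟩
    | succ i =>
      have hi' : i ≤ n := by omega
      rw [ins_high (Nat.zero_le _), ins_high (Nat.zero_le _)]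
      obtain ⟨w1, w2⟩ := hW i hi'
      constructor
      · have h1 : (B \ insert b (x '' Iio i)) ∪ insert b' (y '' Iio i) =
            insert b' (((B \ {b}) \ x '' Iio i) ∪ y '' Iio i) := by
          ext e
          simp only [mem_union, mem_sdiff, mem_insert_iff, mem_singleton_iff]
          tauto
        rw [h1]
        refine (key _ w1 (union_subset_union (sdiff_subset.trans sdiff_subset)
          ((hyi i hi').trans sdiff_subset)) ?_).2
        rintro (h | h)
        · exact hb'b h.1.1
        · exact (hyi i hi' h).2 rfl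
      · have h1 : (B' \ insert b' (y '' Iio i)) ∪ insert b (x '' Iio i) =
            insert b (((B' \ {b'}) \ y '' Iio i) ∪ x '' Iio i) := by
          ext e
          simp only [mem_union, mem_sdiff, mem_insert_iff, mem_singleton_iff]
          tauto
        rw [h1]
        refine (key _ w2 (union_subset ((sdiff_subset.trans sdiff_subset).trans
          subset_union_right) (((hxi i hi').trans sdiff_subset).trans subset_union_left)) ?_).1
        rintro (h | h)
        · exact h.1.2 rfl
        · exact hb'b (hxi i hi' h).1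

end Pool.Agent.Lib.MP_2c7063_coS
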