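import Pool.Agent.Lib.MP_2c7063_coS.Step

/-!
# Vertex stars with three edges
-/

namespace Pool.Agent.Lib.MP_2c7063_coS

open Set
open scoped Matroid

variable {α : Type*}

/-- Three edges at a vertex. -/
theorem good_three {M : Matroid α} {B B' : Set α} {n : ℕ} {b₁ b₂ b' : α} (hB : M.IsBase B)
    (hd : Disjoint B B') (hr : B.encard = (n + 1 : ℕ)) (hb1 : b₁ ∈ B)
    (hb2 : b₂ ∈ B) (h12 : b₁ ≠ b₂) (hb' : b' ∈ B') (hcut : Cut M (B ∪ B') {b₁, b₂, b'}) {x y : ℕ → α}
    (hg : Good (M ／ {b₁}) (B \ {b₁}) (B' \ {b'}) n x y) :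
    ∃ X Y : ℕ → α, Good M B B' (n + 1) X Y := by
  obtain ⟨hx, hxB, hy, hyB, hW⟩ := hg
  have hbI : M.Indep {b₁} := hB.indep.subset (singleton_subset_iff.2 hb1)
  have hb1B' : b₁ ∉ B' := disjoint_left.1 hd hb1
  have hb2B' : b₂ ∉ B' := disjoint_left.1 hd hb2
  have hb'B : b' ∉ B := disjoint_right.1 hd hb'
  have hxi : ∀ i ≤ n, x '' Iio i ⊆ B \ {b₁} := fun i hi => by
    rw [← hxB]; exact image_mono (Iio_subset_Iio hi)
  have hyi : ∀ i ≤ n, y '' Iio i ⊆ B' \ {b'} := fun i hi => by
    rw [← hyB]; exact image_mono (Iio_subset_Iio hi)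
  obtain ⟨j, hj, hxj⟩ : b₂ ∈ x '' Iio n := by
    rw [hxB]; exact ⟨hb2, fun h => h12 h.symm⟩
  have hj : j < n := hj
  have hb2lt : ∀ i, j < i → b₂ ∈ x '' Iio i := fun i hi => ⟨j, hi, hxj⟩
  have hb2ge : ∀ i, i ≤ j → b₂ ∉ x '' Iio i := by
    rintro i hi ⟨k, hk, hkj⟩
    have hk : k < i := hk
    have := hx (show k ∈ Iio n by simp only [mem_Iio]; omega) (show j ∈ Iio n from hj)
      (hkj.trans hxj.symm)
    omega
  have hxsucc : x '' Iio (j + 1) = insert b₂ (x '' Iio j) := by
    have h2 : Iio (j + 1) = insert j (Iio j) := by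
      ext k; simp only [mem_Iio, mem_insert_iff]; omega
    rw [h2, image_insert_eq, hxj]
  -- a base of the contraction
  have key1 : ∀ W : Set α, (M ／ {b₁}).IsBase W → M.IsBase (insert b₁ W) ∧ b₁ ∉ W := by
    intro W hWb
    obtain ⟨h1, h2⟩ := hbI.contract_isBase_iff.1 hWb
    rw [union_singleton] at h1
    exact ⟨h1, disjoint_right.1 h2 rfl⟩
  have sub1 : ∀ i ≤ n, ((B \ {b₁}) \ x '' Iio i) ∪ y '' Iio i ⊆ B ∪ B' := fun i hi =>
    union_subset_union (sdiff_subset.trans sdiff_subset) ((hyi i hi).trans sdiff_subset)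
  have sub2 : ∀ i k, k ≤ n → ((B' \ {b'}) \ y '' Iio i) ∪ x '' Iio k ⊆ B ∪ B' := fun i k hk =>
    union_subset ((sdiff_subset.trans sdiff_subset).trans subset_union_right)
      (((hxi k hk).trans sdiff_subset).trans subset_union_left)
  have key2 : ∀ W : Set α, (M ／ {b₁}).IsBase W → W ⊆ B ∪ B' → b₂ ∉ W → b' ∉ W →
      M.IsBase (insert b₂ W) ∧ M.IsBase (insert b' W) := by
    intro W hWb hWs h2 h'
    obtain ⟨h3, hb1W⟩ := key1 W hWb
    have hWI : M.Indep W := h3.indep.subset (subset_insert _ _)
    have hdis : Disjoint W {b₁, b₂, b'} := by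
      refine disjoint_left.2 fun e he => ?_
      rintro (rfl | rfl | rfl)
      · exact hb1W he
      · exact h2 he
      · exact h' he
    have h4 : (insert b₁ W).encard = (n + 1 : ℕ) := by
      rw [h3.encard_eq_eRank, ← hB.encard_eq_eRank, hr]
    rw [encard_insert_of_notMem hb1W] at h4
    exact ⟨isBase_of_card hB hr (hcut W hWs hWI hdis b₂ (by simp)) (by
        rw [encard_insert_of_notMem h2, h4]),
      isBase_of_card hB hr (hcut W hWs hWI hdis b' (by simp)) (by
        rw [encard_insert_of_notMem h', h4])⟩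
  -- the critical window
  set Q : Set α := ((B' \ {b'}) \ y '' Iio (j + 1)) ∪ x '' Iio j with hQ
  have hb1Q : b₁ ∉ Q := by
    rintro (h | h)
    · exact hb1B' h.1.1
    · exact (hxi j hj.le h).2 rfl
  have hb2Q : b₂ ∉ Q := by
    rintro (h | h)
    · exact hb2B' h.1.1
    · exact hb2ge j le_rfl h
  have hb'Q : b' ∉ Q := by
    rintro (h | h)
    · exact h.1.2 rfl
    · exact hb'B (hxi j hj.le h).1
  have hW'eq : ((B' \ {b'}) \ y '' Iio (j + 1)) ∪ x '' Iio (j + 1) = insert b₂ Q := by
    rw [hxsucc, union_insert]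
  have hbase : M.IsBase (insert b₁ (insert b₂ Q)) := by
    have := (key1 _ (hW (j + 1) hj).2).1
    rwa [hW'eq] at this
  have hb1Q' : b₁ ∉ insert b₂ Q := by
    rintro (h | h)
    · exact h12 h
    · exact hb1Q h
  have hcardQ : Q.encard + 1 + 1 = (n + 1 : ℕ) := by
    have : (insert b₁ (insert b₂ Q)).encard = (n + 1 : ℕ) := by
      rw [hbase.encard_eq_eRank, ← hB.encard_eq_eRank, hr]
    rwa [encard_insert_of_notMem hb1Q', encard_insert_of_notMem hb2Q] at this
  have hQI : M.Indep Q := hbase.indep.subset ((subset_insert _ _).trans (subset_insert _ _))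
  have hQb' : M.Indep (insert b' Q) := hcut Q (sub2 (j + 1) j hj.le) hQI (by
    refine disjoint_left.2 fun e he => ?_
    rintro (rfl | rfl | rfl)
    · exact hb1Q he
    · exact hb2Q he
    · exact hb'Q he) b' (by simp)
  have hcrit : M.Indep (insert b' (insert b₁ Q)) ∨ M.Indep (insert b' (insert b₂ Q)) := by
    have hlt : (insert b' Q).encard < (insert b₁ (insert b₂ Q)).encard := by
      rw [encard_insert_of_notMem hb'Q, encard_insert_of_notMem hb1Q',
        encard_insert_of_notMem hb2Q]
      have hfin : Q.encard + 1 ≠ ⊤ := by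
        intro h
        rw [h] at hcardQ
        have h' : ((n + 1 : ℕ) : ℕ∞) = ⊤ := by rw [← hcardQ]; simp
        exact ENat.natCast_ne_top _ h'
      exact (ENat.lt_add_one_iff hfin).2 le_rfl
    obtain ⟨e, he, heQ, hins⟩ := augment hQb' hbase.indep hlt
    rcases he with rfl | rfl | he
    · left; rwa [insert_comm] at hins
    · right; rwa [insert_comm] at hins
    · exact absurd (Or.inr he) heQ
  have hcardD : ∀ e, e ∉ Q → e ≠ b' → (insert b' (insert e Q)).encard = (n + 1 : ℕ) := by
    intro e he hne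
    have : b' ∉ insert e Q := by
      rintro (h | h)
      · exact hne h.symm
      · exact hb'Q h
    rw [encard_insert_of_notMem this, encard_insert_of_notMem he, hcardQ]
  have hb1ne : b₁ ≠ b' := fun h => hb'B (h ▸ hb1)
  have hb2ne : b₂ ≠ b' := fun h => hb'B (h ▸ hb2)
  -- windows before the critical one
  have low1 : ∀ i ≤ j, M.IsBase ((B \ x '' Iio i) ∪ y '' Iio i) := by
    intro i hi
    have h1 : (B \ x '' Iio i) ∪ y '' Iio i =
        insert b₁ (((B \ {b₁}) \ x '' Iio i) ∪ y '' Iio i) := by
      ext e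
      have a1 : b₁ ∉ x '' Iio i := fun h => (hxi i (by omega) h).2 rfl
      simp only [mem_union, mem_sdiff, mem_insert_iff, mem_singleton_iff]
      by_cases he : e = b₁
      · subst he; simp [hb1, a1]
      · simp [he]
    rw [h1]
    exact (key1 _ (hW i (by omega)).1).1
  have low2 : ∀ i ≤ j, M.IsBase ((B' \ y '' Iio i) ∪ x '' Iio i) := by
    intro i hi
    have h1 : (B' \ y '' Iio i) ∪ x '' Iio i =
        insert b' (((B' \ {b'}) \ y '' Iio i) ∪ x '' Iio i) := by
      ext e
      have a1 : b' ∉ y '' Iio i := fun h => (hyi i (by omega) h).2 rfl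
      simp only [mem_union, mem_sdiff, mem_insert_iff, mem_singleton_iff]
      by_cases he : e = b'
      · subst he; simp [hb', a1]
      · simp [he]
    rw [h1]
    refine (key2 _ (hW i (by omega)).2 (sub2 i i (by omega)) ?_ ?_).2
    · rintro (h | h)
      · exact hb2B' h.1.1
      · exact hb2ge i hi h
    · rintro (h | h)
      · exact h.1.2 rfl
      · exact hb'B (hxi i (by omega) h).1
  -- windows after the critical one
  have hi1 : ∀ i, j < i → i ≤ n →
      M.IsBase ((B \ insert b₁ (x '' Iio i)) ∪ insert b' (y '' Iio i)) := by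
    intro i hi hin
    have h1 : (B \ insert b₁ (x '' Iio i)) ∪ insert b' (y '' Iio i) =
        insert b' (((B \ {b₁}) \ x '' Iio i) ∪ y '' Iio i) := by
      ext e
      simp only [mem_union, mem_sdiff, mem_insert_iff, mem_singleton_iff]
      tauto
    rw [h1]
    refine (key2 _ (hW i hin).1 (sub1 i hin) ?_ ?_).2
    · rintro (h | h)
      · exact h.2 (hb2lt i hi)
      · exact hb2B' (hyi i hin h).1
    · rintro (h | h)
      · exact hb'B h.1.1
      · exact (hyi i hin h).2 rfl
  have hi2 : ∀ i, j < i → i ≤ n →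
      M.IsBase ((B' \ insert b' (y '' Iio i)) ∪ insert b₁ (x '' Iio i)) := by
    intro i hi hin
    have h1 : (B' \ insert b' (y '' Iio i)) ∪ insert b₁ (x '' Iio i) =
        insert b₁ (((B' \ {b'}) \ y '' Iio i) ∪ x '' Iio i) := by
      ext e
      simp only [mem_union, mem_sdiff, mem_insert_iff, mem_singleton_iff]
      tauto
    rw [h1]
    exact (key1 _ (hW i hin).2).1
  have hxB1 : insert b₁ (x '' Iio n) = B := by rw [hxB, insert_sdiff_self_of_mem hb1]
  have hyB1 : insert b' (y '' Iio n) = B' := by rw [hyB, insert_sdiff_self_of_mem hb']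
  have hb1x : b₁ ∉ x '' Iio n := by rw [hxB]; exact fun h => h.2 rfl
  have hb'y : b' ∉ y '' Iio n := by rw [hyB]; exact fun h => h.2 rfl
  rcases hcrit with hc | hc
  · refine ⟨ins j b₁ x, ins (j + 1) b' y, ins_injOn hj.le hx hb1x, ?_, ins_injOn hj hy hb'y, ?_,
      fun i hi => ?_⟩
    · rw [ins_high hj.le, hxB1]
    · rw [ins_high hj, hyB1]
    · rcases lt_trichotomy i (j + 1) with h | h | h
      · have hij : i ≤ j := by omega
        rw [ins_low hij, ins_low (by omega : i ≤ j + 1)]
        exact ⟨low1 i hij, low2 i hij⟩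
      · subst h
        rw [ins_high le_rfl, ins_low le_rfl]
        constructor
        · have h1 : (B \ insert b₁ (x '' Iio j)) ∪ y '' Iio (j + 1) =
              insert b₂ (((B \ {b₁}) \ x '' Iio (j + 1)) ∪ y '' Iio (j + 1)) := by
            rw [hxsucc]
            ext e
            have a1 := hb2ge j le_rfl
            simp only [mem_union, mem_sdiff, mem_insert_iff, mem_singleton_iff]
            by_cases he : e = b₂
            · subst he; simp [hb2, a1, h12.symm]
            · simp [he]; tauto
          rw [h1]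
          refine (key2 _ (hW (j + 1) hj).1 (sub1 (j + 1) hj) ?_ ?_).1
          · rintro (h | h)
            · exact h.2 (hb2lt (j + 1) (by omega))
            · exact hb2B' (hyi (j + 1) hj h).1
          · rintro (h | h)
            · exact hb'B h.1.1
            · exact (hyi (j + 1) hj h).2 rfl
        · have h1 : (B' \ y '' Iio (j + 1)) ∪ insert b₁ (x '' Iio j) =
              insert b' (insert b₁ Q) := by
            ext e
            have a1 : b' ∉ y '' Iio (j + 1) := fun h => (hyi (j + 1) hj h).2 rfl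
            simp only [hQ, mem_union, mem_sdiff, mem_insert_iff, mem_singleton_iff]
            by_cases he : e = b'
            · subst he; simp [hb', a1]
            · simp [he]; tauto
          rw [h1]
          exact isBase_of_card hB hr hc (hcardD _ hb1Q hb1ne)
      · obtain ⟨k, rfl⟩ : ∃ k, i = k + 1 := ⟨i - 1, by omega⟩
        rw [ins_high (by omega : j ≤ k), ins_high (by omega : j + 1 ≤ k)]
        exact ⟨hi1 k (by omega) (by omega), hi2 k (by omega) (by omega)⟩
  · refine ⟨ins (j + 1) b₁ x, ins (j + 1) b' y, ins_injOn hj hx hb1x, ?_, ins_injOn hj hy hb'y, ?_,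
      fun i hi => ?_⟩
    · rw [ins_high hj, hxB1]
    · rw [ins_high hj, hyB1]
    · rcases lt_trichotomy i (j + 1) with h | h | h
      · have hij : i ≤ j := by omega
        rw [ins_low (by omega : i ≤ j + 1), ins_low (by omega : i ≤ j + 1)]
        exact ⟨low1 i hij, low2 i hij⟩
      · subst h
        rw [ins_low le_rfl, ins_low le_rfl]
        constructor
        · have h1 : (B \ x '' Iio (j + 1)) ∪ y '' Iio (j + 1) =
              insert b₁ (((B \ {b₁}) \ x '' Iio (j + 1)) ∪ y '' Iio (j + 1)) := by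
            ext e
            have a1 : b₁ ∉ x '' Iio (j + 1) := fun h => (hxi (j + 1) hj h).2 rfl
            simp only [mem_union, mem_sdiff, mem_insert_iff, mem_singleton_iff]
            by_cases he : e = b₁
            · subst he; simp [hb1, a1]
            · simp [he]
          rw [h1]
          exact (key1 _ (hW (j + 1) hj).1).1
        · have h1 : (B' \ y '' Iio (j + 1)) ∪ x '' Iio (j + 1) =
              insert b' (insert b₂ Q) := by
            rw [← hW'eq]
            ext e
            have a1 : b' ∉ y '' Iio (j + 1) := fun h => (hyi (j + 1) hj h).2 rfl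
            simp only [mem_union, mem_sdiff, mem_insert_iff, mem_singleton_iff]
            by_cases he : e = b'
            · subst he; simp [hb', a1]
            · simp [he]
          rw [h1]
          exact isBase_of_card hB hr hc (hcardD _ hb2Q hb2ne)
      · obtain ⟨k, rfl⟩ : ∃ k, i = k + 1 := ⟨i - 1, by omega⟩
        rw [ins_high (by omega : j + 1 ≤ k), ins_high (by omega : j + 1 ≤ k)]
        exact ⟨hi1 k (by omega) (by omega), hi2 k (by omega) (by omega)⟩

end Pool.Agent.Lib.MP_2c7063_coS
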