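import Pool.Agent.Lib.MP_2c7063_coS.Extract2

/-!
# Truncations
-/

namespace Pool.Agent.Lib.MP_2c7063_coS

open Set

variable {α : Type*}

theorem augment {N : Matroid α} {I J : Set α} (hI : N.Indep I) (hJ : N.Indep J)
    (h : I.encard < J.encard) : ∃ e ∈ J, e ∉ I ∧ N.Indep (insert e I) := by
  by_contra hcon
  push Not at hcon
  have hsub : J ⊆ N.closure I := by
    intro e he
    by_cases heI : e ∈ I
    · exact N.subset_closure I hI.subset_ground heI
    · by_contra h'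
      exact hcon e he heI ((hI.insert_indep_iff_of_notMem heI).2 ⟨hJ.subset_ground he, h'⟩)
  have h1 := N.eRk_mono hsub
  rw [N.eRk_closure_eq, hI.eRk_eq_encard, hJ.eRk_eq_encard] at h1
  exact absurd h (not_lt.2 h1)

/-- The truncation of `N` to rank `k`. -/
noncomputable def tr (N : Matroid α) (k : ℕ) : Matroid α :=
  (IndepMatroid.ofBddAugment N.E (fun J => N.Indep J ∧ J.encard ≤ k)
    ⟨N.empty_indep, by simp⟩
    (fun _ _ hJ hIJ => ⟨hJ.1.subset hIJ, (encard_le_encard hIJ).trans hJ.2⟩)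
    (fun I J hI hJ h => by
      obtain ⟨e, he, heI, hins⟩ := augment hI.1 hJ.1 h
      refine ⟨e, he, heI, hins, ?_⟩
      rw [encard_insert_of_notMem heI]
      have hfin : I.encard ≠ ⊤ := (lt_of_lt_of_le h le_top).ne
      exact ((ENat.add_one_le_iff hfin).2 h).trans hJ.2)
    ⟨k, fun _ h => h.2⟩ (fun _ h => h.1.subset_ground)).matroid

theorem tr_indep {N : Matroid α} {k : ℕ} {J : Set α} :
    (tr N k).Indep J ↔ N.Indep J ∧ J.encard ≤ k := Iff.rfl

theorem tr_eRank (N : Matroid α) (k : ℕ) : (tr N k).eRank ≤ k := by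
  obtain ⟨B, hB⟩ := (tr N k).exists_isBase
  rw [← hB.encard_eq_eRank]
  exact (tr_indep.1 hB.indep).2

theorem le_tr_eRk {N : Matroid α} {k : ℕ} {A : Set α} {m : ℕ∞} (h1 : m ≤ N.eRk A) (h2 : m ≤ k) :
    m ≤ (tr N k).eRk A := by
  rw [Matroid.le_eRk_iff] at h1 ⊢
  obtain ⟨I, hIA, hI, rfl⟩ := h1
  exact ⟨I, hIA, tr_indep.2 ⟨hI, h2⟩, rfl⟩

theorem encard_le_two_mul {N : Matroid α} {X Y A : Set α} (hX : N.Indep X) (hY : N.Indep Y)
    (hA : A ⊆ X ∪ Y) : A.encard ≤ 2 * N.eRk A := by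
  have h1 : (A ∩ X).encard ≤ N.eRk A :=
    (hX.subset inter_subset_right).encard_le_eRk_of_subset inter_subset_left
  have h2 : (A ∩ Y).encard ≤ N.eRk A :=
    (hY.subset inter_subset_right).encard_le_eRk_of_subset inter_subset_left
  have h3 : A = (A ∩ X) ∪ (A ∩ Y) := by
    rw [← inter_union_distrib_left, inter_eq_left.2 hA]
  calc A.encard = ((A ∩ X) ∪ (A ∩ Y)).encard := by rw [← h3]
    _ ≤ (A ∩ X).encard + (A ∩ Y).encard := encard_union_le _ _
    _ ≤ N.eRk A + N.eRk A := add_le_add h1 h2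
    _ = 2 * N.eRk A := (two_mul _).symm

/-- No set is tight in both matroids. -/
theorem irr [Nonempty α] {N M : Matroid α} {X Y : Set α} {n : ℕ} (hX : N.Indep X)
    (hY : N.Indep Y) (hXM : M.Indep X) (hYM : M.Indep Y) (hd : Disjoint X Y)
    (hXn : X.encard = n) (hYn : Y.encard = n) (hM : M.eRank ≤ n)
    (hdens : ∀ A ⊆ X ∪ Y, A.Nonempty → A.encard = 2 * N.eRk A → A.encard = 2 * M.eRk A → False) :
    ∃ x y : ℕ → α, InjOn x (Iio n) ∧ x '' Iio n = X ∧ InjOn y (Iio n) ∧ y '' Iio n = Y ∧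
      (∀ i < n, N.Indep ((X \ x '' Iio i) ∪ y '' Iio (i + 1))) ∧
      (∀ i ≤ n, M.Indep ((Y \ y '' Iio i) ∪ x '' Iio i)) := by
  have h1 : (tr N (n + 1)).Indep X := tr_indep.2 ⟨hX, by rw [hXn]; exact_mod_cast Nat.le_succ n⟩
  have h2 : (tr N (n + 1)).Indep Y := tr_indep.2 ⟨hY, by rw [hYn]; exact_mod_cast Nat.le_succ n⟩
  obtain ⟨x, y, hx, hxX, hy, hyY, hW1, hW2⟩ := pair h1 h2 hXM hYM hd hXn hYn
    (tr_eRank N (n + 1)) hM (by
      intro A hA hne
      have hfin : A.Finite := ((finite_of_encard_eq_coe hXn).union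
        (finite_of_encard_eq_coe hYn)).subset hA
      have i1 := encard_le_two_mul hX hY hA
      have i2 := encard_le_two_mul hXM hYM hA
      have i3 : M.eRk A ≤ n := (M.eRk_le_eRank A).trans hM
      have i4 := N.eRk_le_encard A
      have i5 := hdens A hA hne
      obtain ⟨c, hc⟩ := ENat.ne_top_iff_exists.1 hfin.encard_lt_top.ne
      obtain ⟨a, ha⟩ := ENat.ne_top_iff_exists.1 (lt_of_le_of_lt i4 hfin.encard_lt_top).ne
      obtain ⟨b, hb⟩ := ENat.ne_top_iff_exists.1 (lt_of_le_of_lt (M.eRk_le_encard A)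
        hfin.encard_lt_top).ne
      rw [← hc, ← ha] at i1 i5
      rw [← hc, ← hb] at i2
      rw [← hb] at i3 i5
      rw [← hc, ← hb]
      have j1 : c ≤ 2 * a := by exact_mod_cast i1
      have j2 : c ≤ 2 * b := by exact_mod_cast i2
      have j3 : b ≤ n := by exact_mod_cast i3
      have j5 : ¬ (c = 2 * a ∧ c = 2 * b) := fun h =>
        i5 (by exact_mod_cast h.1) (by exact_mod_cast h.2)
      have j6 : ((min a (n + 1) : ℕ) : ℕ∞) ≤ (tr N (n + 1)).eRk A := by
        refine le_tr_eRk ?_ ?_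
        · rw [← ha]; exact_mod_cast min_le_left _ _
        · exact_mod_cast min_le_right _ _
      have j7 : c < min a (n + 1) + b := by
        rcases le_total a (n + 1) with h | h
        · rw [min_eq_left h]; omega
        · rw [min_eq_right h]; omega
      calc (c : ℕ∞) < ((min a (n + 1) + b : ℕ) : ℕ∞) := by exact_mod_cast j7
        _ = ((min a (n + 1) : ℕ) : ℕ∞) + (b : ℕ∞) := by push_cast; rfl
        _ ≤ (tr N (n + 1)).eRk A + (b : ℕ∞) := by gcongr)
  exact ⟨x, y, hx, hxX, hy, hyY, fun i hi => (tr_indep.1 (hW1 i hi)).1, hW2⟩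

end Pool.Agent.Lib.MP_2c7063_coS
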